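import Pool.Agent.Run7.h428.WA

/-!
# The weighted numbers of the exceptional sets

The numbers of the sets of primes outside of the regular part with the weights `2 ^ |S|` are
negligible with respect to `X` (after the files `R413/SQ/Asy`, `R413/SQ/FEW`, `R413/SM/S3` of the
starting tree, which treat the numbers without the weights).
-/

set_option autoImplicit false

open scoped Classical

namespace Run7.h428.W

open Finset Filter
open Pool.Agent.Y703.CX (sm la jj XX eL zz kk S_SIE logX_eq rpow_eL ev_eL one_le_exp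
  kk_ge kk_le X_pos one_add_log lin_le kap zz_pos kap_nonneg kap_pow kap_le)
open Pool.Agent.Y703.CQ (nr S_MER)
open Pool.Agent.Y495.CX.Few (PN euler prod_pos' le_of_mem_prod mert eL_tendsto log_small zz_ge
  loglog_zz rpow_eq)
open Pool.Agent.R413
open Pool.Agent.R413.SQ
open Pool.Agent.R413.SQ.FEW (pr LL mem_LL LL_sub mem_LL_of SS_mem mer_S mer_I LL_sum)
open Pool.Agent.R413.SQ.SM (BB Pos LLB_sum QQ QQ_sub)

theorem sml_mono {t : ℝ} {E F : ℕ → ℝ} (h : ∀ᶠ X : ℕ in atTop, E X ≤ F X) (hF : Sml t F) :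
    Sml t E := fun δ hδ => by
  filter_upwards [h, hF δ hδ] with X h1 h2
  exact h1.trans h2

theorem two_kk {X : ℕ} (h : 1 ≤ eL X) : (2 : ℝ) ^ kk X ≤ 2 * Real.exp (7 * eL X) := by
  have h1 := (Nat.ceil_lt_add_one (a := 10 * eL X) (by linarith)).le
  have h2 : (kk X : ℝ) ≤ 10 * eL X + 1 := h1
  have e : (2 : ℝ) ^ kk X = Real.exp (kk X * Real.log 2) := by
    rw [mul_comm, Real.exp_mul, Real.exp_log (by norm_num), Real.rpow_natCast]
  have h3 := Real.log_two_lt_d9
  have h4 : 0 < Real.log 2 := Real.log_pos (by norm_num)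
  rw [e]
  calc Real.exp (kk X * Real.log 2) ≤ Real.exp (Real.log 2 + 7 * eL X) := by
        apply Real.exp_le_exp.2
        nlinarith
    _ = 2 * Real.exp (7 * eL X) := by rw [Real.exp_add, Real.exp_log (by norm_num)]

theorem kk_two {X : ℕ} (h : 1 ≤ eL X) : Real.exp (6 * eL X) ≤ (2 : ℝ) ^ kk X := by
  have e : (2 : ℝ) ^ kk X = Real.exp (kk X * Real.log 2) := by
    rw [mul_comm, Real.exp_mul, Real.exp_log (by norm_num), Real.rpow_natCast]
  rw [e]
  apply Real.exp_le_exp.2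
  have h3 := kk_ge X
  have h4 := Real.log_two_gt_d9
  nlinarith

/-- the block parameter -/
noncomputable def HN (X : ℕ) : ℕ := ⌈(Real.log X) ^ 9⌉₊

/-- the number of blocks -/
noncomputable def NW (X : ℕ) : ℕ := ⌊(HN X : ℝ) * Real.log X⌋₊ + 1

theorem HN_ge {X : ℕ} (h : 0 < eL X) : Real.exp (9 * eL X) ≤ HN X := by
  have h1 := Nat.le_ceil ((Real.log (X : ℝ)) ^ 9)
  rw [logX_eq h, ← Real.exp_nat_mul] at h1
  push_cast at h1
  unfold HN
  rw [logX_eq h, ← Real.exp_nat_mul]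
  push_cast
  exact h1

theorem HN_le {X : ℕ} (h : 0 < eL X) : (HN X : ℝ) ≤ 2 * Real.exp (9 * eL X) := by
  have h0 : (0 : ℝ) ≤ (Real.log (X : ℝ)) ^ 9 := pow_nonneg (Real.log_natCast_nonneg X) 9
  have h1 := (Nat.ceil_lt_add_one h0).le
  unfold HN
  refine h1.trans ?_
  rw [logX_eq h, ← Real.exp_nat_mul]
  push_cast
  have := one_le_exp (x := 9 * eL X) (by linarith)
  linarith

theorem HN_pos {X : ℕ} (h : 0 < eL X) : 1 ≤ HN X := by
  have h1 := HN_ge h
  have h2 := Real.exp_pos (9 * eL X)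
  have h3 : (0 : ℝ) < HN X := lt_of_lt_of_le h2 h1
  exact_mod_cast h3

theorem SS_pr {I K : Finset ℕ} {X : ℕ} : ∀ S ∈ SS I K X, (∀ p ∈ S, p.Prime) ∧ ∏ p ∈ S, p ≤ X :=
  fun _ hS => ⟨fun p hp => pr ((SS_mem hS).1 p hp), (SS_mem hS).2⟩

/-- sets with many primes -/
theorem w_many (I K : Finset ℕ) :
    Sml 0 fun X => wt ((SS I K X).filter fun S => kk X < S.card) := by
  obtain ⟨C, hC0, hC⟩ := mert
  apply sml_of (C := Real.exp (4 * C)) (a := 2) (by norm_num)
  filter_upwards [ev_eL 1, eventually_ge_atTop 3] with X hX h3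
  have h1 : wt ((SS I K X).filter fun S => kk X < S.card) * (2 : ℝ) ^ kk X ≤
      ∑ S ∈ SS I K X, ∏ _p ∈ S, (4 : ℝ) := by
    unfold wt
    rw [sum_mul]
    refine le_trans (sum_le_sum (g := fun S => ∏ _p ∈ S, (4 : ℝ)) fun S hS => ?_)
      (sum_le_sum_of_subset_of_nonneg (filter_subset _ _)
      fun _ _ _ => prod_nonneg fun _ _ => by norm_num)
    rw [mem_filter] at hS
    rw [prod_const, ← pow_add]
    calc (2 : ℝ) ^ (S.card + kk X) ≤ 2 ^ (2 * S.card) := by
          apply pow_le_pow_right₀ (by norm_num)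
          have := hS.2
          omega
      _ = 4 ^ S.card := by rw [pow_mul]; norm_num
  have h2 := wmom (SS_pr (I := I) (K := K) (X := X)) (fun _ => 4) fun _ => by norm_num
  have h4 : ∑ p ∈ PN X, (4 : ℝ) * (1 / p) ≤ 4 * eL X + 4 * C := by
    rw [← mul_sum]
    have := hC X h3
    change _ ≤ eL X + C at this
    linarith
  have h5 : wt ((SS I K X).filter fun S => kk X < S.card) * Real.exp (6 * eL X) ≤
      X * Real.exp (4 * eL X + 4 * C) := by
    calc _ ≤ wt ((SS I K X).filter fun S => kk X < S.card) * (2 : ℝ) ^ kk X :=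
          mul_le_mul_of_nonneg_left (kk_two hX) (wt_nonneg _)
      _ ≤ _ := h1.trans h2
      _ ≤ _ := mul_le_mul_of_nonneg_left (Real.exp_le_exp.2 h4) (Nat.cast_nonneg _)
  have h6 : Real.exp (4 * C) * (X * Real.exp (-2 * eL X)) * Real.exp (6 * eL X) =
      X * Real.exp (4 * eL X + 4 * C) := by
    rw [Real.exp_add]
    have : Real.exp (4 * eL X) = Real.exp (-2 * eL X) * Real.exp (6 * eL X) := by
      rw [← Real.exp_add]; congr 1; ring
    rw [this]
    ring
  rw [← h6] at h5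
  exact le_of_mul_le_mul_right h5 (Real.exp_pos _)

/-- sets near the boundary -/
theorem w_cut (I K : Finset ℕ) (h : CntP) : Sml 0 fun X => wt ((SS I K X).filter fun S =>
    S.card ≤ kk X ∧
    X < (∏ p ∈ sm (zz X) S, p) * ∏ p ∈ la (zz X) S, XX (HN X) (jj (HN X) p)) := by
  apply sml_of (C := 4) (a := 1) (by norm_num)
  have hlog : ∀ᶠ X : ℕ in atTop, Real.exp (8 * eL X) ≤ X := by
    filter_upwards [ev_eL 1, lin_le (a := 1) (b := 8) (by norm_num) (by norm_num)] with X hX h8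
    rw [one_mul] at h8
    have h1 : (0 : ℝ) < X := by exact_mod_cast X_pos (by linarith)
    rw [← Real.le_log_iff_exp_le h1, logX_eq (by linarith)]
    exact h8
  filter_upwards [ev_eL 1, lin_le (a := 1) (b := 11) (by norm_num) (by norm_num), hlog] with X hX h11 hl
  have h0 : 0 < eL X := by linarith
  have h1 := h.cut I K X (zz X) (HN X) (kk X) trivial (X_pos h0) (HN_pos h0)
  have h2 := wt_card_le (k := kk X) (F := (SS I K X).filter fun S => S.card ≤ kk X ∧
    X < (∏ p ∈ sm (zz X) S, p) * ∏ p ∈ la (zz X) S, XX (HN X) (jj (HN X) p))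
    fun S hS => (mem_filter.1 hS).2.1
  have hH := HN_ge h0
  have hHp : (0 : ℝ) < HN X := lt_of_lt_of_le (Real.exp_pos _) hH
  have hX0 : (0 : ℝ) ≤ X := Nat.cast_nonneg _
  have h3 : (X : ℝ) * kk X / HN X ≤ X * Real.exp (-8 * eL X) := by
    rw [div_le_iff₀ hHp]
    calc (X : ℝ) * kk X ≤ X * Real.exp (eL X) := by
          have := kk_le hX
          rw [one_mul] at h11
          have : (kk X : ℝ) ≤ Real.exp (eL X) := by linarith
          gcongr
      _ = X * (Real.exp (-8 * eL X) * Real.exp (9 * eL X)) := by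
          rw [← Real.exp_add]
          congr 2
          ring
      _ ≤ X * Real.exp (-8 * eL X) * HN X := by
          rw [mul_assoc]
          gcongr
  have h4 : (1 : ℝ) ≤ X * Real.exp (-8 * eL X) := by
    have e : Real.exp (8 * eL X) * Real.exp (-8 * eL X) = 1 := by
      rw [← Real.exp_add]
      have : 8 * eL X + -8 * eL X = 0 := by ring
      rw [this, Real.exp_zero]
    calc (1 : ℝ) = Real.exp (8 * eL X) * Real.exp (-8 * eL X) := e.symm
      _ ≤ X * Real.exp (-8 * eL X) := mul_le_mul_of_nonneg_right hl (Real.exp_pos _).le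
  calc _ ≤ _ := h2
    _ ≤ (2 * Real.exp (7 * eL X)) * (2 * (X * Real.exp (-8 * eL X))) := by
        refine mul_le_mul (two_kk hX) (h1.trans (by linarith)) (Nat.cast_nonneg _) (by positivity)
    _ = 4 * (X * (Real.exp (7 * eL X) * Real.exp (-8 * eL X))) := by ring
    _ = 4 * (X * Real.exp (-1 * eL X)) := by
        rw [← Real.exp_add]
        congr 3
        ring

/-- sets with two primes in one block -/
theorem w_coll (I K : Finset ℕ) (h : CntP) : Sml 0 fun X => wt ((SS I K X).filter fun S =>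
    S.card ≤ kk X ∧ ¬ Set.InjOn (jj (HN X)) (la (zz X) S : Set ℕ)) := by
  apply sml_of (C := 16) (a := 1) (by norm_num)
  filter_upwards [ev_eL 1] with X hX
  have h0 : 0 < eL X := by linarith
  have h1 := h.coll I K X (zz X) (HN X) trivial (X_pos h0) (HN_pos h0)
  have h2 := wt_card_le (k := kk X) (F := (SS I K X).filter fun S => S.card ≤ kk X ∧
    ¬ Set.InjOn (jj (HN X)) (la (zz X) S : Set ℕ)) fun S hS => (mem_filter.1 hS).2.1
  have h3 : (((SS I K X).filter fun S => S.card ≤ kk X ∧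
      ¬ Set.InjOn (jj (HN X)) (la (zz X) S : Set ℕ)).card : ℝ) ≤ (((SS I K X).filter fun S =>
      ¬ Set.InjOn (jj (HN X)) (la (zz X) S : Set ℕ)).card : ℝ) := by
    have : (SS I K X).filter (fun S => S.card ≤ kk X ∧
        ¬ Set.InjOn (jj (HN X)) (la (zz X) S : Set ℕ)) ⊆ (SS I K X).filter fun S =>
        ¬ Set.InjOn (jj (HN X)) (la (zz X) S : Set ℕ) := by
      intro S hS
      rw [mem_filter] at hS ⊢
      exact ⟨hS.1, hS.2.2⟩
    exact_mod_cast card_le_card this
  have hH := HN_ge h0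
  have hHp : (0 : ℝ) < HN X := lt_of_lt_of_le (Real.exp_pos _) hH
  have hX0 : (0 : ℝ) ≤ X := Nat.cast_nonneg _
  have h4 : 4 * (X : ℝ) * (1 + Real.log X) / HN X ≤ 8 * (X * Real.exp (-8 * eL X)) := by
    rw [div_le_iff₀ hHp]
    calc 4 * (X : ℝ) * (1 + Real.log X) ≤ 4 * X * (2 * Real.exp (eL X)) := by
          have := one_add_log h0
          gcongr
      _ = 8 * (X * (Real.exp (-8 * eL X) * Real.exp (9 * eL X))) := by
          rw [← Real.exp_add]
          have : -8 * eL X + 9 * eL X = eL X := by ring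
          rw [this]
          ring
      _ ≤ 8 * (X * (Real.exp (-8 * eL X) * HN X)) := by gcongr
      _ = 8 * (X * Real.exp (-8 * eL X)) * HN X := by ring
  calc _ ≤ _ := h2
    _ ≤ (2 * Real.exp (7 * eL X)) * (8 * (X * Real.exp (-8 * eL X))) := by
        refine mul_le_mul (two_kk hX) (h3.trans (h1.trans h4)) (Nat.cast_nonneg _) (by positivity)
    _ = 16 * (X * (Real.exp (7 * eL X) * Real.exp (-8 * eL X))) := by ring
    _ = 16 * (X * Real.exp (-1 * eL X)) := by
        rw [← Real.exp_add]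
        congr 3
        ring

/-- sets with many small primes -/
theorem w_small (I K : Finset ℕ) {a : ℝ} (ha : 0 < a) : Sml 0 fun X =>
    wt ((SS I K X).filter fun S => a * eL X < ((sm (zz X) S).card : ℝ)) := by
  obtain ⟨C, hC0, hC⟩ := mert
  set κ : ℝ := Real.exp (4 / a) with hκ
  have κ0 : 0 < κ := Real.exp_pos _
  apply sml_of (C := Real.exp (2 * C + 2 * κ * C)) (a := 1) (by norm_num)
  filter_upwards [eL_tendsto.eventually (log_small (6 * κ) 1 (by norm_num)),
    ev_eL 2, eventually_ge_atTop 3] with X h1 h2 h3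
  set g : ℕ → ℝ := fun p => 2 * (if p ≤ zz X then κ else 1) with hg
  have hg0 : ∀ p, 0 ≤ g p := fun p => by
    simp only [hg]
    split_ifs <;> positivity
  have h6 : wt ((SS I K X).filter fun S => a * eL X < ((sm (zz X) S).card : ℝ)) *
      Real.exp (4 * eL X) ≤ ∑ S ∈ SS I K X, ∏ p ∈ S, g p := by
    unfold wt
    rw [sum_mul]
    refine le_trans (sum_le_sum (g := fun S => ∏ p ∈ S, g p) fun S hS => ?_)
      (sum_le_sum_of_subset_of_nonneg (filter_subset _ _)
      fun _ _ _ => prod_nonneg fun p _ => hg0 p)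
    rw [mem_filter] at hS
    have e1 : ∏ p ∈ S, g p = 2 ^ S.card * κ ^ (sm (zz X) S).card := by
      simp only [hg]
      rw [prod_mul_distrib, prod_const, ← prod_filter, prod_const]
      rfl
    show (2 : ℝ) ^ S.card * Real.exp (4 * eL X) ≤ ∏ p ∈ S, g p
    rw [e1]
    refine mul_le_mul_of_nonneg_left ?_ (by positivity)
    rw [hκ, ← Real.exp_nat_mul]
    apply Real.exp_le_exp.2
    have h7 := hS.2
    rw [mul_div_assoc', le_div_iff₀ ha]
    linarith
  have h7 := wmom (SS_pr (I := I) (K := K) (X := X)) g hg0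
  have h8 : ∑ p ∈ PN X, g p * (1 / p) ≤ 2 * (eL X + C) + 2 * κ * (3 * Real.log (eL X) + C) := by
    have e1 : ∀ p ∈ PN X, g p * (1 / p) ≤ 2 * ((1 : ℝ) / p) +
        2 * κ * (if p ≤ zz X then (1 : ℝ) / p else 0) := by
      intro p _
      have hp0 : (0 : ℝ) ≤ 1 / p := by positivity
      simp only [hg]
      split_ifs
      · nlinarith
      · linarith
    refine (sum_le_sum e1).trans ?_
    rw [sum_add_distrib, ← mul_sum, ← mul_sum, ← sum_filter]
    have e2 : ∑ p ∈ (PN X).filter (fun p => p ≤ zz X), (1 : ℝ) / p ≤ ∑ p ∈ PN (zz X), (1 : ℝ) / p := by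
      refine sum_le_sum_of_subset_of_nonneg ?_ fun p _ _ => by positivity
      intro p hp
      rw [mem_filter, mem_filter, mem_Icc] at hp
      rw [mem_filter, mem_Icc]
      exact ⟨⟨hp.1.1.1, hp.2⟩, hp.1.2⟩
    have e3 := hC X h3
    change _ ≤ eL X + C at e3
    have e4 := hC (zz X) (zz_ge h2)
    have e5 := loglog_zz h2
    have e6 : ∑ p ∈ (PN X).filter (fun p => p ≤ zz X), (1 : ℝ) / p ≤ 3 * Real.log (eL X) + C := by
      linarith
    have e7 := mul_le_mul_of_nonneg_left e6 (show 0 ≤ 2 * κ by positivity)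
    linarith
  have h9 : ∑ p ∈ PN X, g p * (1 / p) ≤ 2 * C + 2 * κ * C + 3 * eL X := by
    linarith
  have h10 := h6.trans (h7.trans (mul_le_mul_of_nonneg_left (Real.exp_le_exp.2 h9)
    (Nat.cast_nonneg X)))
  have h11 : Real.exp (2 * C + 2 * κ * C) * (X * Real.exp (-1 * eL X)) * Real.exp (4 * eL X) =
      X * Real.exp (2 * C + 2 * κ * C + 3 * eL X) := by
    rw [Real.exp_add (2 * C + 2 * κ * C) (3 * eL X)]
    have : Real.exp (3 * eL X) = Real.exp (-1 * eL X) * Real.exp (4 * eL X) := by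
      rw [← Real.exp_add]
      congr 1
      ring
    rw [this]
    ring
  rw [← h11] at h10
  exact le_of_mul_le_mul_right h10 (Real.exp_pos _)

/-- families closed under subsets -/
theorem w_LL (hs : S_SIE) {I : Finset ℕ} {Q : ℕ → Finset ℕ → Prop}
    (hQ : ∀ X S, Q X S → ∀ T, T ⊆ S → Q X T) {C ρ : ℝ} (hρ : ρ < 1 / 2)
    (h : ∀ᶠ X : ℕ in atTop, ∑ S ∈ LL I X (Q X), (1 : ℝ) / ((∏ p ∈ S, p : ℕ) : ℝ) ≤
      C * Real.exp (ρ * eL X)) : Sml 0 fun X => wt (LL I X (Q X)) := by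
  obtain ⟨C', hC'1, hC'⟩ := wsie hs
  apply sml_of (C := C' * C ^ 2) (a := 1 - 2 * ρ) (by linarith)
  filter_upwards [h, ev_eL 2, eventually_ge_atTop 4] with X h1 h2 h3
  have h4 := hC' X (LL I X (Q X)) h3
    (fun S hS => ⟨fun p hp => pr ((mem_LL.1 hS).2.1 p hp), (mem_LL.1 hS).2.2.1⟩)
    (fun S hS T hT => LL_sub (hQ X) hS hT)
  rw [logX_eq (by linarith)] at h4
  have h5 : 0 ≤ ∑ S ∈ LL I X (Q X), (1 : ℝ) / ((∏ p ∈ S, p : ℕ) : ℝ) :=
    sum_nonneg fun _ _ => by positivity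
  have h6 := pow_le_pow_left₀ h5 h1 2
  have h7 : wt (LL I X (Q X)) * Real.exp (eL X) ≤ C' * X * (C * Real.exp (ρ * eL X)) ^ 2 :=
    h4.trans (mul_le_mul_of_nonneg_left h6 (by positivity))
  have h8 : C' * C ^ 2 * (X * Real.exp (-(1 - 2 * ρ) * eL X)) * Real.exp (eL X) =
      C' * X * (C * Real.exp (ρ * eL X)) ^ 2 := by
    rw [mul_pow, ← Real.exp_nat_mul]
    have : Real.exp (((2 : ℕ) : ℝ) * (ρ * eL X)) =
        Real.exp (-(1 - 2 * ρ) * eL X) * Real.exp (eL X) := by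
      rw [← Real.exp_add]
      congr 1
      push_cast
      ring
    rw [this]
    ring
  rw [← h8] at h7
  exact le_of_mul_le_mul_right h7 (Real.exp_pos _)

/-- the logarithmic density of a family (after `FEW.part2`) -/
theorem part2L (hm : S_MER) {I : Finset ℕ} (s t e : ℝ) (hs0 : 0 ≤ s)
    (ht0 : 0 ≤ t) (Q : ℕ → Finset ℕ → Prop)
    (w : ℕ → ℕ → ℝ) (hw : ∀ X p, 0 ≤ w X p) (hz : ∀ X p, p ≤ zz X → w X p ≤ 1)
    (hS : ∀ X p, Sp p → zz X < p → w X p ≤ s) (hN : ∀ X p, In I p → zz X < p → w X p ≤ t)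
    (h1w : ∀ X, 2 ≤ eL X → ∀ S ∈ LL I X (Q X), 1 ≤ Real.exp (e * eL X) * ∏ p ∈ S, w X p)
    {r : ℝ} (hr : e + s / 4 + t / 4 < r) :
    ∃ C : ℝ, 0 ≤ C ∧ ∀ᶠ X : ℕ in atTop,
    ∑ S ∈ LL I X (Q X), (1 : ℝ) / ((∏ p ∈ S, p : ℕ) : ℝ) ≤ C * Real.exp (r * eL X) := by
  obtain ⟨C, hC0, hC⟩ := mert
  obtain ⟨C₁, hC₁0, hC₁⟩ := mer_S hm
  obtain ⟨C₂, hC₂0, hC₂⟩ := mer_I hm I
  refine ⟨Real.exp (C + s * C₁ + t * C₂), by positivity, ?_⟩
  have hε : 0 < r - (e + s / 4 + t / 4) := by linarith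
  filter_upwards [eL_tendsto.eventually (log_small 3 _ hε),
    eL_tendsto.eventually (eventually_ge_atTop 2), eventually_ge_atTop 3] with X h1 h2 h3
  set l := eL X with hl
  have h4 := hC (zz X) (zz_ge h2)
  have h5 := loglog_zz h2
  have h6 := hC₁ X h3
  have h6' := hC₂ X h3
  rw [← hl] at h5
  change _ ≤ 1 / 4 * l + C₁ at h6
  change _ ≤ 1 / 4 * l + C₂ at h6'
  have h8 := LL_sum I X (zz X) (Q X) (w X) (Real.exp (e * l)) s t (hw X) (Real.exp_pos _).le
    hs0 ht0 (h1w X h2) (hz X) (hS X) (hN X)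
  have h9 : s * ∑ p ∈ (PN X).filter Sp, (1 : ℝ) / p ≤ s * (1 / 4 * l + C₁) :=
    mul_le_mul_of_nonneg_left h6 hs0
  have h10 : t * ∑ p ∈ (PN X).filter (In I), (1 : ℝ) / p ≤ t * (1 / 4 * l + C₂) :=
    mul_le_mul_of_nonneg_left h6' ht0
  refine h8.trans ?_
  rw [← Real.exp_add, ← Real.exp_add]
  apply Real.exp_le_exp.2
  have e1 : ∑ p ∈ PN (zz X), (1 : ℝ) / p ≤ 3 * Real.log l + C := by linarith
  calc e * l + (∑ p ∈ PN (zz X), (1 : ℝ) / p + s * ∑ p ∈ (PN X).filter Sp, (1 : ℝ) / p +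
      t * ∑ p ∈ (PN X).filter (In I), (1 : ℝ) / p)
      ≤ e * l + ((r - (e + s / 4 + t / 4)) * l + C +
        s * (1 / 4 * l + C₁) + t * (1 / 4 * l + C₂)) := by linarith
    _ = C + s * C₁ + t * C₂ + r * l := by ring

/-- sets whose large primes are split -/
theorem w_split (hs : S_SIE) (hm : S_MER) (I : Finset ℕ) :
    Sml 0 fun X => wt (LL I X fun S => ∀ p ∈ la (zz X) S, SQ.mk p = 1) := by
  have hcl : ∀ (X : ℕ) (S : Finset ℕ), (∀ p ∈ la (zz X) S, SQ.mk p = 1) → ∀ T, T ⊆ S →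
      ∀ p ∈ la (zz X) T, SQ.mk p = 1 := by
    intro X S h T hT p hp
    refine h p ?_
    unfold la at hp ⊢
    rw [mem_filter] at hp ⊢
    exact ⟨hT hp.1, hp.2⟩
  obtain ⟨C, hC0, hC⟩ := part2L hm (I := I) 1 0 0 zero_le_one le_rfl
    (fun X S => ∀ p ∈ la (zz X) S, SQ.mk p = 1)
    (fun X p => if ¬ p ≤ zz X ∧ SQ.mk p ≠ 1 then 0 else 1)
    (fun X p => by split_ifs <;> norm_num) (fun X p _ => by split_ifs <;> norm_num)
    (fun X p _ _ => by split_ifs <;> norm_num)
    (fun X p h h' => by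
      have h8 : SQ.mk p ≠ 1 := h.2.1
      rw [if_pos ⟨not_le.2 h', h8⟩])
    (fun X _ S hS => by
      rw [mem_LL] at hS
      rw [zero_mul, Real.exp_zero, one_mul]
      refine le_of_eq (Eq.symm (prod_eq_one fun p hp => ?_))
      rw [if_neg]
      rintro ⟨h1, h2⟩
      exact h2 (hS.2.2.2 p (mem_filter.2 ⟨hp, h1⟩)))
    (r := 3 / 8) (by norm_num)
  exact w_LL hs hcl (by norm_num) hC

/-- sets with few large split primes -/
theorem w_few4 (hs : S_SIE) (hm : S_MER) (I : Finset ℕ) : Sml 0 fun X => wt (LL I X fun S =>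
    ((la (zz X) S).filter fun p => SQ.mk p = 1).card ≤ ⌊eL X / 32⌋₊) := by
  have hcl : ∀ (X : ℕ) (S : Finset ℕ), ((la (zz X) S).filter fun p => SQ.mk p = 1).card ≤ ⌊eL X / 32⌋₊ →
      ∀ T, T ⊆ S → ((la (zz X) T).filter fun p => SQ.mk p = 1).card ≤ ⌊eL X / 32⌋₊ := by
    intro X S h T hT
    refine (card_le_card (filter_subset_filter _ ?_)).trans h
    unfold la
    exact filter_subset_filter _ hT
  have hl4 : Real.log 4 / 32 < 1 / 16 := by
    have h1 : (4 : ℝ) = 2 ^ 2 := by norm_num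
    rw [h1, Real.log_pow]
    have := Real.log_two_lt_d9
    push_cast
    linarith
  obtain ⟨C, hC0, hC⟩ := part2L hm (I := I) (1 / 4) 1 (Real.log 4 / 32) (by norm_num) zero_le_one
    (fun X S => ((la (zz X) S).filter fun p => SQ.mk p = 1).card ≤ ⌊eL X / 32⌋₊)
    (fun X p => if ¬ p ≤ zz X ∧ SQ.mk p = 1 then 1 / 4 else 1)
    (fun X p => by split_ifs <;> norm_num) (fun X p _ => by split_ifs <;> norm_num)
    (fun X p h h' => by rw [if_pos ⟨not_le.2 h', h.2.1⟩])
    (fun X p _ _ => by split_ifs <;> norm_num)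
    (fun X hX S hS => by
      rw [mem_LL] at hS
      rw [← prod_filter, prod_const]
      have h1 : (S.filter fun p => ¬ p ≤ zz X ∧ SQ.mk p = 1).card ≤ ⌊eL X / 32⌋₊ := by
        refine (card_le_card ?_).trans hS.2.2.2
        intro p hp
        rw [mem_filter] at hp
        unfold la
        rw [mem_filter, mem_filter]
        exact ⟨⟨hp.1, hp.2.1⟩, hp.2.2⟩
      have h2 : (1 / 4 : ℝ) ^ ⌊eL X / 32⌋₊ ≤
          (1 / 4 : ℝ) ^ (S.filter fun p => ¬ p ≤ zz X ∧ SQ.mk p = 1).card :=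
        pow_le_pow_of_le_one (by norm_num) (by norm_num) h1
      have h3 : Real.exp (-(Real.log 4 / 32 * eL X)) ≤ (1 / 4 : ℝ) ^ ⌊eL X / 32⌋₊ := by
        have e1 : (1 / 4 : ℝ) = Real.exp (-Real.log 4) := by
          rw [Real.exp_neg, Real.exp_log (by norm_num)]
          norm_num
        rw [e1, ← Real.exp_nat_mul]
        apply Real.exp_le_exp.2
        have e2 : ((⌊eL X / 32⌋₊ : ℕ) : ℝ) ≤ eL X / 32 := Nat.floor_le (by linarith)
        have e4 : 0 ≤ Real.log 4 := Real.log_nonneg (by norm_num)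
        have e5 := mul_le_mul_of_nonneg_right e2 e4
        linarith
      calc (1 : ℝ) = Real.exp (Real.log 4 / 32 * eL X) *
            Real.exp (-(Real.log 4 / 32 * eL X)) := by
            rw [← Real.exp_add, add_neg_cancel, Real.exp_zero]
        _ ≤ _ := mul_le_mul_of_nonneg_left (h3.trans h2) (Real.exp_pos _).le)
    (r := 7 / 16) (by linarith)
  exact w_LL hs hcl (by norm_num) hC

/-- few sets have few large split primes or no large inert prime -/
theorem w_few (hs : S_SIE) (hm : S_MER) (I K : Finset ℕ) (V : ℕ) : Sml 0 fun X =>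
    wt ((SS I K X).filter fun S => ((la (zz X) S).filter fun p => SQ.mk p = 1).card ≤
      2 * (sm (zz X) S).card + V ∨ ∀ p ∈ la (zz X) S, SQ.mk p = 1) := by
  refine sml_mono ?_ (sml_add (w_small I K (a := 1 / 80) (by norm_num))
    (sml_add (w_split hs hm I) (w_few4 hs hm I)))
  filter_upwards [ev_eL (max 2 (160 * (V : ℝ)))] with X h8
  have h9 : 2 ≤ eL X := (le_max_left _ _).trans h8
  have h10 : 160 * (V : ℝ) ≤ eL X := (le_max_right _ _).trans h8
  have h11 : ((SS I K X).filter fun S => ((la (zz X) S).filter fun p => SQ.mk p = 1).card ≤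
      2 * (sm (zz X) S).card + V ∨ ∀ p ∈ la (zz X) S, SQ.mk p = 1) ⊆
      ((SS I K X).filter fun S => 1 / 80 * eL X < ((sm (zz X) S).card : ℝ)) ∪
        (LL I X (fun S => ∀ p ∈ la (zz X) S, SQ.mk p = 1) ∪
        LL I X fun S => ((la (zz X) S).filter fun p => SQ.mk p = 1).card ≤ ⌊eL X / 32⌋₊) := by
    intro S hS
    rw [mem_filter] at hS
    rw [mem_union, mem_union, mem_filter]
    rcases hS.2 with h | h
    · by_cases hc : 1 / 80 * eL X < ((sm (zz X) S).card : ℝ)
      · exact Or.inl ⟨hS.1, hc⟩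
      · right
        right
        rw [not_lt] at hc
        refine mem_LL_of hS.1 ?_
        apply Nat.le_floor
        have h12 : ((((la (zz X) S).filter fun p => SQ.mk p = 1).card : ℕ) : ℝ) ≤
            2 * ((sm (zz X) S).card : ℝ) + V := by exact_mod_cast h
        linarith
    · exact Or.inr (Or.inl (mem_LL_of hS.1 h))
  exact (wt_mono h11).trans ((wt_union _ _).trans (add_le_add le_rfl (wt_union _ _)))

/-- sets with few large primes with `d p ≠ 0` (after `SM.part4`) -/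
theorem w_QQ (hs : S_SIE) (hm : S_MER) {d : ℕ → ZMod 2} {β C₃ : ℝ} (hβ : 0 < β)
    (hC₃ : ∀ y : ℕ, 3 ≤ y →
      β * Real.log (Real.log y) - C₃ ≤ ∑ p ∈ (PN y).filter (BB d), (1 : ℝ) / p)
    (I : Finset ℕ) : Sml 0 fun X => wt (LL I X (QQ d (β / 4) X)) := by
  obtain ⟨C, hC0, hC⟩ := mert
  obtain ⟨C₁, hC₁0, hC₁⟩ := mer_S hm
  obtain ⟨C₂, hC₂0, hC₂⟩ := mer_I hm I
  have hl4 : Real.log 4 * (β / 4) < 3 / 4 * β - β / 8 := by
    have h1 : (4 : ℝ) = 2 ^ 2 := by norm_num
    have h2 : Real.log 4 < 1.4 := by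
      rw [h1, Real.log_pow]
      have := Real.log_two_lt_d9
      push_cast
      linarith
    nlinarith
  refine w_LL hs (Q := QQ d (β / 4)) (fun X => QQ_sub) (C := Real.exp (C + C₁ + C₂ + |C₃|))
    (ρ := 1 / 2 - β / 8) (by linarith) ?_
  set η : ℝ := 3 / 4 * β - β / 8 - Real.log 4 * (β / 4) with hη
  have hε : 0 < η := by linarith
  filter_upwards [eL_tendsto.eventually (log_small 3 _ hε),
    eL_tendsto.eventually (eventually_ge_atTop 2), eventually_ge_atTop 3] with X h1 h2 h3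
  set l := eL X with hl
  have h4 := hC (zz X) (zz_ge h2)
  have h5 := loglog_zz h2
  have h6 := hC₁ X h3
  have h6' := hC₂ X h3
  have h6'' := hC₃ X h3
  rw [← hl] at h5
  change _ ≤ 1 / 4 * l + C₁ at h6
  change _ ≤ 1 / 4 * l + C₂ at h6'
  change β * l - C₃ ≤ _ at h6''
  have hC3a := le_abs_self C₃
  have hC3b := abs_nonneg C₃
  have h1w : ∀ S ∈ LL I X (QQ d (β / 4) X), 1 ≤ Real.exp (Real.log 4 * (β / 4) * l) *
      ∏ p ∈ S, (if ¬ p ≤ zz X ∧ (SQ.mk p = 1 ∧ d p ≠ 0) then (1 / 4 : ℝ) else 1) := by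
    intro S hS
    rw [mem_LL] at hS
    rw [← prod_filter, prod_const]
    have g1 : (S.filter fun p => ¬ p ≤ zz X ∧ (SQ.mk p = 1 ∧ d p ≠ 0)).card ≤
        ⌊β / 4 * l⌋₊ := by
      refine (card_le_card ?_).trans hS.2.2.2
      intro p hp
      rw [mem_filter] at hp
      unfold la
      rw [mem_filter, mem_filter]
      exact ⟨⟨hp.1, hp.2.1⟩, hp.2.2⟩
    have g2 : (1 / 4 : ℝ) ^ ⌊β / 4 * l⌋₊ ≤ (1 / 4 : ℝ) ^
        (S.filter fun p => ¬ p ≤ zz X ∧ (SQ.mk p = 1 ∧ d p ≠ 0)).card :=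
      pow_le_pow_of_le_one (by norm_num) (by norm_num) g1
    have g3 : Real.exp (-(Real.log 4 * (β / 4) * l)) ≤ (1 / 4 : ℝ) ^ ⌊β / 4 * l⌋₊ := by
      have e1 : (1 / 4 : ℝ) = Real.exp (-Real.log 4) := by
        rw [Real.exp_neg, Real.exp_log (by norm_num)]
        norm_num
      rw [e1, ← Real.exp_nat_mul]
      apply Real.exp_le_exp.2
      have e2 : ((⌊β / 4 * l⌋₊ : ℕ) : ℝ) ≤ β / 4 * l := Nat.floor_le (by
        have : 0 ≤ l := by linarith
        positivity)
      have e4 : 0 ≤ Real.log 4 := Real.log_nonneg (by norm_num)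
      have e5 := mul_le_mul_of_nonneg_right e2 e4
      linarith
    calc (1 : ℝ) = Real.exp (Real.log 4 * (β / 4) * l) * Real.exp (-(Real.log 4 * (β / 4) * l)) := by
          rw [← Real.exp_add, add_neg_cancel, Real.exp_zero]
      _ ≤ _ := mul_le_mul_of_nonneg_left (g3.trans g2) (Real.exp_pos _).le
  have h8 := LLB_sum I d X (zz X) (QQ d (β / 4) X)
    (fun p => if ¬ p ≤ zz X ∧ (SQ.mk p = 1 ∧ d p ≠ 0) then (1 / 4 : ℝ) else 1)
    (Real.exp (Real.log 4 * (β / 4) * l))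
    (fun p => by split_ifs <;> norm_num) (Real.exp_pos _).le h1w
    (fun p => by split_ifs <;> norm_num)
    (fun p hb hz => by
      rw [if_pos ⟨not_le.2 hz, hb.1.2.1, hb.2⟩])
  refine h8.trans ?_
  rw [← Real.exp_add, ← Real.exp_add]
  apply Real.exp_le_exp.2
  have e1 : ∑ p ∈ PN (zz X), (1 : ℝ) / p ≤ 3 * Real.log l + C := by linarith
  have e3 : η * l = (3 / 4 * β - β / 8) * l - Real.log 4 * (β / 4) * l := by rw [hη]; ring
  linarith

/-- few sets have few large primes with `d p ≠ 0` -/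
theorem w_fewF (hs : S_SIE) (hm : S_MER) {d : ℕ → ZMod 2} (hd : Pos d) (I K : Finset ℕ) (R : ℕ) :
    Sml 0 fun X => wt ((SS I K X).filter fun S => ((la (zz X) S).filter fun p => SQ.mk p = 1 ∧
      d p ≠ 0).card < 2 * (sm (zz X) S).card + R) := by
  obtain ⟨β, B₀, hβ, hC₀⟩ := hd
  refine sml_mono ?_ (sml_add (w_small I K (a := β / 16) (by positivity))
    (w_QQ hs hm hβ hC₀ I))
  filter_upwards [ev_eL (max 2 (8 * (R : ℝ) / β))] with X h8
  have h9 : 2 ≤ eL X := (le_max_left _ _).trans h8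
  have h10 : 8 * (R : ℝ) ≤ eL X * β := (div_le_iff₀ hβ).1 ((le_max_right _ _).trans h8)
  have h11 : ((SS I K X).filter fun S => ((la (zz X) S).filter fun p => SQ.mk p = 1 ∧
      d p ≠ 0).card < 2 * (sm (zz X) S).card + R) ⊆
      ((SS I K X).filter fun S => β / 16 * eL X < ((sm (zz X) S).card : ℝ)) ∪
        LL I X (QQ d (β / 4) X) := by
    intro S hS
    rw [mem_filter] at hS
    rw [mem_union, mem_filter]
    by_cases hc : β / 16 * eL X < ((sm (zz X) S).card : ℝ)
    · exact Or.inl ⟨hS.1, hc⟩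
    · right
      rw [not_lt] at hc
      refine mem_LL_of hS.1 ?_
      apply Nat.le_floor
      have h12 : ((((la (zz X) S).filter fun p => SQ.mk p = 1 ∧
          d p ≠ 0).card : ℕ) : ℝ) ≤ 2 * ((sm (zz X) S).card : ℝ) + R := by
        exact_mod_cast hS.2.le
      linarith
  exact (wt_mono h11).trans (wt_union _ _)

end Run7.h428.W
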