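import Pool.Agent.Run7.h428.WBad
import Pool.Agent.Run7.h428.WC
import Pool.Agent.R413.SM.L8

/-!
# The joint law with the weights `2 ^ ω(D)`

After `R413/SM/S4`, `R413/SM/L8` of the starting tree (helper413, after helper494, helper687,
helper703), which treat the numbers without the weights.
-/

set_option autoImplicit false

open scoped Classical

namespace Run7.h428.W

open Finset Filter Topology
open Pool.Agent.Y703.CX (sm la jj XX eL zz kk S_SIE logX_eq rpow_eL ev_eL one_le_exp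
  kk_ge kk_le X_pos one_add_log lin_le kap zz_pos kap_nonneg kap_pow kap_le)
open Pool.Agent.Y703.CQ (nr S_MER S_EQ S_C2 c2 S_CHE)
open Pool.Agent.Y687.JQ (S_JLA)
open Pool.Agent.R413
open Pool.Agent.R413.SQ
open Pool.Agent.R413.SQ.SM (GdF NdF Pos dd prF fewF out_subF Fa di sml_sum)

/-- the main error term -/
theorem sml_mainW (M : ℕ) {C : ℝ} (hC : 1 ≤ C) :
    Sml 0 fun X => 2 ^ kk X * ((9 * (NW X : ℝ) + 9) ^ kk X *
    (3 ^ ((6 + M) * kk X ^ 2) * kap C X) * (X * (1 + Real.log X))) := by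
  have hM0 : (0 : ℝ) ≤ M := Nat.cast_nonneg M
  apply sml_of (C := 8 * C) (a := 1) (by norm_num)
  filter_upwards [ev_eL (13000 + 1800 * M)] with X hX
  set l := eL X with hl
  have h0 : 0 < eL X := by linarith
  have h1 : 1 ≤ eL X := by linarith
  have hX0 : (0 : ℝ) ≤ X := Nat.cast_nonneg _
  have hN : 9 * (NW X : ℝ) + 9 ≤ Real.exp (11 * l) := by
    have h2 : (NW X : ℝ) ≤ HN X * Real.log X + 1 := by
      unfold NW
      push_cast
      have := Nat.floor_le (a := (HN X : ℝ) * Real.log X)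
        (mul_nonneg (Nat.cast_nonneg _) (Real.log_natCast_nonneg X))
      linarith
    have h3 : (HN X : ℝ) * Real.log X ≤ 2 * Real.exp (10 * l) := by
      rw [logX_eq h0]
      calc (HN X : ℝ) * Real.exp (eL X) ≤ 2 * Real.exp (9 * eL X) * Real.exp (eL X) :=
            mul_le_mul_of_nonneg_right (HN_le h0) (Real.exp_pos _).le
        _ = 2 * Real.exp (10 * l) := by
            rw [mul_assoc, ← Real.exp_add]
            congr 2
            rw [hl]
            ring
    have h4 : 1 ≤ Real.exp (10 * l) := one_le_exp (by linarith)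
    have h5 : (36 : ℝ) ≤ Real.exp l := by
      have := Real.add_one_le_exp l
      linarith
    have h6 : Real.exp (11 * l) = Real.exp (10 * l) * Real.exp l := by
      rw [← Real.exp_add]; congr 1; ring
    rw [h6]
    nlinarith
  have hkk := kk_le h1
  have hkk0 : (0 : ℝ) ≤ kk X := Nat.cast_nonneg _
  have hA : (9 * (NW X : ℝ) + 9) ^ kk X ≤ Real.exp (121 * l ^ 2) := by
    calc (9 * (NW X : ℝ) + 9) ^ kk X ≤ (Real.exp (11 * l)) ^ kk X := by gcongr
      _ = Real.exp (kk X * (11 * l)) := (Real.exp_nat_mul _ _).symm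
      _ ≤ Real.exp (121 * l ^ 2) := by
          apply Real.exp_le_exp.2
          nlinarith
  have hB : (3 : ℝ) ^ ((6 + M) * kk X ^ 2) ≤ Real.exp ((800 + 140 * M) * l ^ 2) := by
    have e : (3 : ℝ) ^ ((6 + M) * kk X ^ 2) =
        Real.exp (((6 + M) * (kk X : ℝ) ^ 2) * Real.log 3) := by
      rw [mul_comm ((6 + M) * (kk X : ℝ) ^ 2) (Real.log 3), Real.exp_mul, Real.exp_log (by norm_num)]
      rw [← Real.rpow_natCast]
      congr 1
      push_cast
      ring
    rw [e]
    apply Real.exp_le_exp.2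
    have h2 : Real.log 3 ≤ 1.1 := by
      have h3 : (3 : ℝ) ≤ Real.exp 1.1 := by
        have h4 : (2.7182818283 : ℝ) < Real.exp 1 := Real.exp_one_gt_d9
        have h5 : (1.105 : ℝ) ≤ Real.exp 0.1 := by
          have := Real.quadratic_le_exp_of_nonneg (x := 0.1) (by norm_num)
          norm_num at this ⊢
          linarith
        have h6 : Real.exp 1.1 = Real.exp 1 * Real.exp 0.1 := by
          rw [← Real.exp_add]; norm_num
        rw [h6]
        nlinarith
      calc Real.log 3 ≤ Real.log (Real.exp 1.1) := Real.log_le_log (by norm_num) h3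
        _ = 1.1 := Real.log_exp _
    have h3 : (kk X : ℝ) ^ 2 ≤ 121 * l ^ 2 := by nlinarith
    have h4 : 0 ≤ (kk X : ℝ) ^ 2 := sq_nonneg _
    have h5 : (6 + (M : ℝ)) * (kk X : ℝ) ^ 2 * Real.log 3 ≤ (6 + (M : ℝ)) * (121 * l ^ 2) * 1.1 := by
      have h6 : 0 ≤ Real.log 3 := Real.log_nonneg (by norm_num)
      gcongr
    refine h5.trans ?_
    have h6 : 0 ≤ (M : ℝ) * l ^ 2 := by positivity
    nlinarith [sq_nonneg l]
  have hK := kap_le hC h1
  have hLg := one_add_log h0
  have h2k := two_kk h1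
  have hmain : (2 : ℝ) ^ kk X * ((9 * (NW X : ℝ) + 9) ^ kk X *
      (3 ^ ((6 + M) * kk X ^ 2) * kap C X) *
      (X * (1 + Real.log X))) ≤ (2 * Real.exp (7 * l)) * (Real.exp (121 * l ^ 2) *
        (Real.exp ((800 + 140 * M) * l ^ 2) *
        (2 * C * Real.exp (-l ^ 3 / 12))) * (X * (2 * Real.exp l))) := by
    have := kap_nonneg hC X
    have : 0 ≤ 1 + Real.log X := by
      have := Real.log_natCast_nonneg X
      linarith
    gcongr
  refine hmain.trans ?_
  have e : (2 * Real.exp (7 * l)) * (Real.exp (121 * l ^ 2) * (Real.exp ((800 + 140 * M) * l ^ 2) *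
        (2 * C * Real.exp (-l ^ 3 / 12))) * (X * (2 * Real.exp l))) =
      8 * C * (X * Real.exp (7 * l + (121 * l ^ 2 + (800 + 140 * M) * l ^ 2 + -l ^ 3 / 12 + l))) := by
    rw [Real.exp_add, Real.exp_add, Real.exp_add, Real.exp_add]
    ring
  rw [e]
  have h9 : 7 * l + (121 * l ^ 2 + (800 + 140 * M) * l ^ 2 + -l ^ 3 / 12 + l) ≤ -1 * l := by
    have h10 : (13000 + 1800 * M) * l ^ 2 ≤ l ^ 3 := by
      have : l ^ 3 = l * l ^ 2 := by ring
      rw [this]
      exact mul_le_mul_of_nonneg_right hX (sq_nonneg l)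
    have h11 : 0 ≤ (M : ℝ) * l ^ 2 := by positivity
    nlinarith
  have h11 := Real.exp_le_exp.2 h9
  have hC0 : (0 : ℝ) ≤ 8 * C := by linarith
  gcongr

/-- the comparison -/
theorem cmpW {g : Finset ℕ → ℝ} (hg : ∀ S, 0 ≤ g S) (P : Finset ℕ → Prop)
    {T S : Finset (Finset ℕ)} (h : T ⊆ S) {p : ℝ} (hp0 : 0 ≤ p)
    (hp1 : p ≤ 1) : |wg g (S.filter P) - p * wg g S| ≤
      |wg g (T.filter P) - p * wg g T| + wg g (S \ T) := by
  have e1 : wg g S = wg g T + wg g (S \ T) := by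
    unfold wg
    rw [add_comm, sum_sdiff h]
  have e2 : wg g (S.filter P) = wg g (T.filter P) + wg g ((S \ T).filter P) := by
    have : (S \ T).filter P = S.filter P \ T.filter P := by
      ext x
      simp only [Finset.mem_filter, Finset.mem_sdiff]
      tauto
    rw [this]
    unfold wg
    rw [add_comm, sum_sdiff (filter_subset_filter _ h)]
  have h1 : 0 ≤ wg g ((S \ T).filter P) := wg_nonneg hg _
  have h2 : wg g ((S \ T).filter P) ≤ wg g (S \ T) := wg_mono hg (filter_subset _ _)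
  have h3 := wg_nonneg hg (S \ T)
  rw [e1, e2]
  have h4 : wg g (T.filter P) + wg g ((S \ T).filter P) - p * (wg g T + wg g (S \ T)) =
      (wg g (T.filter P) - p * wg g T) + (wg g ((S \ T).filter P) - p * wg g (S \ T)) := by ring
  rw [h4]
  refine (abs_add_le _ _).trans (add_le_add le_rfl ?_)
  rw [abs_le]
  constructor <;> nlinarith

/-- `g` depends only on a finite set of primes -/
def Fin0 (g : Finset ℕ → ℝ) : Prop := ∃ z₀ : ℕ, ∀ z, z₀ ≤ z → ∀ S, g S = g (sm z S)

theorem w_law {M : ℕ} (I K : Finset ℕ)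
    (F : Fin M → ℕ → ZMod 2) (V : Fin M → Finset ℕ) (W : Finset ℕ)
    (hW1 : ∀ u ∈ W, u.Prime ∧ u % 4 = 1) (hW2 : ∀ i, V i ⊆ W)
    (hpos : ∀ i j, i ≠ j → Pos (dd F V i j)) {CT : ℝ} (hCT0 : 0 ≤ CT)
    (hCT : ∀ X : ℕ, wt (SS I K X) ≤ CT * X) {g : Finset ℕ → ℝ} {G : ℝ} (hg0 : ∀ S, 0 ≤ g S)
    (hgG : ∀ S, g S ≤ G) (hgs : Fin0 g) {ε : ℝ} (hε : 0 < ε) :
    ∀ᶠ X : ℕ in atTop, |wg g ((SS I K X).filter (GdF F V)) - c2 ^ M * wg g (SS I K X)| ≤
      ε * X := by
  have hM := Pool.Agent.Y405.CQ.t_MER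
  have hS := Pool.Agent.Y488.CX.t_SIE
  have hCt : CntP := Pool.Agent.R413.SQ.CNT.t_CNT
  have hc2 := Pool.Agent.Y948.CQ.t_C2
  have hO : Ok I K := trivial
  have hG0 : 0 ≤ G := (hg0 ∅).trans (hgG ∅)
  obtain ⟨R, C, hC1, hkey⟩ := w_KEYF Pool.Agent.R413.SQ.BIL.t_BIL Pool.Agent.Y356.CQ.t_EQ
    Pool.Agent.Y697.JQ.t_JLA M (ε / (2 * (G + 1) * (CT + 1))) (by positivity)
  set v : ℕ := 2 * W.card + R with hv
  have s1 := w_many I K
  have s2 := w_cut I K hCt
  have s3 := w_coll I K hCt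
  have s4 := w_few hS hM I K v
  have s5 := w_bad hS Pool.Agent.R413.SQ.HAL.t_HAL hM I K W hW1
  have s6 := sml_mainW M hC1
  have s7 : Sml 0 fun X => ∑ e ∈ prF M,
      wt (fewF I K X (zz X) v (dd F V e.1 e.2)) := by
    refine sml_sum _ _ fun e he => ?_
    unfold prF at he
    rw [mem_filter] at he
    exact w_fewF hS hM (hpos e.1 e.2 he.2) I K v
  have s := sml_add (sml_add (sml_add (sml_add (sml_add (sml_add s1 s2) s3) s4) s5) s6) s7
  obtain ⟨WB, hWB⟩ : ∃ B : ℕ, ∀ u ∈ W, u ≤ B := ⟨W.sup id, fun u hu => Finset.le_sup (f := id) hu⟩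
  obtain ⟨z₀, hz₀⟩ := hgs
  have hzt : ∀ᶠ X : ℕ in atTop, max WB z₀ ≤ zz X := by
    filter_upwards [ev_eL ((max WB z₀ : ℕ) + 1)] with X hX
    have h0 : (1 : ℝ) ≤ eL X := by
      have : (0 : ℝ) ≤ (max WB z₀ : ℕ) := Nat.cast_nonneg _
      linarith
    unfold zz
    apply Nat.le_floor
    have h2 : ((max WB z₀ : ℕ) : ℝ) ≤ (eL X) ^ 3 := by
      have h3 : (1 : ℝ) * eL X ≤ (eL X) ^ 2 * eL X := by
        apply mul_le_mul_of_nonneg_right _ (by linarith)
        nlinarith
      have h4 : (eL X) ^ 3 = (eL X) ^ 2 * eL X := by ring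
      linarith
    have h3 := Real.add_one_le_exp ((eL X) ^ 3)
    linarith
  have hkt : ∀ᶠ X : ℕ in atTop, W.card ≤ kk X := by
    filter_upwards [ev_eL (W.card + 1)] with X hX
    have h2 := kk_ge X
    have h0 : (0 : ℝ) ≤ W.card := Nat.cast_nonneg _
    have : (W.card : ℝ) ≤ kk X := by linarith
    exact_mod_cast this
  filter_upwards [s (ε / (2 * (G + 1))) (by positivity), ev_eL 1, hzt, hkt] with X hX hl hz' hk
  have hz : WB ≤ zz X := (le_max_left _ _).trans hz'
  have hzz : z₀ ≤ zz X := (le_max_right _ _).trans hz'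
  have hl0 : 0 < eL X := by linarith
  have hXp := X_pos hl0
  have hXp' : (0 : ℝ) < X := by exact_mod_cast hXp
  have hN : (HN X : ℝ) * Real.log X < NW X := by
    unfold NW
    push_cast
    exact Nat.lt_floor_add_one _
  have hmain := hkey I K F V X (zz X) (HN X) (kk X) v (NW X) (kap C X) W hW1 hW2
    (fun u hu => (hWB u hu).trans hz) hk hO hXp (HN_pos hl0) (zz_pos hl)
    (kap_nonneg hC1 X) (kap_pow hC1 hl) hN g G hg0 hgG (hz₀ _ hzz)
  set T := (RR I K X (zz X) (HN X) (kk X) v).filter fun S =>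
    NdF R W F V (sm (zz X) S) (la (zz X) S) with hT
  have hTG : (RR I K X (zz X) (HN X) (kk X) v).filter
      (fun S => NdF R W F V (sm (zz X) S) (la (zz X) S) ∧ GdF F V S) = T.filter (GdF F V) := by
    rw [hT, filter_filter]
  rw [hTG] at hmain
  have hTS : T ⊆ SS I K X := (filter_subset _ _).trans (filter_subset _ _)
  have hRS : wg g (RR I K X (zz X) (HN X) (kk X) v) ≤ G * (CT * X) :=
    (wg_le hgG _).trans (mul_le_mul_of_nonneg_left
      ((wt_mono (filter_subset _ _)).trans (hCT X)) hG0)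
  have hp0 : 0 ≤ c2 ^ M := pow_nonneg hc2.2.1.le _
  have hp1 : c2 ^ M ≤ 1 := pow_le_one₀ hc2.2.1.le hc2.2.2.1.le
  have hcmp := cmpW hg0 (GdF F V) hTS hp0 hp1
  have hout : wt (SS I K X \ T) ≤
      (wt ((SS I K X).filter fun S => kk X < S.card) +
      wt ((SS I K X).filter fun S => S.card ≤ kk X ∧
        X < (∏ p ∈ sm (zz X) S, p) * ∏ p ∈ la (zz X) S, XX (HN X) (jj (HN X) p)) +
      wt ((SS I K X).filter fun S => S.card ≤ kk X ∧
        ¬ Set.InjOn (jj (HN X)) (la (zz X) S : Set ℕ)) +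
      wt ((SS I K X).filter fun S => ((la (zz X) S).filter fun p => SQ.mk p = 1).card ≤
        2 * (sm (zz X) S).card + v ∨ ∀ p ∈ la (zz X) S, SQ.mk p = 1)) +
      wt ((SS I K X).filter fun S => S.card ≤ kk X ∧
        ¬ Nd (sm (zz X) S ∪ W) (la (zz X) S)) +
      ∑ e ∈ prF M, wt (fewF I K X (zz X) v (dd F V e.1 e.2)) := by
    have g := out_subF I K W F V X (zz X) (HN X) (kk X) R
    rw [← hv, ← hT] at g
    have g1 : SS I K X \ T ⊆
      ((((((SS I K X).filter fun S => kk X < S.card) ∪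
      ((SS I K X).filter fun S => S.card ≤ kk X ∧
        X < (∏ p ∈ sm (zz X) S, p) * ∏ p ∈ la (zz X) S, XX (HN X) (jj (HN X) p))) ∪
      ((SS I K X).filter fun S => S.card ≤ kk X ∧
        ¬ Set.InjOn (jj (HN X)) (la (zz X) S : Set ℕ))) ∪
      ((SS I K X).filter fun S => ((la (zz X) S).filter fun p => SQ.mk p = 1).card ≤
        2 * (sm (zz X) S).card + v ∨ ∀ p ∈ la (zz X) S, SQ.mk p = 1)) ∪
      ((SS I K X).filter fun S => S.card ≤ kk X ∧ ¬ Nd (sm (zz X) S ∪ W) (la (zz X) S))) ∪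
      (prF M).biUnion fun e => fewF I K X (zz X) v (dd F V e.1 e.2) := by
      intro S hS
      have h1 := g hS
      rw [mem_union, mem_union, mem_union, mem_union, mem_union] at h1 ⊢
      simp only [mem_filter] at h1 ⊢
      rcases h1 with ((((h1 | h1) | h1) | h1) | h1) | h1
      · exact Or.inl (Or.inl (Or.inl (Or.inl (Or.inl h1))))
      · exact Or.inl (Or.inl (Or.inl (Or.inl (Or.inr h1))))
      · by_cases h2 : S.card ≤ kk X
        · exact Or.inl (Or.inl (Or.inl (Or.inr ⟨h1.1, h2, h1.2⟩)))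
        · exact Or.inl (Or.inl (Or.inl (Or.inl (Or.inl ⟨h1.1, by omega⟩))))
      · exact Or.inl (Or.inl (Or.inr h1))
      · exact Or.inl (Or.inr h1)
      · exact Or.inr h1
    refine (wt_mono g1).trans ?_
    refine (wt_union _ _).trans (add_le_add ?_ (wt_biUnion _ _))
    refine (wt_union _ _).trans (add_le_add ?_ le_rfl)
    refine (wt_union _ _).trans (add_le_add ?_ le_rfl)
    refine (wt_union _ _).trans (add_le_add ?_ le_rfl)
    exact wt_union _ _
  have hXe : (X : ℝ) * Real.exp (-0 * eL X) = X := by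
    rw [neg_zero, zero_mul, Real.exp_zero, mul_one]
  have hX' := hX
  rw [hXe] at hX'
  set E : ℝ := 2 ^ kk X * ((9 * (NW X : ℝ) + 9) ^ kk X *
    (3 ^ ((6 + M) * kk X ^ 2) * kap C X) * (X * (1 + Real.log X))) with hE
  have h1 : wg g (SS I K X \ T) ≤ G * wt (SS I K X \ T) := wg_le hgG _
  have h2 : wt (SS I K X \ T) + E ≤ ε / (2 * (G + 1)) * X := by linarith
  have h3 : ε / (2 * (G + 1) * (CT + 1)) * wg g (RR I K X (zz X) (HN X) (kk X) v) ≤
      ε / 2 * X := by
    calc ε / (2 * (G + 1) * (CT + 1)) * wg g (RR I K X (zz X) (HN X) (kk X) v) ≤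
          ε / (2 * (G + 1) * (CT + 1)) * ((G + 1) * ((CT + 1) * X)) := by
          refine mul_le_mul_of_nonneg_left (hRS.trans ?_) (by positivity)
          gcongr <;> linarith
      _ = ε / 2 * X := by
          field_simp
  have h4 : G * (wt (SS I K X \ T) + E) ≤ ε / 2 * X := by
    calc G * (wt (SS I K X \ T) + E) ≤ G * (ε / (2 * (G + 1)) * X) :=
          mul_le_mul_of_nonneg_left h2 hG0
      _ ≤ (G + 1) * (ε / (2 * (G + 1)) * X) :=
          mul_le_mul_of_nonneg_right (by linarith) (by positivity)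
      _ = ε / 2 * X := by
          field_simp
  have h5 : G * (wt (SS I K X \ T) + E) = G * wt (SS I K X \ T) + G * E := by ring
  linarith

/-- the joint law -/
theorem w_lawS {ι : Type} (I K : Finset ℕ) {F : ι → ℕ → ZMod 2} {V : ι → Finset ℕ}
    (h : Fa F V) (P : Finset ι) {CT : ℝ} (hCT0 : 0 ≤ CT)
    (hCT : ∀ X : ℕ, wt (SS I K X) ≤ CT * X) {g : Finset ℕ → ℝ} {G : ℝ} (hg0 : ∀ S, 0 ≤ g S)
    (hgG : ∀ S, g S ≤ G) (hgs : Fin0 g) {ε : ℝ} (hε : 0 < ε) : ∀ᶠ X : ℕ in atTop,
    |wg g ((SS I K X).filter fun S => ∀ i ∈ P, Gd (F i) (symmDiff S (V i))) -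
      c2 ^ P.card * wg g (SS I K X)| ≤ ε * X := by
  set e : Fin P.card ≃ P := P.equivFin.symm with he
  have h1 := w_law I K (fun k => F (e k)) (fun k => V (e k)) (P.biUnion V)
    (fun u hu => by
      obtain ⟨i, -, hi⟩ := mem_biUnion.1 hu
      exact h.pr i u hi)
    (fun k => subset_biUnion_of_mem V (e k).2)
    (fun i j hij => h.sep _ _ fun h' => hij (e.injective (Subtype.ext h'))) hCT0 hCT hg0 hgG hgs hε
  refine h1.mono fun X hX => ?_
  have e1 : ((SS I K X).filter fun S => ∀ i ∈ P, Gd (F i) (symmDiff S (V i))) =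
      (SS I K X).filter (GdF (fun k => F (e k)) fun k => V (e k)) := by
    refine filter_congr fun S _ => ?_
    unfold GdF
    constructor
    · intro h2 k
      exact h2 _ (e k).2
    · intro h2 i hi
      have h3 := h2 (e.symm ⟨i, hi⟩)
      simp only [Equiv.apply_symm_apply] at h3
      exact h3
  rw [e1]
  exact hX

/-- all the patterns -/
theorem w_lawPQ {ι : Type} (I K : Finset ℕ) {F : ι → ℕ → ZMod 2} {V : ι → Finset ℕ}
    (h : Fa F V) {CT : ℝ} (hCT0 : 0 ≤ CT)
    (hCT : ∀ X : ℕ, wt (SS I K X) ≤ CT * X) {g : Finset ℕ → ℝ} {G : ℝ} (hg0 : ∀ S, 0 ≤ g S)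
    (hgG : ∀ S, g S ≤ G) (hgs : Fin0 g) (Q : Finset ι) :
    ∀ P : Finset ι, Disjoint P Q → ∀ ε : ℝ, 0 < ε → ∀ᶠ X : ℕ in atTop,
    |wg g ((SS I K X).filter fun S => (∀ i ∈ P, Gd (F i) (symmDiff S (V i))) ∧
      ∀ i ∈ Q, ¬ Gd (F i) (symmDiff S (V i))) -
      c2 ^ P.card * (1 - c2) ^ Q.card * wg g (SS I K X)| ≤ ε * X := by
  induction Q using Finset.induction_on with
  | empty =>
    intro P _ ε hε
    have h1 := w_lawS I K h P hCT0 hCT hg0 hgG hgs hε
    refine h1.mono fun X hX => ?_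
    simpa using hX
  | insert q Q hq ih =>
    intro P hPQ ε hε
    rw [disjoint_insert_right] at hPQ
    have h1 := ih P hPQ.2 (ε / 2) (by positivity)
    have h2 := ih (insert q P) (disjoint_insert_left.2 ⟨hq, hPQ.2⟩) (ε / 2) (by positivity)
    rw [card_insert_of_notMem hPQ.1] at h2
    rw [card_insert_of_notMem hq]
    filter_upwards [h1, h2] with X a1 a2
    set T := (SS I K X).filter fun S => (∀ i ∈ P, Gd (F i) (symmDiff S (V i))) ∧
      ∀ i ∈ Q, ¬ Gd (F i) (symmDiff S (V i)) with hT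
    have h4 : wg g (T.filter fun S => Gd (F q) (symmDiff S (V q))) +
        wg g (T.filter fun S => ¬ Gd (F q) (symmDiff S (V q))) = wg g T := by
      unfold wg
      exact sum_filter_add_sum_filter_not T _ _
    have e1 : T.filter (fun S => Gd (F q) (symmDiff S (V q))) =
        (SS I K X).filter fun S => (∀ i ∈ insert q P, Gd (F i) (symmDiff S (V i))) ∧
          ∀ i ∈ Q, ¬ Gd (F i) (symmDiff S (V i)) := by
      rw [hT, filter_filter]
      refine filter_congr fun S _ => ?_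
      rw [forall_mem_insert]
      tauto
    have e2 : T.filter (fun S => ¬ Gd (F q) (symmDiff S (V q))) =
        (SS I K X).filter fun S => (∀ i ∈ P, Gd (F i) (symmDiff S (V i))) ∧
          ∀ i ∈ insert q Q, ¬ Gd (F i) (symmDiff S (V i)) := by
      rw [hT, filter_filter]
      refine filter_congr fun S _ => ?_
      rw [forall_mem_insert]
      tauto
    rw [e1, e2] at h4
    have e3 : wg g ((SS I K X).filter fun S => (∀ i ∈ P, Gd (F i) (symmDiff S (V i))) ∧
          ∀ i ∈ insert q Q, ¬ Gd (F i) (symmDiff S (V i))) -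
        c2 ^ P.card * (1 - c2) ^ (Q.card + 1) * wg g (SS I K X) =
        (wg g T - c2 ^ P.card * (1 - c2) ^ Q.card * wg g (SS I K X)) -
        (wg g ((SS I K X).filter fun S => (∀ i ∈ insert q P, Gd (F i) (symmDiff S (V i))) ∧
          ∀ i ∈ Q, ¬ Gd (F i) (symmDiff S (V i))) -
          c2 ^ (P.card + 1) * (1 - c2) ^ Q.card * wg g (SS I K X)) := by
      rw [← h4]
      ring
    rw [e3]
    refine (abs_sub _ _).trans ?_
    linarith

end Run7.h428.W
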