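import Pool.Agent.Run7.h238.Half
import Pool.Agent.Run7.h428.WE

/-!
# Sums over the lattice points

The pairs `v` of integers whose norm has an odd squarefree part are counted with helper238's
`sum_pairs` (`Run7/h238/Pairs2`); the passage to the limit is helper238's (`Run7/h238/Lim`), for an
arbitrary bounded function of the set of the primes which divide the norm to an odd power.
-/

set_option autoImplicit false

open scoped Classical

namespace Run7.h428.WP

open Finset Filter Topology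
open Pool.Agent.R413.SQ
open Pool.Agent.Y703.CX (sm)
open Pool.Agent.Y703.CQ (c2)
open Run7.h238.Pairs Run7.h428.W

/-- there are at most `9 X` pairs -/
theorem card_Bx_le {X : ℕ} (hX : 1 ≤ X) : (Bx X).card ≤ 9 * X := by
  have hs : 1 ≤ Nat.sqrt X := Nat.le_sqrt.2 (by omega)
  have h1 : Bx X ⊆ (Icc (-(Nat.sqrt X : ℤ)) (Nat.sqrt X)) ×ˢ (Icc (-(Nat.sqrt X : ℤ)) (Nat.sqrt X)) := by
    intro v hv
    rw [mem_Bx] at hv
    unfold nm at hv
    have k1 : v.1.natAbs ≤ Nat.sqrt X := Nat.le_sqrt'.2 (by omega)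
    have k2 : v.2.natAbs ≤ Nat.sqrt X := Nat.le_sqrt'.2 (by omega)
    rw [Finset.mem_product, Finset.mem_Icc, Finset.mem_Icc]
    omega
  have h2 : (Icc (-(Nat.sqrt X : ℤ)) (Nat.sqrt X)).card = 2 * Nat.sqrt X + 1 := by
    rw [Int.card_Icc]
    omega
  refine (card_le_card h1).trans ?_
  rw [Finset.card_product, h2]
  have h3 := Nat.sqrt_le X
  nlinarith

theorem CX_sub (X : ℕ) : CX X ⊆ Bx X := filter_subset _ _

theorem mem_CX {X : ℕ} {v : ℤ × ℤ} : v ∈ CX X ↔ nm v ≤ X ∧ nm v ≠ 0 ∧ 2 ∉ oddP (nm v) := by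
  unfold CX
  rw [Finset.mem_filter, mem_Bx]

theorem CX_zero : CX 0 = ∅ := by
  rw [eq_empty_iff_forall_notMem]
  intro v hv
  rw [mem_CX] at hv
  exact hv.2.1 (Nat.le_zero.1 hv.1)

theorem SS_zero : SS ∅ ∅ 0 = ∅ := by
  rw [eq_empty_iff_forall_notMem]
  intro S hS
  rw [mem_SS] at hS
  have := prod_pos fun p hp => (hS.1 p hp).1.pos
  omega

/-- an upper bound for the weighted number of the sets -/
theorem wt_le (X : ℕ) : wt (SS ∅ ∅ X) ≤ 9 * X := by
  rcases Nat.eq_zero_or_pos X with h0 | h0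
  · subst h0
    rw [SS_zero]
    unfold wt
    simp
  have h1 := sum_pairs (fun _ => (1 : ℝ)) X
  rw [sum_const, nsmul_eq_mul, mul_one] at h1
  have h2 : ((1, 1) : ℕ × ℕ) ∈ (Icc 1 X) ×ˢ ((Icc 1 X).filter N1) := by
    rw [mem_product, mem_filter, mem_Icc]
    refine ⟨⟨le_rfl, h0⟩, ⟨le_rfl, h0⟩, fun p hp => ?_⟩
    simp at hp
  have h3 := single_le_sum (f := fun e : ℕ × ℕ => 4 * ∑ S ∈ SS ∅ ∅ (X / (e.1 ^ 2 * e.2 ^ 2)),
        2 ^ (S ∪ e.2.primeFactors).card * (1 : ℝ)) (fun e _ => by positivity) h2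
  rw [← h1] at h3
  simp only [one_pow, mul_one, Nat.div_one, Nat.primeFactors_one, union_empty] at h3
  have h4 : ((CX X).card : ℝ) ≤ 9 * X := by
    exact_mod_cast (card_le_card (CX_sub X)).trans (card_Bx_le h0)
  have h5 : wt (SS ∅ ∅ X) = ∑ S ∈ SS ∅ ∅ X, (2 : ℝ) ^ S.card := rfl
  have h6 : 0 ≤ wt (SS ∅ ∅ X) := wt_nonneg _
  rw [← h5] at h3
  linarith

/-- the inner sum -/
noncomputable def Xi (F : Finset ℕ → ℝ) (g Y : ℕ) : ℝ :=
  ∑ S ∈ SS ∅ ∅ Y, 2 ^ (S ∪ g.primeFactors).card * F S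

theorem Xi_zero (F : Finset ℕ → ℝ) (g : ℕ) : Xi F g 0 = 0 := by
  unfold Xi
  rw [SS_zero, sum_empty]

theorem Xi_le {F : Finset ℕ → ℝ} (hF : ∀ S, |F S| ≤ 1) (g Y : ℕ) :
    |Xi F g Y| ≤ 2 ^ g.primeFactors.card * (9 * Y) := by
  unfold Xi
  refine (abs_sum_le_sum_abs _ _).trans ?_
  refine le_trans ?_ (mul_le_mul_of_nonneg_left (wt_le Y) (by positivity))
  unfold wt
  rw [mul_sum]
  refine sum_le_sum fun S _ => ?_
  rw [abs_mul, abs_of_nonneg (by positivity : (0 : ℝ) ≤ 2 ^ (S ∪ g.primeFactors).card)]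
  calc 2 ^ (S ∪ g.primeFactors).card * |F S| ≤ 2 ^ (S ∪ g.primeFactors).card * 1 :=
        mul_le_mul_of_nonneg_left (hF S) (by positivity)
    _ ≤ 2 ^ (g.primeFactors.card + S.card) := by
        rw [mul_one]
        refine pow_le_pow_right₀ (by norm_num) ?_
        rw [add_comm]
        exact card_union_le _ _
    _ = _ := pow_add _ _ _

/-- the number of prime factors -/
theorem two_pow_le {g : ℕ} (hg : g ≠ 0) (hN : N1 g) :
    (2 : ℝ) ^ g.primeFactors.card / (g : ℝ) ^ 2 ≤ (g : ℝ) ^ (-(3 / 2) : ℝ) := by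
  have h1 : 4 ^ g.primeFactors.card ≤ g := by
    have h2 : 4 ^ g.primeFactors.card ≤ ∏ p ∈ g.primeFactors, p := by
      rw [← prod_const]
      refine prod_le_prod' fun p hp => ?_
      have h3 := hN p hp
      have h4 := (Nat.prime_of_mem_primeFactors hp).two_le
      omega
    exact h2.trans (Nat.le_of_dvd (Nat.pos_of_ne_zero hg) (Nat.prod_primeFactors_dvd g))
  have hg0 : (0 : ℝ) < g := by exact_mod_cast Nat.pos_of_ne_zero hg
  have h2 : (2 : ℝ) ^ g.primeFactors.card ≤ (g : ℝ) ^ (1 / 2 : ℝ) := by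
    rw [← Real.sqrt_eq_rpow]
    apply Real.le_sqrt_of_sq_le
    rw [← pow_mul, mul_comm, pow_mul]
    norm_num
    exact_mod_cast h1
  rw [div_le_iff₀ (by positivity)]
  refine h2.trans (le_of_eq ?_)
  rw [← Real.rpow_natCast (g : ℝ) 2, ← Real.rpow_add hg0]
  norm_num

/-- the terms -/
noncomputable def tm (F : Finset ℕ → ℝ) (X : ℕ) (e : ℕ × ℕ) : ℝ :=
  if e.1 ≠ 0 ∧ e.2 ≠ 0 ∧ N1 e.2 then 4 * Xi F e.2 (X / (e.1 ^ 2 * e.2 ^ 2)) / X else 0

theorem sum_eq (F : Finset ℕ → ℝ) (X : ℕ) :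
    (∑ v ∈ CX X, F (oddP (nm v))) / X = ∑' e : ℕ × ℕ, tm F X e := by
  rw [sum_pairs, sum_div]
  rw [tsum_eq_sum (s := (Icc 1 X) ×ˢ ((Icc 1 X).filter N1))]
  · refine sum_congr rfl fun e he => ?_
    rw [mem_product, mem_filter, mem_Icc, mem_Icc] at he
    unfold tm
    rw [if_pos ⟨by omega, by omega, he.2.2⟩]
    rfl
  · intro e he
    unfold tm
    split_ifs with h
    · obtain ⟨h1, h2, h3⟩ := h
      have h4 : X / (e.1 ^ 2 * e.2 ^ 2) = 0 := by
        rw [Nat.div_eq_zero_iff]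
        right
        by_contra hc
        push Not at hc
        apply he
        rw [mem_product, mem_filter, mem_Icc, mem_Icc]
        have k1 : e.1 * e.2 ≤ e.1 ^ 2 * e.2 ^ 2 := by
          rw [← mul_pow]
          exact Nat.le_self_pow (by norm_num) _
        have k2 : e.1 ≤ e.1 * e.2 := Nat.le_mul_of_pos_right _ (Nat.pos_of_ne_zero h2)
        have k3 : e.2 ≤ e.1 * e.2 := Nat.le_mul_of_pos_left _ (Nat.pos_of_ne_zero h1)
        exact ⟨⟨Nat.pos_of_ne_zero h1, by omega⟩, ⟨Nat.pos_of_ne_zero h2, by omega⟩, h3⟩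
      rw [h4, Xi_zero, mul_zero, zero_div]
    · rfl

/-- **the sum over the pairs is small if the inner sums are** -/
theorem tendsto_zero {F : Finset ℕ → ℝ} (hF : ∀ S, |F S| ≤ 1)
    (hlaw : ∀ (G : Finset ℕ) (ε : ℝ), 0 < ε → ∀ᶠ X : ℕ in atTop,
      |∑ S ∈ SS ∅ ∅ X, 2 ^ (S ∪ G).card * F S| ≤ ε * X) :
    Tendsto (fun X : ℕ => (∑ v ∈ CX X, F (oddP (nm v))) / X) atTop (nhds 0) := by
  simp_rw [sum_eq]
  have h0 : ∑' _ : ℕ × ℕ, (0 : ℝ) = 0 := tsum_zero
  rw [← h0]
  have hs1 : Summable fun k : ℕ => 1 / (k : ℝ) ^ 2 := Real.summable_one_div_nat_pow.2 (by norm_num)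
  have hs2 : Summable fun g : ℕ => (g : ℝ) ^ (-(3 / 2) : ℝ) := Real.summable_nat_rpow.2 (by norm_num)
  have hs := (hs1.mul_of_nonneg hs2 (fun k => by positivity)
    (fun g => Real.rpow_nonneg (Nat.cast_nonneg g) _)).mul_left (4 * 9)
  refine tendsto_tsum_of_dominated_convergence hs ?_ ?_
  · -- each term
    rintro ⟨k, g⟩
    unfold tm
    by_cases h : k ≠ 0 ∧ g ≠ 0 ∧ N1 g
    · simp only [if_pos h]
      obtain ⟨hk, hg, -⟩ := h
      have hkg : 0 < k ^ 2 * g ^ 2 := by positivity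
      rw [Metric.tendsto_nhds]
      intro ε hε
      have h1 := hlaw g.primeFactors (ε / 8) (by positivity)
      have h2 : Tendsto (fun X : ℕ => X / (k ^ 2 * g ^ 2)) atTop atTop :=
        Nat.tendsto_div_const_atTop (by omega)
      filter_upwards [h2.eventually h1, eventually_ge_atTop 1] with X h3 h4
      have hX : (0 : ℝ) < X := by exact_mod_cast h4
      rw [Real.dist_eq, sub_zero, abs_div, abs_mul, abs_of_pos hX, div_lt_iff₀ hX]
      have h5 : |Xi F g (X / (k ^ 2 * g ^ 2))| ≤ ε / 8 * ((X / (k ^ 2 * g ^ 2) : ℕ) : ℝ) := h3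
      have h6 : ((X / (k ^ 2 * g ^ 2) : ℕ) : ℝ) ≤ X := by exact_mod_cast Nat.div_le_self _ _
      have h7 : ε / 8 * ((X / (k ^ 2 * g ^ 2) : ℕ) : ℝ) ≤ ε / 8 * X :=
        mul_le_mul_of_nonneg_left h6 (by positivity)
      rw [abs_of_pos (by norm_num : (0 : ℝ) < 4)]
      have h8 : 0 < ε * X := by positivity
      linarith
    · simp only [if_neg h]
      exact tendsto_const_nhds
  · -- the bound
    refine Eventually.of_forall fun X => ?_
    rintro ⟨k, g⟩
    unfold tm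
    have hb : 0 ≤ 4 * 9 * (1 / (k : ℝ) ^ 2 * (g : ℝ) ^ (-(3 / 2) : ℝ)) := by
      have := Real.rpow_nonneg (Nat.cast_nonneg g) (-(3 / 2) : ℝ)
      positivity
    split_ifs with h
    · simp only at h ⊢
      obtain ⟨hk, hg, hN⟩ := h
      rcases Nat.eq_zero_or_pos X with hX | hX
      · rw [hX, Nat.zero_div, Xi_zero, mul_zero, zero_div, norm_zero]
        exact hb
      · have hX0 : (0 : ℝ) < X := by exact_mod_cast hX
        have hk0 : (0 : ℝ) < k := by exact_mod_cast Nat.pos_of_ne_zero hk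
        have hg0 : (0 : ℝ) < g := by exact_mod_cast Nat.pos_of_ne_zero hg
        rw [Real.norm_eq_abs, abs_div, abs_mul, abs_of_pos hX0, abs_of_pos (by norm_num : (0 : ℝ) < 4),
          div_le_iff₀ hX0]
        have h1 := Xi_le hF g (X / (k ^ 2 * g ^ 2))
        have h2 : ((X / (k ^ 2 * g ^ 2) : ℕ) : ℝ) ≤ X / ((k : ℝ) ^ 2 * (g : ℝ) ^ 2) := by
          refine Nat.cast_div_le.trans (le_of_eq ?_)
          push_cast
          rfl
        have h3 := two_pow_le hg hN
        calc 4 * |Xi F g (X / (k ^ 2 * g ^ 2))| ≤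
              4 * (2 ^ g.primeFactors.card * (9 * (X / ((k : ℝ) ^ 2 * (g : ℝ) ^ 2)))) := by
              refine mul_le_mul_of_nonneg_left (h1.trans ?_) (by norm_num)
              refine mul_le_mul_of_nonneg_left ?_ (by positivity)
              exact mul_le_mul_of_nonneg_left h2 (by norm_num)
          _ = 4 * 9 * (1 / (k : ℝ) ^ 2 * (2 ^ g.primeFactors.card / (g : ℝ) ^ 2)) * X := by
              field_simp
          _ ≤ 4 * 9 * (1 / (k : ℝ) ^ 2 * (g : ℝ) ^ (-(3 / 2) : ℝ)) * X := by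
              gcongr
    · rw [norm_zero]
      exact hb

/-- the function `2 ^ |G \ S|` depends on finitely many primes -/
theorem fin0 (G : Finset ℕ) : Fin0 fun S => (2 : ℝ) ^ (G \ S).card := by
  refine ⟨G.sup id, fun z hz S => ?_⟩
  have e : G \ S = G \ sm z S := by
    ext p
    rw [Finset.mem_sdiff, Finset.mem_sdiff]
    refine and_congr_right fun hp => ?_
    have h1 : p ≤ z := (le_sup (f := id) hp).trans hz
    unfold sm
    rw [Finset.mem_filter]
    tauto
  show (2 : ℝ) ^ (G \ S).card = 2 ^ (G \ sm z S).card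
  rw [e]

theorem wg_union (G : Finset ℕ) (F : Finset (Finset ℕ)) :
    wg (fun S => (2 : ℝ) ^ (G \ S).card) F = ∑ S ∈ F, (2 : ℝ) ^ (S ∪ G).card := by
  unfold wg
  refine sum_congr rfl fun S _ => ?_
  rw [← pow_add]
  congr 1
  rw [← card_union_of_disjoint sdiff_disjoint, union_comm, Finset.union_sdiff_self_eq_union]

/-- **the joint law for the pairs** -/
theorem p_law {ι : Type} {F : ι → ℕ → ZMod 2} {V : ι → Finset ℕ} (h : SM.Fa F V)
    (P Q : Finset ι) (hPQ : Disjoint P Q) :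
    Tendsto (fun X : ℕ => (((CX X).filter fun v =>
      (∀ i ∈ P, Gd (F i) (symmDiff (oddP (nm v)) (V i))) ∧
      ∀ i ∈ Q, ¬ Gd (F i) (symmDiff (oddP (nm v)) (V i))).card : ℝ) / X) atTop
      (𝓝 (c2 ^ P.card * (1 - c2) ^ Q.card * (2 / 3 * Run7.h238.Disc.ar))) := by
  have hc0 : 0 < c2 := Pool.Agent.Y948.CQ.t_C2.2.1
  have hc1 : c2 < 1 := Pool.Agent.Y948.CQ.t_C2.2.2.1
  set p : ℝ := c2 ^ P.card * (1 - c2) ^ Q.card with hp
  have hp0 : 0 ≤ p := mul_nonneg (pow_nonneg hc0.le _) (pow_nonneg (by linarith) _)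
  have hp1 : p ≤ 1 := mul_le_one₀ (pow_le_one₀ hc0.le hc1.le) (pow_nonneg (by linarith) _)
    (pow_le_one₀ (by linarith) (by linarith))
  set D : Finset ℕ → Prop := fun S => (∀ i ∈ P, Gd (F i) (symmDiff S (V i))) ∧
      ∀ i ∈ Q, ¬ Gd (F i) (symmDiff S (V i)) with hD
  have h1 := tendsto_zero (F := fun S => (if D S then (1 : ℝ) else 0) - p) (fun S => by
    rw [abs_le]
    split_ifs <;> constructor <;> linarith) (fun G ε hε => by
    have h2 := w_lawPQ ∅ ∅ h (CT := 9) (by norm_num) wt_le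
      (g := fun S => (2 : ℝ) ^ (G \ S).card) (G := 2 ^ G.card) (fun S => by positivity)
      (fun S => pow_le_pow_right₀ (by norm_num) (card_le_card sdiff_subset)) (fin0 G) Q P hPQ ε hε
    refine h2.mono fun X hX => ?_
    refine le_trans (le_of_eq ?_) hX
    congr 1
    rw [wg_union, wg_union, sum_filter, mul_sum, ← sum_sub_distrib]
    refine sum_congr rfl fun S _ => ?_
    by_cases hS : D S
    · rw [if_pos hS, if_pos hS]
      ring
    · rw [if_neg hS, if_neg hS]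
      ring)
  have h3 := Run7.h238.Half.CX_tendsto
  have h4 := h1.add (h3.mul_const p)
  rw [zero_add, mul_comm] at h4
  refine h4.congr fun X => ?_
  have e : ∑ v ∈ CX X, ((if D (oddP (nm v)) then (1 : ℝ) else 0) - p) =
      (((CX X).filter fun v => D (oddP (nm v))).card : ℝ) - p * ((CX X).card : ℝ) := by
    rw [Finset.sum_sub_distrib, Finset.sum_const, nsmul_eq_mul, mul_comm ((CX X).card : ℝ)]
    congr 1
    rw [Finset.card_filter]
    push_cast
    rfl
  rw [e]
  ring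

/-- the pairs with a given set of primes have density zero -/
theorem fib0 (V : Finset ℕ) : Tendsto (fun X : ℕ =>
    (((CX X).filter fun v => oddP (nm v) = V).card : ℝ) / X) atTop (𝓝 0) := by
  have h1 := tendsto_zero (F := fun S => if S = V then (1 : ℝ) else 0) (fun S => by
    split_ifs <;> norm_num) (fun G ε hε => by
    have h2 : Tendsto (fun X : ℕ => ε * (X : ℝ)) atTop atTop :=
      Tendsto.const_mul_atTop hε tendsto_natCast_atTop_atTop
    refine (h2.eventually_ge_atTop (2 ^ (V ∪ G).card)).mono fun X hX => le_trans ?_ hX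
    refine (abs_sum_le_sum_abs _ _).trans ?_
    have h3 : ∀ S ∈ SS ∅ ∅ X, |2 ^ (S ∪ G).card * (if S = V then (1 : ℝ) else 0)| =
        if S = V then 2 ^ (V ∪ G).card else 0 := by
      intro S _
      by_cases hS : S = V
      · rw [if_pos hS, if_pos hS, hS, mul_one, abs_of_nonneg (by positivity)]
      · rw [if_neg hS, if_neg hS, mul_zero, abs_zero]
    rw [sum_congr rfl h3, sum_ite_eq']
    split_ifs
    · exact le_rfl
    · positivity)
  refine h1.congr fun X => ?_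
  congr 1
  rw [Finset.card_filter]
  push_cast
  rfl

end Run7.h428.WP
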