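import Pool.Agent.Run7.h428.WI

/-!
# Lattice points: the joint law, mixing and universality in terms of the numbers

`Q` is a property of the squarefree numbers `D` with all prime factors `1 mod 4` which is equivalent to
the criterion for the twist of `X_0(49)` by `D`, and `SqP Q N` is the property `Q` of the squarefree part
of `N`.
-/

set_option autoImplicit false

open scoped Classical symmDiff

namespace Run7.h428.WM

open Finset Filter Topology
open Run7.h428.MixG Run7.h428.UniG Run7.h428.WP Run7.h428.WI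
open Run7.h428.Uni (W mem_W W_empty W_congr W_insert pr)
open Run7.h238.Pairs
open Run7.h428.Inst (am am_pf am_symm adm_of_mask sq_unique)
open Pool.Agent.R413.SQ
open Pool.Agent.Y703.CQ (c2)
open Pool.Agent.Y698.SG (n4)
open Pool.Agent.Results.MP_4a9ea6_nt.TwoPartTwistsX49 (Adm)

/-- the property `Q` of the squarefree part of `N`, which is in the class -/
def SqP (Q : ℕ → Prop) (N : ℕ) : Prop := ∃ D k : ℕ, Adm D ∧ 0 < k ∧ N = D * k ^ 2 ∧ Q D

variable {Q : ℕ → Prop}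

theorem sqP_iff (hQ : ∀ D, Adm D → (Q D ↔ Gd n4 D.primeFactors)) {N k : ℕ} {W : Finset ℕ}
    (hW : am W) (hk : 0 < k) (h : N = (∏ p ∈ W, p) * k ^ 2) : SqP Q N ↔ Gd n4 W := by
  obtain ⟨h1, h2⟩ := adm_of_mask hW
  have h3 : Q (∏ p ∈ W, p) ↔ Gd n4 W := by
    rw [hQ _ h1, h2]
  rw [← h3]
  constructor
  · rintro ⟨D, l, h4, h5, h6, h7⟩
    have h8 : D = ∏ p ∈ W, p := sq_unique h4.1 h1.1 h5 hk (by rw [← h6, h])
    rw [← h8]
    exact h7
  · intro h4
    exact ⟨_, k, h1, hk, h, h4⟩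

theorem sqP_sq {D : ℕ} (hD : Adm D) {k : ℕ} (hk : 0 < k) : SqP Q (D * k ^ 2) ↔ Q D := by
  constructor
  · rintro ⟨D', l, h4, h5, h6, h7⟩
    rw [sq_unique hD.1 h4.1 hk h5 h6]
    exact h7
  · intro h
    exact ⟨D, k, hD, hk, rfl, h⟩

/-- the class of the lattice points -/
def Cls : Set (ℤ × ℤ) := {v | nm v ≠ 0 ∧ 2 ∉ oddP (nm v)}

theorem cls_am {v : ℤ × ℤ} (h : v ∈ Cls) : am (U v) := am_U h

theorem pt {v : ℤ × ℤ} (h : v ∈ Cls) : 0 < gg (nm v) ∧ nm v = (∏ p ∈ U v, p) * gg (nm v) ^ 2 := by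
  obtain ⟨h1, h2⟩ := decomp h.1
  refine ⟨Nat.pos_of_ne_zero h1, ?_⟩
  rw [mul_comm]
  exact h2

theorem prod_pos_of {V : Finset ℕ} (h : am V) : 0 < ∏ p ∈ V, p :=
  Finset.prod_pos fun p hp => (h p hp).1.pos

/-- the product of two numbers with given masks -/
theorem mul_mask {N M k l : ℕ} {V V' : Finset ℕ} (hV : am V) (hk : 0 < k)
    (hN : N = (∏ p ∈ V, p) * k ^ 2) (hl : 0 < l) (hM : M = (∏ p ∈ V', p) * l ^ 2) :
    ∃ j : ℕ, 0 < j ∧ N * M = (∏ p ∈ V ∆ V', p) * j ^ 2 := by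
  have h1 := Pool.Agent.R426.QB.prod_symmDiff_nat V V'
  refine ⟨(∏ p ∈ V ∩ V', p) * (k * l), Nat.mul_pos (Finset.prod_pos fun p hp =>
    (hV p (Finset.mem_inter.1 hp).1).1.pos) (Nat.mul_pos hk hl), ?_⟩
  rw [hN, hM]
  calc (∏ p ∈ V, p) * k ^ 2 * ((∏ p ∈ V', p) * l ^ 2) =
        ((∏ p ∈ V, p) * ∏ p ∈ V', p) * (k * l) ^ 2 := by ring
    _ = ((∏ p ∈ V ∆ V', p) * (∏ p ∈ V ∩ V', p) ^ 2) * (k * l) ^ 2 := by rw [h1]
    _ = _ := by ring

theorem adm_mask {M : ℕ} (h : Adm M) : M = (∏ p ∈ M.primeFactors, p) * 1 ^ 2 := by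
  rw [Nat.prod_primeFactors_of_squarefree h.1, one_pow, mul_one]

/-- the product of a lattice point and a number of the class -/
theorem two {v : ℤ × ℤ} (hv : v ∈ Cls) {M : ℕ} (hM : Adm M) :
    ∃ k : ℕ, 0 < k ∧ M * nm v = (∏ p ∈ U v ∆ M.primeFactors, p) * k ^ 2 := by
  obtain ⟨k, hk, h⟩ := mul_mask (cls_am hv) (pt hv).1 (pt hv).2 one_pos (adm_mask hM)
  exact ⟨k, hk, by rw [mul_comm]; exact h⟩

theorem three {v : ℤ × ℤ} (hv : v ∈ Cls) {m t : ℕ} (hm : Adm m) (ht : Adm t) :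
    ∃ k : ℕ, 0 < k ∧ nm v * m * t =
      (∏ p ∈ U v ∆ (m.primeFactors ∆ t.primeFactors), p) * k ^ 2 := by
  obtain ⟨l, hl, h1⟩ := mul_mask (am_pf hm) one_pos (adm_mask hm) one_pos (adm_mask ht)
  obtain ⟨k, hk, h⟩ := mul_mask (cls_am hv) (pt hv).1 (pt hv).2 hl h1
  exact ⟨k, hk, by rw [mul_assoc]; exact h⟩

/-- a product of lattice points -/
theorem prods (z : ℕ → ℤ × ℤ) (T : Finset ℕ) (hz : ∀ i ∈ T, z i ∈ Cls) :
    ∃ k : ℕ, 0 < k ∧ ∏ i ∈ T, nm (z i) = (∏ p ∈ W (fun i => U (z i)) T, p) * k ^ 2 := by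
  induction T using Finset.induction_on with
  | empty =>
    refine ⟨1, one_pos, ?_⟩
    rw [W_empty]
    simp
  | insert a T ha ih =>
    obtain ⟨k, hk, h1⟩ := ih fun i hi => hz i (mem_insert_of_mem hi)
    have hza := hz a (mem_insert_self a T)
    obtain ⟨j, hj, h2⟩ := mul_mask (cls_am hza) (pt hza).1 (pt hza).2 hk h1
    refine ⟨j, hj, ?_⟩
    rw [prod_insert ha, h2, W_insert ha]

theorem mem_CX' {X : ℕ} {v : ℤ × ℤ} : v ∈ CX X ↔ nm v ≤ X ∧ v ∈ Cls := mem_CX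

theorem injT {T : Finset ℕ} (hT : ∀ t ∈ T, Adm t) : Set.InjOn Nat.primeFactors (T : Set ℕ) := by
  intro m hm n hn hmn
  rw [← Nat.prod_primeFactors_of_squarefree (hT m hm).1,
    ← Nat.prod_primeFactors_of_squarefree (hT n hn).1, hmn]

theorem pr_eq {T V : Finset ℕ} (hT : ∀ t ∈ T, Adm t) (hV : V ⊆ T) :
    pr c2 (T.image Nat.primeFactors) (V.image Nat.primeFactors) =
      c2 ^ V.card * (1 - c2) ^ (T.card - V.card) := by
  unfold pr
  rw [Finset.card_sdiff_of_subset (Finset.image_subset_image hV),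
    Finset.card_image_of_injOn (injT hT),
    Finset.card_image_of_injOn ((injT hT).mono (by exact_mod_cast hV))]

theorem amT {T : Finset ℕ} (hT : ∀ t ∈ T, Adm t) : ∀ w ∈ T.image Nat.primeFactors, am w := by
  intro w hw
  obtain ⟨t, ht, rfl⟩ := Finset.mem_image.1 hw
  exact am_pf (hT t ht)

/-- **the joint law** -/
theorem joint (hQ : ∀ D, Adm D → (Q D ↔ Gd n4 D.primeFactors)) {T V : Finset ℕ}
    (hT : ∀ t ∈ T, Adm t) (hV : V ⊆ T) :
    Tendsto (fun X : ℕ => cn (CX X) {v | ∀ t ∈ T, (SqP Q (t * nm v) ↔ t ∈ V)} /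
      ((CX X).card : ℝ)) atTop (𝓝 (c2 ^ V.card * (1 - c2) ^ (T.card - V.card))) := by
  have h := isLaw.ev (m := ∅) (fun p hp => absurd hp (notMem_empty p)) (amT hT)
    (Finset.image_subset_image hV)
  rw [pr_eq hT hV] at h
  refine h.congr fun X => ?_
  congr 1
  have key : ∀ v ∈ CX X, v ∈ Ev U (Gd n4) ∅ (T.image Nat.primeFactors)
      (V.image Nat.primeFactors) ↔ v ∈ {v | ∀ t ∈ T, (SqP Q (t * nm v) ↔ t ∈ V)} := by
    intro v hv
    have hc := (mem_CX'.1 hv).2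
    unfold Ev
    rw [Set.mem_ofPred_eq, Set.mem_ofPred_eq, Finset.forall_mem_image]
    refine forall₂_congr fun t ht => ?_
    obtain ⟨k, hk, h3⟩ := two hc (hT t ht)
    rw [sqP_iff hQ (am_symm (cls_am hc) (am_pf (hT t ht))) hk h3]
    have e : (∅ : Finset ℕ) ∆ t.primeFactors = t.primeFactors := by
      rw [← Finset.bot_eq_empty, bot_symmDiff]
    rw [e]
    refine iff_congr Iff.rfl ?_
    rw [Finset.mem_image]
    constructor
    · rintro ⟨t', ht', he⟩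
      rw [← injT hT (hV ht') ht he]
      exact ht'
    · intro h4
      exact ⟨t, h4, rfl⟩
  unfold cn
  congr 2
  ext v
  simp only [Finset.mem_filter]
  exact and_congr_right fun hv => key v hv

/-- **mixing** -/
theorem mixing (hQ : ∀ D, Adm D → (Q D ↔ Gd n4 D.primeFactors)) {A : Set (ℤ × ℤ)} {δ ε : ℝ}
    (hA : UD CX A δ) (hε : 0 < ε) {T V : Finset ℕ} (hT : ∀ t ∈ T, Adm t) (hV : V ⊆ T) :
    {m : ℕ | Adm m ∧ ¬ UD CX {v | v ∈ A ∧ ∀ t ∈ T, (SqP Q (nm v * m * t) ↔ t ∈ V)}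
      (c2 ^ V.card * (1 - c2) ^ (T.card - V.card) * δ - ε)}.Finite := by
  have hfin := isLaw.finite_exc (amT hT) (Finset.image_subset_image hV) hA hε
  rw [pr_eq hT hV] at hfin
  refine Set.Finite.of_injOn (f := Nat.primeFactors) ?_ ?_ hfin
  · rintro m ⟨hm, h1⟩
    refine ⟨am_pf hm, fun h2 => h1 ?_⟩
    intro η hη
    refine (h2 η hη).mono fun X hX => hX.trans (cn_le fun v hv hv2 => ?_)
    refine ⟨hv2.1, fun t ht => ?_⟩
    have hc := (mem_CX'.1 hv).2
    obtain ⟨k, hk, h3⟩ := three hc hm (hT t ht)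
    rw [sqP_iff hQ (am_symm (cls_am hc) (am_symm (am_pf hm) (am_pf (hT t ht)))) hk h3,
      hv2.2 _ (Finset.mem_image_of_mem _ ht), Finset.mem_image]
    constructor
    · rintro ⟨t', ht', he⟩
      rw [← injT hT (hV ht') ht he]
      exact ht'
    · intro h4
      exact ⟨t, h4, rfl⟩
  · rintro m ⟨hm, -⟩ n ⟨hn, -⟩ he
    rw [← Nat.prod_primeFactors_of_squarefree hm.1, ← Nat.prod_primeFactors_of_squarefree hn.1]
    exact congrArg (fun V : Finset ℕ => ∏ p ∈ V, p) he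

/-- **universality** -/
theorem universal (hQ : ∀ D, Adm D → (Q D ↔ Gd n4 D.primeFactors)) {A : Set (ℤ × ℤ)}
    (hA : Large CX A) (Φ : Set (Finset ℕ)) : ∃ z : ℕ → ℤ × ℤ, (∀ i, nm (z i) < nm (z (i + 1))) ∧
      (∀ i, z i ∈ A ∧ z i ∈ Cls) ∧
      (∀ S T : Finset ℕ, IsSquare ((∏ i ∈ S, nm (z i)) * ∏ i ∈ T, nm (z i)) → S = T) ∧
      ∀ S : Finset ℕ, 2 ≤ S.card → (SqP Q (∏ i ∈ S, nm (z i)) ↔ S ∈ Φ) := by
  obtain ⟨z, h1, h2, h3, h4⟩ := isLaw.universal hA Φ
  have hc : ∀ i, z i ∈ Cls := fun i => ex_CX.1 (h2 i).2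
  have ham : ∀ S : Finset ℕ, am (W (fun i => U (z i)) S) := fun S =>
    isLaw.adm_W S fun i _ => cls_am (hc i)
  refine ⟨z, h1, fun i => ⟨(h2 i).1, hc i⟩, fun S T hST => ?_, fun S hS => ?_⟩
  · obtain ⟨k, hk, a1⟩ := prods z S fun i _ => hc i
    obtain ⟨l, hl, a2⟩ := prods z T fun i _ => hc i
    obtain ⟨j, hj, a3⟩ := mul_mask (ham S) hk a1 hl a2
    obtain ⟨r, hr⟩ := hST
    rw [a3] at hr
    have ham2 := am_symm (ham S) (ham T)
    have hr0 : 0 < r := by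
      rcases Nat.eq_zero_or_pos r with h0 | h0
      · rw [h0, mul_zero] at hr
        have := Nat.mul_pos (prod_pos_of ham2) (pow_pos hj 2)
        omega
      · exact h0
    have a4 : (∏ p ∈ W (fun i => U (z i)) S ∆ W (fun i => U (z i)) T, p) = 1 :=
      sq_unique (adm_of_mask ham2).1.1 squarefree_one hj hr0 (by rw [hr]; ring)
    have a5 : W (fun i => U (z i)) S ∆ W (fun i => U (z i)) T = ∅ := by
      have := (adm_of_mask ham2).2
      rw [a4, Nat.primeFactors_one] at this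
      exact this.symm
    rw [← Finset.bot_eq_empty, symmDiff_eq_bot] at a5
    exact h3 S T a5
  · obtain ⟨k, hk, a1⟩ := prods z S fun i _ => hc i
    rw [sqP_iff hQ (ham S) hk a1]
    exact h4 S hS

/-! ### densities among all the lattice points -/

/-- the number of the lattice points of `A` of norm at most `X` -/
noncomputable def num (A : Set (ℤ × ℤ)) (X : ℕ) : ℕ := Nat.card {v : ℤ × ℤ // nm v ≤ X ∧ v ∈ A}

theorem num_eq (A : Set (ℤ × ℤ)) (X : ℕ) : num A X = ((Bx X).filter fun v => v ∈ A).card := by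
  unfold num
  refine Nat.subtype_card _ fun v => ?_
  rw [Finset.mem_filter, mem_Bx]

theorem num_univ (X : ℕ) : num Set.univ X = (Bx X).card := by
  rw [num_eq]
  congr 1
  ext v
  simp

theorem num_cls_inter (A : Set (ℤ × ℤ)) (X : ℕ) : (num (Cls ∩ A) X : ℝ) = cn (CX X) A := by
  rw [num_eq]
  unfold cn
  congr 2
  ext v
  simp only [Finset.mem_filter, mem_CX', mem_Bx, Set.mem_inter_iff]
  tauto

theorem num_cls (X : ℕ) : num Cls X = (CX X).card := by
  rw [num_eq]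
  congr 1
  ext v
  rw [Finset.mem_filter, mem_CX', mem_Bx]

/-- the proportion of the class -/
theorem cls_dens : Tendsto (fun X : ℕ => ((CX X).card : ℝ) / ((Bx X).card : ℝ)) atTop
    (𝓝 (2 / 3)) := by
  have har := Run7.h238.Disc.ar_pos
  have h := Run7.h238.Half.CX_tendsto.div Run7.h238.Disc.card_tendsto har.ne'
  rw [mul_div_assoc, div_self har.ne', mul_one] at h
  refine h.congr' ?_
  filter_upwards [eventually_ge_atTop 1] with X hX
  have hX0 : (X : ℝ) ≠ 0 := by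
    have : (0 : ℝ) < X := by exact_mod_cast hX
    exact this.ne'
  simp only [Pi.div_apply]
  exact div_div_div_cancel_right₀ hX0 _ _

theorem Bx_pos (X : ℕ) : (0 : ℝ) < ((Bx X).card : ℝ) := by
  have : (0, 0) ∈ Bx X := by
    rw [mem_Bx]
    exact Nat.zero_le _
  exact_mod_cast card_pos.2 ⟨_, this⟩

/-- from the class to all the lattice points -/
theorem to_all {u : ℕ → ℝ} {l : ℝ} (hu : Tendsto (fun X : ℕ => u X / ((CX X).card : ℝ)) atTop
    (𝓝 l)) : Tendsto (fun X : ℕ => u X / ((Bx X).card : ℝ)) atTop (𝓝 (2 / 3 * l)) := by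
  have h := hu.mul cls_dens
  rw [mul_comm] at h
  refine h.congr' ?_
  filter_upwards [isLaw.ne] with X hX
  have hX0 : ((CX X).card : ℝ) ≠ 0 := by
    have : (0 : ℝ) < ((CX X).card : ℝ) := by exact_mod_cast hX.card_pos
    exact this.ne'
  exact div_mul_div_cancel₀ hX0

/-- a set of lattice points of upper density more than `1 / 3` has positive upper density in the
class -/
theorem large_of_third {A : Set (ℤ × ℤ)} {δ : ℝ} (hδ : 1 / 3 < δ)
    (hA : ∀ ε : ℝ, 0 < ε → ∃ᶠ X : ℕ in atTop,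
      (δ - ε) * (num Set.univ X : ℝ) ≤ (num A X : ℝ)) : Large CX A := by
  refine ⟨(δ - 1 / 3) / 2, by linarith, fun ε hε => ?_⟩
  have h1 := cls_dens.eventually (lt_mem_nhds (show 2 / 3 - (δ - 1 / 3) / 8 < (2 / 3 : ℝ) by linarith))
  refine ((hA ((δ - 1 / 3) / 8) (by linarith)).and_eventually h1).mono ?_
  rintro X ⟨h2, h3⟩
  rw [lt_div_iff₀ (Bx_pos X)] at h3
  rw [num_univ] at h2
  have h4 : (num A X : ℝ) ≤ cn (CX X) A + (((Bx X).card : ℝ) - ((CX X).card : ℝ)) := by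
    have h5 : num A X ≤ num (Cls ∩ A) X + ((Bx X) \ (CX X)).card := by
      rw [num_eq, num_eq]
      refine (card_le_card fun v hv => ?_).trans (card_union_le _ _)
      rw [Finset.mem_filter] at hv
      simp only [Finset.mem_union, Finset.mem_filter, Finset.mem_sdiff, Set.mem_inter_iff]
      by_cases hc : v ∈ CX X
      · exact Or.inl ⟨hv.1, (mem_CX'.1 hc).2, hv.2⟩
      · exact Or.inr ⟨hv.1, hc⟩
    have h6 : (((Bx X) \ (CX X)).card : ℝ) = ((Bx X).card : ℝ) - ((CX X).card : ℝ) := by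
      rw [eq_sub_iff_add_eq]
      exact_mod_cast card_sdiff_add_card_eq_card (CX_sub X)
    have h7 : (num A X : ℝ) ≤ (num (Cls ∩ A) X : ℝ) + (((Bx X) \ (CX X)).card : ℝ) := by
      exact_mod_cast h5
    rw [h6, num_cls_inter] at h7
    exact h7
  have h8 : ((CX X).card : ℝ) ≤ ((Bx X).card : ℝ) := by exact_mod_cast card_le_card (CX_sub X)
  have h9 := Bx_pos X
  have h10 : (δ - (δ - 1 / 3) / 8) * ((Bx X).card : ℝ) - ((Bx X).card : ℝ) +
      (2 / 3 - (δ - 1 / 3) / 8) * ((Bx X).card : ℝ) =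
      (3 / 4 * (δ - 1 / 3)) * ((Bx X).card : ℝ) := by ring
  have h11 : ((δ - 1 / 3) / 2) * ((CX X).card : ℝ) ≤ (3 / 4 * (δ - 1 / 3)) * ((Bx X).card : ℝ) := by
    have h12 : 0 < δ - 1 / 3 := by linarith
    have h13 : (0 : ℝ) ≤ ((CX X).card : ℝ) := Nat.cast_nonneg _
    calc ((δ - 1 / 3) / 2) * ((CX X).card : ℝ) ≤ ((δ - 1 / 3) / 2) * ((Bx X).card : ℝ) :=
          mul_le_mul_of_nonneg_left h8 (by linarith)
      _ ≤ (3 / 4 * (δ - 1 / 3)) * ((Bx X).card : ℝ) :=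
          mul_le_mul_of_nonneg_right (by linarith) h9.le
  have h14 : 0 ≤ ε * ((CX X).card : ℝ) := by positivity
  have h15 : ((δ - 1 / 3) / 2 - ε) * ((CX X).card : ℝ) = ((δ - 1 / 3) / 2) * ((CX X).card : ℝ) -
      ε * ((CX X).card : ℝ) := by ring
  linarith

end Run7.h428.WM
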