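import Pool.Agent.Run7.h428.Uni

/-!
# Towers with all products good, for all the multipliers of a sequence at once

For every set `A` of positive upper density and every sequence of admissible masks `m j` there are
`d_0 < d_1 < ...` in `A`, with independent masks, such that `m j ∆ U d_{i_1} ∆ U d_{i_2} ∆ ...` has the
property `G` for all `j` and for all finite sets of at least two indices `i ≥ j`.
-/

set_option autoImplicit false

open scoped Classical symmDiff

namespace Run7.h428.Tow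

open Finset Filter Topology
open Run7.h428.Mix Run7.h428.Uni

variable {S : ℕ → Finset ℕ} {U : ℕ → Finset ℕ} {G : Finset ℕ → Prop} {adm : Finset ℕ → Prop} {c : ℝ}

/-- one of two complementary parts of a large set is large -/
theorem large_split {A : Set ℕ} (h : Large S A) (B : Set ℕ) : Large S (A ∩ B) ∨ Large S (A \ B) := by
  obtain ⟨δ, hδ, hA⟩ := h
  have h1 := hA (δ / 2) (by positivity)
  have h2 : ∃ᶠ X in atTop, ((δ / 4) * ((S X).card : ℝ) ≤ cn (S X) (A ∩ B)) ∨
      ((δ / 4) * ((S X).card : ℝ) ≤ cn (S X) (A \ B)) := by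
    refine h1.mono fun X hX => ?_
    by_contra hcon
    rw [not_or, not_le, not_le] at hcon
    have h3 : cn (S X) A ≤ cn (S X) (A ∩ B) + cn (S X) (A \ B) := by
      rw [cn_sum, cn_sum, cn_sum, ← sum_add_distrib]
      refine sum_le_sum fun D _ => ?_
      by_cases hA' : D ∈ A
      · by_cases hB : D ∈ B
        · rw [if_pos hA', if_pos (show D ∈ A ∩ B from ⟨hA', hB⟩),
            if_neg (show D ∉ A \ B from fun h => h.2 hB)]
          norm_num
        · rw [if_pos hA', if_neg (show D ∉ A ∩ B from fun h => hB h.2),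
            if_pos (show D ∈ A \ B from ⟨hA', hB⟩)]
          norm_num
      · rw [if_neg hA', if_neg (show D ∉ A ∩ B from fun h => hA' h.1),
          if_neg (show D ∉ A \ B from fun h => hA' h.1)]
        norm_num
    have h4 : (δ - δ / 2) * ((S X).card : ℝ) = (δ / 4) * ((S X).card : ℝ) +
        (δ / 4) * ((S X).card : ℝ) := by ring
    linarith [hcon.1, hcon.2]
  have h5 : ∀ C : Set ℕ, (∃ᶠ X in atTop, (δ / 4) * ((S X).card : ℝ) ≤ cn (S X) C) → Large S C := by
    intro C hC
    refine ⟨δ / 4, by positivity, fun ε hε => hC.mono fun X hX => le_trans ?_ hX⟩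
    exact mul_le_mul_of_nonneg_right (by linarith) (Nat.cast_nonneg _)
  rcases Filter.frequently_or_distrib.1 h2 with h6 | h6
  · exact Or.inl (h5 _ h6)
  · exact Or.inr (h5 _ h6)

/-- the masks used at the stage `n`: `m j ∆ W u T`, `j ≤ n`, `T` a set of indices `< n` -/
noncomputable def Ms (m : ℕ → Finset ℕ) (u : ℕ → Finset ℕ) (n : ℕ) : Finset (Finset ℕ) :=
  ((range (n + 1)) ×ˢ (range n).powerset).image fun q => m q.1 ∆ W u q.2

theorem mem_Ms {m u : ℕ → Finset ℕ} {n : ℕ} {x : Finset ℕ} :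
    x ∈ Ms m u n ↔ ∃ j ≤ n, ∃ T ⊆ range n, m j ∆ W u T = x := by
  unfold Ms
  rw [mem_image]
  constructor
  · rintro ⟨⟨j, T⟩, h1, h2⟩
    rw [mem_product, mem_range, mem_powerset] at h1
    exact ⟨j, Nat.lt_succ_iff.1 h1.1, T, h1.2, h2⟩
  · rintro ⟨j, hj, T, hT, h⟩
    refine ⟨(j, T), ?_, h⟩
    rw [mem_product, mem_range, mem_powerset]
    exact ⟨Nat.lt_succ_iff.2 hj, hT⟩

/-- the good next elements: `G` holds for all `m j ∆ W u T` with `T` nonempty and `j ≤ i` for all
`i ∈ T` -/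
def Gn (U : ℕ → Finset ℕ) (G : Finset ℕ → Prop) (m u : ℕ → Finset ℕ) (n : ℕ) : Set ℕ :=
  {D | ∀ T ⊆ range n, T.Nonempty → ∀ j, (∀ i ∈ T, j ≤ i) → G (U D ∆ (m j ∆ W u T))}

structure Inv (S : ℕ → Finset ℕ) (U : ℕ → Finset ℕ) (G : Finset ℕ → Prop)
    (adm : Finset ℕ → Prop) (A : Set ℕ) (m : ℕ → Finset ℕ) (n : ℕ) (u : ℕ → Finset ℕ) : Prop where
  ad : ∀ i < n, adm (u i)
  inj : ∀ T ⊆ range n, ∀ T' ⊆ range n, W u T = W u T' → T = T'
  lg : Large S (A ∩ Gn U G m u n)

theorem Inv.congr {A : Set ℕ} {m : ℕ → Finset ℕ} {n : ℕ} {u v : ℕ → Finset ℕ}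
    (h : Inv S U G adm A m n u) (huv : ∀ i < n, u i = v i) : Inv S U G adm A m n v := by
  have hW : ∀ T ⊆ range n, W u T = W v T := fun T hT =>
    W_congr fun i hi => huv i (mem_range.1 (hT hi))
  refine ⟨fun i hi => huv i hi ▸ h.ad i hi, fun T hT T' hT' he => ?_, ?_⟩
  · rw [← hW T hT, ← hW T' hT'] at he
    exact h.inj T hT T' hT' he
  · refine h.lg.mono (Set.inter_subset_inter_right A fun D hD T hT hne j hj => ?_)
    rw [← hW T hT]
    exact hD T hT hne j hj

theorem Law.step (h : Law S U G adm c) {A : Set ℕ} {m : ℕ → Finset ℕ} (hm : ∀ j, adm (m j))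
    {n : ℕ} {u : ℕ → Finset ℕ} (hI : Inv S U G adm A m n u) (B : ℕ) :
    ∃ D ∈ A, (∃ X, D ∈ S X) ∧ B < D ∧ D ∈ Gn U G m u n ∧
      Inv S U G adm A m (n + 1) (Function.update u n (U D)) := by
  set R : Finset (Finset ℕ) := Ms m u n with hRd
  have hadW : ∀ T ⊆ range n, adm (W u T) := fun T hT =>
    h.adm_W T fun i hi => hI.ad i (mem_range.1 (hT hi))
  have hR : ∀ w ∈ R, adm w := by
    intro w hw
    obtain ⟨j, -, T, hT, rfl⟩ := mem_Ms.1 hw
    exact h.admS _ _ (hm j) (hadW T hT)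
  have hfin : {x : Finset ℕ | adm x ∧ ¬ Large S ((A ∩ Gn U G m u n) ∩ Ev U G x R R)}.Finite :=
    h.large_exc hR (subset_refl R) hI.lg
  set EX := {x : Finset ℕ | adm x ∧ ¬ Large S ((A ∩ Gn U G m u n) ∩ Ev U G x R R)} with hEX
  set Q : Finset (Finset ℕ) := ((range n).powerset ×ˢ (range n).powerset).image
    fun q => W u q.1 ∆ W u q.2 with hQ
  have hfin2 : (EX ∪ (Q : Set (Finset ℕ))).Finite := hfin.union (finite_toSet _)
  have hfin3 : {D : ℕ | (∃ X, D ∈ S X) ∧ U D ∈ EX ∪ (Q : Set (Finset ℕ))}.Finite := by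
    refine Set.Finite.of_injOn (f := U) (fun D hD => hD.2) ?_ hfin2
    rintro D ⟨⟨X, hX⟩, -⟩ D' ⟨⟨X', hX'⟩, -⟩ he
    exact h.inj X X' D D' hX hX' he
  obtain ⟨D, hD1, ⟨X, hX⟩, hD3⟩ := h.large_inf hI.lg (hfin3.toFinset ∪ range (B + 1))
  rw [mem_union, not_or, Set.Finite.mem_toFinset, mem_range] at hD3
  have hDe : U D ∉ EX ∪ (Q : Set (Finset ℕ)) := fun h1 => hD3.1 ⟨⟨X, hX⟩, h1⟩
  have hD4 : U D ∉ EX := fun h1 => hDe (Or.inl h1)
  have hD5 : ∀ T ⊆ range n, ∀ T' ⊆ range n, W u T ∆ W u T' ≠ U D := fun T hT T' hT' he =>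
    hDe (Or.inr (by
      rw [mem_coe, hQ, mem_image]
      exact ⟨(T, T'), mem_product.2 ⟨mem_powerset.2 hT, mem_powerset.2 hT'⟩, he⟩))
  have hadm := h.admU X D hX
  refine ⟨D, hD1.1, ⟨X, hX⟩, by omega, hD1.2, ?_⟩
  have hnr : ∀ T ⊆ range n, n ∉ T := fun T hT h1 => lt_irrefl n (mem_range.1 (hT h1))
  have hW1 : ∀ T ⊆ range n, W (Function.update u n (U D)) T = W u T := fun T hT =>
    W_congr fun i hi => Function.update_of_ne (fun h1 : i = n => hnr T hT (h1 ▸ hi)) _ _
  have hW2 : ∀ T ⊆ range n, W (Function.update u n (U D)) (insert n T) = U D ∆ W u T := by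
    intro T hT
    rw [W_insert (hnr T hT), Function.update_self, hW1 T hT]
  have hsplit : ∀ T ⊆ range (n + 1), (T ⊆ range n) ∨ ∃ T' ⊆ range n, T = insert n T' := by
    intro T hT
    by_cases hn : n ∈ T
    · right
      refine ⟨T.erase n, fun i hi => ?_, (insert_erase hn).symm⟩
      rw [mem_erase] at hi
      have := mem_range.1 (hT hi.2)
      exact mem_range.2 (by omega)
    · left
      intro i hi
      have h1 := mem_range.1 (hT hi)
      have h2 : i ≠ n := fun h2 => hn (h2 ▸ hi)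
      exact mem_range.2 (by omega)
  refine ⟨fun i hi => ?_, fun T hT T' hT' he => ?_, ?_⟩
  · rcases Nat.lt_succ_iff_lt_or_eq.1 hi with h1 | h1
    · rw [Function.update_of_ne h1.ne]
      exact hI.ad i h1
    · rw [h1, Function.update_self]
      exact hadm
  · rcases hsplit T hT with h1 | ⟨T1, h1, rfl⟩
    · rcases hsplit T' hT' with h2 | ⟨T2, h2, rfl⟩
      · rw [hW1 T h1, hW1 T' h2] at he
        exact hI.inj T h1 T' h2 he
      · rw [hW1 T h1, hW2 T2 h2] at he
        refine absurd ?_ (hD5 T h1 T2 h2)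
        rw [he, symmDiff_symmDiff_cancel_right]
    · rcases hsplit T' hT' with h2 | ⟨T2, h2, rfl⟩
      · rw [hW2 T1 h1, hW1 T' h2] at he
        refine absurd ?_ (hD5 T' h2 T1 h1)
        rw [← he, symmDiff_symmDiff_cancel_right]
      · rw [hW2 T1 h1, hW2 T2 h2] at he
        rw [hI.inj T1 h1 T2 h2 (symm_cancel he)]
  · have hlarge : Large S ((A ∩ Gn U G m u n) ∩ Ev U G (U D) R R) := by
      by_contra hcon
      exact hD4 ⟨hadm, hcon⟩
    refine hlarge.mono ?_
    rintro D' ⟨⟨a1, a2⟩, a3⟩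
    refine ⟨a1, fun T hT hne j hj => ?_⟩
    rcases hsplit T hT with h1 | ⟨T1, h1, rfl⟩
    · rw [hW1 T h1]
      exact a2 T h1 hne j hj
    · rw [hW2 T1 h1]
      have hjn : j ≤ n := hj n (mem_insert_self n T1)
      have h3 : m j ∆ W u T1 ∈ R := mem_Ms.2 ⟨j, hjn, T1, h1, rfl⟩
      have h4 := (a3 _ h3).2 h3
      have e : m j ∆ (U D ∆ W u T1) = U D ∆ (m j ∆ W u T1) := symmDiff_left_comm _ _ _
      rw [e]
      exact h4

/-- the conditions on the next number -/
structure Next (S : ℕ → Finset ℕ) (U : ℕ → Finset ℕ) (G : Finset ℕ → Prop)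
    (adm : Finset ℕ → Prop) (A : Set ℕ) (m : ℕ → Finset ℕ) (n : ℕ) (d : ℕ → ℕ) (D : ℕ) :
    Prop where
  mem : D ∈ A
  cls : ∃ X, D ∈ S X
  lt : ∀ i < n, d i < D
  gd : D ∈ Gn U G m (fun i => U (d i)) n
  inv : Inv S U G adm A m (n + 1) (Function.update (fun i => U (d i)) n (U D))

theorem Next.congr {A : Set ℕ} {m : ℕ → Finset ℕ} {n : ℕ} {d e : ℕ → ℕ} {D : ℕ}
    (h : Next S U G adm A m n d D) (hde : ∀ i < n, d i = e i) : Next S U G adm A m n e D := by
  refine ⟨h.mem, h.cls, fun i hi => hde i hi ▸ h.lt i hi, fun T hT hne j hj => ?_, ?_⟩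
  · have : W (fun i => U (e i)) T = W (fun i => U (d i)) T := W_congr fun i hi => by
      simp only [hde i (mem_range.1 (hT hi))]
    rw [this]
    exact h.gd T hT hne j hj
  · refine h.inv.congr fun i hi => ?_
    rcases Nat.lt_succ_iff_lt_or_eq.1 hi with h1 | h1
    · rw [Function.update_of_ne h1.ne, Function.update_of_ne h1.ne, hde i h1]
    · rw [h1, Function.update_self, Function.update_self]

theorem Law.exists_next (h : Law S U G adm c) {A : Set ℕ} {m : ℕ → Finset ℕ}
    (hm : ∀ j, adm (m j)) {n : ℕ} {d : ℕ → ℕ} (hI : Inv S U G adm A m n fun i => U (d i)) :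
    ∃ D, Next S U G adm A m n d D := by
  obtain ⟨D, h1, h2, h3, h4, h5⟩ := Law.step h hm hI (∑ i ∈ range n, d i)
  refine ⟨D, h1, h2, fun i hi => ?_, h4, h5⟩
  have := Finset.single_le_sum (f := d) (fun j _ => Nat.zero_le _) (mem_range.2 hi)
  omega

/-- the sequence -/
noncomputable def dd (S : ℕ → Finset ℕ) (U : ℕ → Finset ℕ) (G : Finset ℕ → Prop)
    (adm : Finset ℕ → Prop) (A : Set ℕ) (m : ℕ → Finset ℕ) (n : ℕ) : ℕ :=
  if h : ∃ D, Next S U G adm A m n (Uni.ext n fun i : Fin n => dd S U G adm A m i) D then h.choose else 0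
termination_by n
decreasing_by all_goals exact i.2

theorem Law.dd_inv (h : Law S U G adm c) {A : Set ℕ} (hA : Large S A) {m : ℕ → Finset ℕ}
    (hm : ∀ j, adm (m j)) (n : ℕ) : Inv S U G adm A m n (fun i => U (dd S U G adm A m i)) ∧
      Next S U G adm A m n (dd S U G adm A m) (dd S U G adm A m n) := by
  have key : ∀ n, Inv S U G adm A m n (fun i => U (dd S U G adm A m i)) →
      Next S U G adm A m n (dd S U G adm A m) (dd S U G adm A m n) := by
    intro n hI
    have he : ∀ i < n, (Uni.ext n fun i : Fin n => dd S U G adm A m i) i = dd S U G adm A m i := by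
      intro i hi
      unfold Uni.ext
      rw [dif_pos hi]
    have h1 : ∃ D, Next S U G adm A m n (Uni.ext n fun i : Fin n => dd S U G adm A m i) D :=
      Law.exists_next h hm (hI.congr fun i hi => by rw [he i hi])
    have h2 : Next S U G adm A m n (Uni.ext n fun i : Fin n => dd S U G adm A m i)
        (dd S U G adm A m n) := by
      have h3 : dd S U G adm A m n = h1.choose := by
        rw [dd, dif_pos h1]
      rw [h3]
      exact h1.choose_spec
    exact h2.congr he
  suffices hs : ∀ n, Inv S U G adm A m n (fun i => U (dd S U G adm A m i)) from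
    ⟨hs n, key n (hs n)⟩
  intro n
  induction n with
  | zero =>
    refine ⟨fun i hi => absurd hi (Nat.not_lt_zero i), fun T hT T' hT' _ => ?_, ?_⟩
    · rw [range_zero, subset_empty] at hT hT'
      rw [hT, hT']
    · refine hA.mono fun D hD => ⟨hD, fun T hT hne => ?_⟩
      rw [range_zero, subset_empty] at hT
      exact absurd hne (hT ▸ not_nonempty_empty)
  | succ n ih =>
    refine (key n ih).inv.congr fun i _ => ?_
    by_cases h1 : i = n
    · rw [h1, Function.update_self]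
    · rw [Function.update_of_ne h1]

/-- **Towers in every set of positive upper density, for all the multipliers `m j` at once.** -/
theorem Law.tower (h : Law S U G adm c) {A : Set ℕ} (hA : Large S A) {m : ℕ → Finset ℕ}
    (hm : ∀ j, adm (m j)) :
    ∃ d : ℕ → ℕ, StrictMono d ∧ (∀ i, d i ∈ A ∧ ∃ X, d i ∈ S X) ∧
      (∀ T T' : Finset ℕ, W (fun i => U (d i)) T = W (fun i => U (d i)) T' → T = T') ∧
      ∀ (j : ℕ) (T : Finset ℕ), (∀ i ∈ T, j ≤ i) → 2 ≤ T.card →
        G (m j ∆ W (fun i => U (d i)) T) := by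
  refine ⟨dd S U G adm A m, strictMono_nat_of_lt_succ fun n =>
    ((Law.dd_inv h hA hm (n + 1)).2.lt n (Nat.lt_succ_self n)), fun i =>
    ⟨(Law.dd_inv h hA hm i).2.mem, (Law.dd_inv h hA hm i).2.cls⟩, fun T T' he => ?_,
    fun j T hj hT => ?_⟩
  · obtain ⟨n, hn⟩ : ∃ n, T ∪ T' ⊆ range n := by
      refine ⟨(T ∪ T').sup id + 1, fun i hi => ?_⟩
      have := Finset.le_sup (f := id) hi
      exact mem_range.2 (Nat.lt_succ_of_le this)
    exact (Law.dd_inv h hA hm n).1.inj T (subset_union_left.trans hn) T'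
      (subset_union_right.trans hn) he
  have hne : T.Nonempty := by
    rw [← card_pos]
    omega
  obtain ⟨n, hn⟩ : ∃ n, n = T.max' hne := ⟨_, rfl⟩
  have hnT : n ∈ T := by rw [hn]; exact max'_mem T hne
  have hsub : T.erase n ⊆ range n := by
    intro i hi
    rw [mem_erase] at hi
    have : i ≤ n := by rw [hn]; exact le_max' T i hi.2
    exact mem_range.2 (by omega)
  have hne' : (T.erase n).Nonempty := by
    rw [← card_pos, card_erase_of_mem hnT]
    omega
  have h1 := (Law.dd_inv h hA hm n).2.gd (T.erase n) hsub hne' j fun i hi =>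
    hj i (mem_of_mem_erase hi)
  have h2 := W_insert (u := fun i => U (dd S U G adm A m i)) (notMem_erase n T)
  rw [insert_erase hnT] at h2
  rw [h2]
  have e : m j ∆ (U (dd S U G adm A m n) ∆ W (fun i => U (dd S U G adm A m i)) (T.erase n)) =
      U (dd S U G adm A m n) ∆ (m j ∆ W (fun i => U (dd S U G adm A m i)) (T.erase n)) :=
    symmDiff_left_comm _ _ _
  rw [e]
  exact h1

end Run7.h428.Tow
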