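import Pool.Agent.Run7.h428.Inst
import Pool.Agent.Run7.h428.Tow
import Pool.Agent.Run7.h359.Cw

/-!
# Good pairs from dense sets
-/

set_option autoImplicit false

open scoped Classical symmDiff

namespace Run7.h428.Gp

open Finset Filter Topology
open Run7.h428.Mix Run7.h428.Uni Run7.h428.Inst Run7.h428.Tow
open Pool.Agent.R413.SQ
open Pool.Agent.Y698.SG (n4)
open Pool.Agent.Results.MP_4a9ea6_nt.TwoPartTwistsX49 (Adm TwoPart)
open Pool.Agent.Results.MP_92892c_nt.FullClassTwoPartX49 (two_sel two_gd)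
open Pool.Agent.Results.MP_787500_nt.AllWeightsMultiquadraticX49 (RankZeroShaTwo Ind)
open Run7.h359.WD (W8 GoodW)

/-- the products `d j * d (j + 1 + i)`, `i < n` -/
def prs (d : ℕ → ℕ) (j n : ℕ) : Fin n → ℕ := fun i => d j * d (j + 1 + i)

/-- the indices of a product of the `d j * d (j + 1 + i)`, `i ∈ T` -/
noncomputable def ind (j : ℕ) {n : ℕ} (T : Finset (Fin n)) : Finset ℕ :=
  if Even T.card then T.image fun i : Fin n => j + 1 + (i : ℕ) else insert j (T.image fun i : Fin n => j + 1 + (i : ℕ))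

theorem inj_ix (j n : ℕ) : Function.Injective fun i : Fin n => j + 1 + (i : ℕ) := by
  intro a b h
  have h' : j + 1 + (a : ℕ) = j + 1 + (b : ℕ) := h
  exact Fin.ext (by omega)

theorem card_im (j : ℕ) {n : ℕ} (T : Finset (Fin n)) :
    (T.image fun i : Fin n => j + 1 + (i : ℕ)).card = T.card := card_image_of_injective _ (inj_ix j n)

theorem notMem_im (j : ℕ) {n : ℕ} (T : Finset (Fin n)) :
    j ∉ T.image fun i : Fin n => j + 1 + (i : ℕ) := by
  intro h
  obtain ⟨i, -, h1⟩ := mem_image.1 h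
  omega

theorem ind_ge (j : ℕ) {n : ℕ} (T : Finset (Fin n)) : ∀ i ∈ ind j T, j ≤ i := by
  intro i hi
  unfold ind at hi
  have h1 : ∀ i ∈ T.image fun i : Fin n => j + 1 + (i : ℕ), j ≤ i := by
    intro i hi
    obtain ⟨k, -, h2⟩ := mem_image.1 hi
    omega
  by_cases hT : Even T.card
  · rw [if_pos hT] at hi
    exact h1 i hi
  · rw [if_neg hT] at hi
    rcases mem_insert.1 hi with h2 | h2
    · omega
    · exact h1 i h2

theorem ind_card (j : ℕ) {n : ℕ} {T : Finset (Fin n)} (hT : T.Nonempty) :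
    2 ≤ (ind j T).card ∧ Even (ind j T).card := by
  have h0 : 0 < T.card := card_pos.2 hT
  unfold ind
  by_cases h1 : Even T.card
  · rw [if_pos h1, card_im]
    refine ⟨?_, h1⟩
    obtain ⟨k, hk⟩ := h1
    omega
  · rw [if_neg h1, card_insert_of_notMem (notMem_im j T), card_im]
    refine ⟨by omega, ?_⟩
    rw [Nat.even_add_one]
    exact h1

theorem ind_empty (j : ℕ) {n : ℕ} : ind j (∅ : Finset (Fin n)) = ∅ := by
  unfold ind
  simp

theorem prod_prs (d : ℕ → ℕ) (j : ℕ) {n : ℕ} (T : Finset (Fin n)) :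
    ∏ i ∈ T, prs d j n i = (∏ i ∈ ind j T, d i) * (d j ^ (T.card / 2)) ^ 2 := by
  have h1 : ∏ i ∈ T, prs d j n i = d j ^ T.card * ∏ i ∈ T.image (fun i : Fin n => j + 1 + (i : ℕ)), d i := by
    rw [prod_image fun a _ b _ h => inj_ix j n h]
    unfold prs
    rw [prod_mul_distrib, prod_const]
  rw [h1]
  unfold ind
  by_cases h2 : Even T.card
  · rw [if_pos h2]
    obtain ⟨k, hk⟩ := h2
    have h3 : T.card / 2 = k := by omega
    rw [h3, hk]
    ring
  · rw [if_neg h2, prod_insert (notMem_im j T)]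
    rw [Nat.not_even_iff_odd] at h2
    obtain ⟨k, hk⟩ := h2
    have h3 : T.card / 2 = k := by omega
    rw [h3, hk]
    ring

/-- the multipliers -/
noncomputable def mul (j : ℕ) : Finset ℕ :=
  if W8 (j + 1) ∧ RankZeroShaTwo (j + 1) then (j + 1).primeFactors else ∅

theorem adm_of_w8 {D : ℕ} (h : W8 D) : Adm D :=
  ⟨h.1, fun p hp => h.2.2 p (Nat.prime_of_mem_primeFactors hp) (Nat.dvd_of_mem_primeFactors hp)⟩

theorem am_mul (j : ℕ) : am (mul j) := by
  unfold mul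
  by_cases h : W8 (j + 1) ∧ RankZeroShaTwo (j + 1)
  · rw [if_pos h]
    exact am_pf (adm_of_w8 h.1)
  · rw [if_neg h]
    intro p hp
    exact absurd hp (notMem_empty p)

/-- **good pairs and independence** -/
theorem good_of {d : ℕ → ℕ} (hc : ∀ i, Adm (d i)) (h8 : ∀ a b, d a * d b % 8 = 1)
    (hg : ∀ (j : ℕ) (T : Finset ℕ), (∀ i ∈ T, j ≤ i) → 2 ≤ T.card →
      Gd n4 (mul j ∆ W (fun i => (d i).primeFactors) T))
    {M : ℕ} (hM : W8 M) (hR : RankZeroShaTwo M) (n : ℕ) : GoodW M (prs d (M - 1) n) := by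
  intro T
  have hM0 : 0 < M := Nat.pos_of_ne_zero hM.1.ne_zero
  rcases T.eq_empty_or_nonempty with rfl | hT
  · exact ⟨M, 1, one_ne_zero, hM, hR, by simp⟩
  · obtain ⟨h1, h2⟩ := ind_card (M - 1) hT
    have h3 := hg (M - 1) (ind (M - 1) T) (ind_ge (M - 1) T) h1
    have hm : mul (M - 1) = M.primeFactors := by
      unfold mul
      rw [Nat.sub_add_cancel hM0, if_pos ⟨hM, hR⟩]
    rw [hm] at h3
    set V := M.primeFactors ∆ W (fun i => (d i).primeFactors) (ind (M - 1) T) with hV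
    have hamW : am (W (fun i => (d i).primeFactors) (ind (M - 1) T)) :=
      isLaw.adm_W _ fun i _ => am_pf (hc i)
    have hamV : am V := am_symm (am_pf (adm_of_w8 hM)) hamW
    obtain ⟨h4, h5⟩ := adm_of_mask hamV
    obtain ⟨k, hk, h6⟩ := prod_mask d (ind (M - 1) T) fun i _ => hc i
    have h7 := Pool.Agent.R426.QB.prod_symmDiff_nat M.primeFactors
      (W (fun i => (d i).primeFactors) (ind (M - 1) T))
    rw [Nat.prod_primeFactors_of_squarefree hM.1, ← hV] at h7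
    set I := ∏ p ∈ M.primeFactors ∩ W (fun i => (d i).primeFactors) (ind (M - 1) T), p with hI
    have hI0 : 0 < I := prod_pos fun p hp =>
      (Nat.prime_of_mem_primeFactors (mem_inter.1 hp).1).pos
    have hd0 : 0 < d (M - 1) := Nat.pos_of_ne_zero (hc _).1.ne_zero
    have h8' : M * ∏ i ∈ T, prs d (M - 1) n i =
        (∏ p ∈ V, p) * (I * k * d (M - 1) ^ (T.card / 2)) ^ 2 := by
      rw [prod_prs, h6]
      calc _ = (M * ∏ p ∈ W (fun i => (d i).primeFactors) (ind (M - 1) T), p) * k ^ 2 *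
            (d (M - 1) ^ (T.card / 2)) ^ 2 := by ring
        _ = _ := by rw [h7]; ring
    have hmod : (M * ∏ i ∈ T, prs d (M - 1) n i) % 8 = 1 := by
      have e1 : (∏ i ∈ T, prs d (M - 1) n i) % 8 = 1 := by
        have e2 : ∀ i ∈ T, prs d (M - 1) n i % 8 = 1 := fun i _ => h8 (M - 1) (M - 1 + 1 + i)
        rw [Finset.prod_nat_mod, Finset.prod_congr rfl e2]
        simp
      rw [Nat.mul_mod, e1, hM.2.1]
    have h9 : (∏ p ∈ V, p) % 8 = 1 := Run7.h359.CW.mod_cancel h8' hmod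
    refine ⟨∏ p ∈ V, p, I * k * d (M - 1) ^ (T.card / 2), by positivity,
      Run7.h359.CW.fam_w' h4 h9, ?_, h8'⟩
    refine Run7.h359.CT.R_R (by omega) ((two_sel h4).1 ((two_gd h4).2 ?_))
    rw [h5]
    exact h3

theorem indep {d : ℕ → ℕ} (hc : ∀ i, Adm (d i))
    (hW : ∀ T T' : Finset ℕ, W (fun i => (d i).primeFactors) T =
      W (fun i => (d i).primeFactors) T' → T = T') (j n : ℕ) : Ind (prs d j n) := by
  intro T hT ⟨r, hr⟩
  obtain ⟨h1, h2⟩ := ind_card j hT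
  obtain ⟨k, hk, h3⟩ := prod_mask d (ind j T) fun i _ => hc i
  have hamW : am (W (fun i => (d i).primeFactors) (ind j T)) :=
    isLaw.adm_W _ fun i _ => am_pf (hc i)
  obtain ⟨h4, h5⟩ := adm_of_mask hamW
  have hd0 : 0 < d j := Nat.pos_of_ne_zero (hc _).1.ne_zero
  rw [prod_prs, h3] at hr
  have h6 : (∏ p ∈ W (fun i => (d i).primeFactors) (ind j T), p) * (k * d j ^ (T.card / 2)) ^ 2 =
      1 * r ^ 2 := by
    calc _ = (∏ p ∈ W (fun i => (d i).primeFactors) (ind j T), p) * k ^ 2 *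
          (d j ^ (T.card / 2)) ^ 2 := by ring
      _ = _ := by rw [hr]; ring
  have hr0 : 0 < r := by
    rcases Nat.eq_zero_or_pos r with h0 | h0
    · rw [h0] at h6
      have hP0 : 0 < ∏ p ∈ W (fun i => (d i).primeFactors) (ind j T), p :=
        Nat.pos_of_ne_zero h4.1.ne_zero
      have : 0 < (∏ p ∈ W (fun i => (d i).primeFactors) (ind j T), p) *
        (k * d j ^ (T.card / 2)) ^ 2 := by positivity
      omega
    · exact h0
  have h7 := sq_unique h4.1 squarefree_one (by positivity) hr0 h6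
  have h8 : W (fun i => (d i).primeFactors) (ind j T) = ∅ := by
    rw [← h5, h7, Nat.primeFactors_one]
  have h9 := hW (ind j T) ∅ (by rw [h8, W_empty])
  rw [h9] at h1
  simp at h1

/-- a residue class modulo `8` -/
theorem mod8 {A : Set ℕ} (hA : Large SC A) : ∃ B ⊆ A, Large SC B ∧
    ∀ a ∈ B, ∀ b ∈ B, Adm a → Adm b → a * b % 8 = 1 := by
  have h4 : ∀ a, Adm a → a % 4 = 1 := fun a ha => Run7.h359.CT.fam_mod ha
  rcases large_split hA {D | D % 8 = 1} with h | h
  · refine ⟨_, Set.inter_subset_left, h, ?_⟩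
    rintro a ⟨-, ha⟩ b ⟨-, hb⟩ - -
    have ha' : a % 8 = 1 := ha
    have hb' : b % 8 = 1 := hb
    rw [Nat.mul_mod, ha', hb']
  · refine ⟨_, Set.sdiff_subset, h, ?_⟩
    rintro a ⟨-, ha⟩ b ⟨-, hb⟩ h1 h2
    have ha' : a % 8 ≠ 1 := ha
    have hb' : b % 8 ≠ 1 := hb
    have h3 := h4 a h1
    have h5 := h4 b h2
    have ha5 : a % 8 = 5 := by omega
    have hb5 : b % 8 = 5 := by omega
    rw [Nat.mul_mod, ha5, hb5]

/-- **good pairs from dense sets** -/
theorem dense {A : Set ℕ} (hA : Large SC A) : ∃ d : ℕ → ℕ, StrictMono d ∧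
    (∀ i, d i ∈ A ∧ Adm (d i)) ∧ ∀ M : ℕ, W8 M → RankZeroShaTwo M → ∀ n : ℕ,
      Ind (prs d (M - 1) n) ∧ GoodW M (prs d (M - 1) n) := by
  obtain ⟨B, hBA, hB, h8⟩ := mod8 hA
  obtain ⟨d, h1, h2, h3, h4⟩ := Law.tower isLaw hB (m := mul) am_mul
  have hc : ∀ i, Adm (d i) := fun i => adm_ex.1 (h2 i).2
  refine ⟨d, h1, fun i => ⟨hBA (h2 i).1, hc i⟩, fun M hM hR n =>
    ⟨indep hc h3 _ n, good_of hc (fun a b => h8 _ (h2 a).1 _ (h2 b).1 (hc a) (hc b)) h4 hM hR n⟩⟩

end Run7.h428.Gp
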