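import Pool.Agent.Run7.h428.Mix

/-!
# Every set of positive upper density realises every pattern

`U D` is a finite set (a mask), `G` a property of masks, and for finitely many masks `V` the events
`G (U D ∆ V)` are asymptotically independent with probability `c`. Then every set `A` of positive upper
density contains `d_0 < d_1 < ...` such that for all finite sets `T` with at least two elements the mask
`U d_{i_1} ∆ U d_{i_2} ∆ ...`, `i ∈ T`, has the property `G` if and only if `T ∈ Φ`, for a given set `Φ` of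
finite sets.
-/

set_option autoImplicit false

open scoped Classical symmDiff

namespace Run7.h428.Uni

open Finset Filter Topology
open Run7.h428.Mix

/-- the symmetric difference of the masks `u i`, `i ∈ T` -/
noncomputable def W (u : ℕ → Finset ℕ) (T : Finset ℕ) : Finset ℕ :=
  (T.biUnion u).filter fun p => Odd (T.filter fun i => p ∈ u i).card

theorem mem_W {u : ℕ → Finset ℕ} {T : Finset ℕ} {p : ℕ} :
    p ∈ W u T ↔ Odd (T.filter fun i => p ∈ u i).card := by
  unfold W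
  rw [mem_filter, and_iff_right_iff_imp]
  intro h
  have h1 : (T.filter fun i => p ∈ u i).Nonempty := by
    rw [← card_pos]
    exact h.pos
  obtain ⟨i, hi⟩ := h1
  rw [mem_filter] at hi
  exact mem_biUnion.2 ⟨i, hi.1, hi.2⟩

theorem W_empty (u : ℕ → Finset ℕ) : W u ∅ = ∅ := by
  ext p
  rw [mem_W]
  simp

theorem W_congr {u v : ℕ → Finset ℕ} {T : Finset ℕ} (h : ∀ i ∈ T, u i = v i) : W u T = W v T := by
  ext p
  rw [mem_W, mem_W]
  have : (T.filter fun i => p ∈ u i) = T.filter fun i => p ∈ v i :=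
    filter_congr fun i hi => by rw [h i hi]
  rw [this]

theorem W_insert {u : ℕ → Finset ℕ} {T : Finset ℕ} {n : ℕ} (hn : n ∉ T) :
    W u (insert n T) = u n ∆ W u T := by
  ext p
  rw [mem_symmDiff, mem_W, mem_W, filter_insert]
  by_cases hp : p ∈ u n
  · rw [if_pos hp, card_insert_of_notMem (fun h => hn (mem_filter.1 h).1)]
    simp only [hp, true_and, not_true_eq_false, and_false, or_false]
    rw [Nat.odd_add_one]
  · rw [if_neg hp]
    simp [hp]

theorem symm_cancel {a b m : Finset ℕ} (h : m ∆ a = m ∆ b) : a = b := by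
  have h1 : m ∆ (m ∆ a) = m ∆ (m ∆ b) := by rw [h]
  rwa [symmDiff_symmDiff_cancel_left, symmDiff_symmDiff_cancel_left] at h1

/-- the event with the pattern `V` for the masks in `R`, translated by `m` -/
def Ev (U : ℕ → Finset ℕ) (G : Finset ℕ → Prop) (m : Finset ℕ) (R V : Finset (Finset ℕ)) : Set ℕ :=
  {D | ∀ w ∈ R, (G (U D ∆ (m ∆ w)) ↔ w ∈ V)}

/-- the law -/
structure Law (S : ℕ → Finset ℕ) (U : ℕ → Finset ℕ) (G : Finset ℕ → Prop)
    (adm : Finset ℕ → Prop) (c : ℝ) : Prop where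
  inf : Tendsto (fun X => ((S X).card : ℝ)) atTop atTop
  c0 : 0 < c
  c1 : c < 1
  adm0 : adm ∅
  admS : ∀ V V', adm V → adm V' → adm (V ∆ V')
  admU : ∀ X, ∀ D ∈ S X, adm (U D)
  inj : ∀ X X' D D', D ∈ S X → D' ∈ S X' → U D = U D' → D = D'
  law : ∀ P Q : Finset (Finset ℕ), (∀ V ∈ P, adm V) → (∀ V ∈ Q, adm V) → Disjoint P Q →
    Tendsto (fun X => cn (S X) {D | (∀ V ∈ P, G (U D ∆ V)) ∧ ∀ V ∈ Q, ¬ G (U D ∆ V)} /
      ((S X).card : ℝ)) atTop (𝓝 (c ^ P.card * (1 - c) ^ Q.card))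

variable {S : ℕ → Finset ℕ} {U : ℕ → Finset ℕ} {G : Finset ℕ → Prop} {adm : Finset ℕ → Prop} {c : ℝ}

theorem Law.ne (h : Law S U G adm c) : ∀ᶠ X in atTop, (S X).Nonempty := by
  filter_upwards [h.inf.eventually_gt_atTop 0] with X hX
  rw [← card_pos]
  exact_mod_cast hX

/-- the probability of a pattern -/
noncomputable def pr (c : ℝ) (R V : Finset (Finset ℕ)) : ℝ := c ^ V.card * (1 - c) ^ (R \ V).card

theorem Law.pr_pos (h : Law S U G adm c) (R V : Finset (Finset ℕ)) : 0 < pr c R V :=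
  mul_pos (pow_pos h.c0 _) (pow_pos (by linarith [h.c1]) _)

theorem Law.pr_le (h : Law S U G adm c) (R V : Finset (Finset ℕ)) : pr c R V ≤ 1 :=
  mul_le_one₀ (pow_le_one₀ h.c0.le h.c1.le) (pow_nonneg (by linarith [h.c1]) _)
    (pow_le_one₀ (by linarith [h.c1]) (by linarith [h.c0]))

/-- the translates of a set of masks -/
noncomputable def tr (m : Finset ℕ) (R : Finset (Finset ℕ)) : Finset (Finset ℕ) :=
  R.image fun w => m ∆ w

theorem card_tr (m : Finset ℕ) (R : Finset (Finset ℕ)) : (tr m R).card = R.card :=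
  card_image_of_injective _ fun _ _ h => symm_cancel h

theorem mem_tr {m x : Finset ℕ} {R : Finset (Finset ℕ)} : x ∈ tr m R ↔ ∃ w ∈ R, m ∆ w = x :=
  mem_image

theorem Ev_eq {m : Finset ℕ} {R V : Finset (Finset ℕ)} (hV : V ⊆ R) : Ev U G m R V =
    {D | (∀ x ∈ tr m V, G (U D ∆ x)) ∧ ∀ x ∈ tr m (R \ V), ¬ G (U D ∆ x)} := by
  ext D
  constructor
  · intro h
    refine ⟨fun x hx => ?_, fun x hx => ?_⟩
    · obtain ⟨w, hw, rfl⟩ := mem_tr.1 hx
      exact (h w (hV hw)).2 hw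
    · obtain ⟨w, hw, rfl⟩ := mem_tr.1 hx
      have hw' := mem_sdiff.1 hw
      exact fun h1 => hw'.2 ((h w hw'.1).1 h1)
  · rintro ⟨h1, h2⟩ w hw
    by_cases hwV : w ∈ V
    · exact ⟨fun _ => hwV, fun _ => h1 _ (mem_tr.2 ⟨w, hwV, rfl⟩)⟩
    · exact ⟨fun h3 => absurd h3 (h2 _ (mem_tr.2 ⟨w, mem_sdiff.2 ⟨hw, hwV⟩, rfl⟩)),
        fun h3 => absurd h3 hwV⟩

theorem Law.ev (h : Law S U G adm c) {m : Finset ℕ} {R V : Finset (Finset ℕ)} (hm : adm m)
    (hR : ∀ w ∈ R, adm w) (hV : V ⊆ R) :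
    Tendsto (fun X => cn (S X) (Ev U G m R V) / ((S X).card : ℝ)) atTop (𝓝 (pr c R V)) := by
  have h1 := h.law (tr m V) (tr m (R \ V)) (fun x hx => by
    obtain ⟨w, hw, rfl⟩ := mem_tr.1 hx
    exact h.admS _ _ hm (hR w (hV hw))) (fun x hx => by
    obtain ⟨w, hw, rfl⟩ := mem_tr.1 hx
    exact h.admS _ _ hm (hR w (mem_sdiff.1 hw).1)) (by
    rw [disjoint_left]
    intro x hx hx'
    obtain ⟨w, hw, rfl⟩ := mem_tr.1 hx
    obtain ⟨w', hw', he⟩ := mem_tr.1 hx'
    have := symm_cancel he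
    rw [this] at hw'
    exact (mem_sdiff.1 hw').2 hw)
  rw [card_tr, card_tr] at h1
  rw [Ev_eq hV]
  exact h1

theorem Law.ev2 (h : Law S U G adm c) {m m' : Finset ℕ} {R V : Finset (Finset ℕ)} (hm : adm m)
    (hm' : adm m') (hR : ∀ w ∈ R, adm w) (hV : V ⊆ R)
    (hmm : ∀ w ∈ R, ∀ w' ∈ R, m ∆ w ≠ m' ∆ w') :
    Tendsto (fun X => cn (S X) (Ev U G m R V ∩ Ev U G m' R V) / ((S X).card : ℝ)) atTop
      (𝓝 (pr c R V * pr c R V)) := by
  have hd : ∀ A B : Finset (Finset ℕ), A ⊆ R → B ⊆ R → Disjoint (tr m A) (tr m' B) := by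
    intro A B hA hB
    rw [disjoint_left]
    intro x hx hx'
    obtain ⟨w, hw, rfl⟩ := mem_tr.1 hx
    obtain ⟨w', hw', he⟩ := mem_tr.1 hx'
    exact hmm w (hA hw) w' (hB hw') he.symm
  have hs : ∀ n : Finset ℕ, Disjoint (tr n V) (tr n (R \ V)) := by
    intro n
    rw [disjoint_left]
    intro x hx hx'
    obtain ⟨w, hw, rfl⟩ := mem_tr.1 hx
    obtain ⟨w', hw', he⟩ := mem_tr.1 hx'
    have := symm_cancel he
    rw [this] at hw'
    exact (mem_sdiff.1 hw').2 hw
  have hadm : ∀ n : Finset ℕ, adm n → ∀ A : Finset (Finset ℕ), A ⊆ R → ∀ x ∈ tr n A, adm x := by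
    intro n hn A hA x hx
    obtain ⟨w, hw, rfl⟩ := mem_tr.1 hx
    exact h.admS _ _ hn (hR w (hA hw))
  have hQ : R \ V ⊆ R := sdiff_subset
  have h1 := h.law (tr m V ∪ tr m' V) (tr m (R \ V) ∪ tr m' (R \ V)) (fun x hx => by
      rcases mem_union.1 hx with h1 | h1
      · exact hadm m hm V hV x h1
      · exact hadm m' hm' V hV x h1) (fun x hx => by
      rcases mem_union.1 hx with h1 | h1
      · exact hadm m hm _ hQ x h1
      · exact hadm m' hm' _ hQ x h1) (by
      rw [disjoint_union_left, disjoint_union_right, disjoint_union_right]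
      exact ⟨⟨hs m, hd V _ hV hQ⟩, ⟨(hd _ V hQ hV).symm, hs m'⟩⟩)
  rw [card_union_of_disjoint (hd V V hV hV), card_union_of_disjoint (hd _ _ hQ hQ), card_tr,
    card_tr, card_tr, card_tr] at h1
  have e1 : c ^ (V.card + V.card) * (1 - c) ^ ((R \ V).card + (R \ V).card) =
      pr c R V * pr c R V := by
    unfold pr
    ring
  rw [e1] at h1
  have e2 : Ev U G m R V ∩ Ev U G m' R V =
      {D | (∀ x ∈ tr m V ∪ tr m' V, G (U D ∆ x)) ∧
        ∀ x ∈ tr m (R \ V) ∪ tr m' (R \ V), ¬ G (U D ∆ x)} := by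
    rw [Ev_eq hV, Ev_eq hV]
    ext D
    simp only [Set.mem_inter_iff, Set.mem_ofPred_eq, mem_union]
    constructor
    · rintro ⟨⟨a1, a2⟩, a3, a4⟩
      exact ⟨fun x hx => hx.elim (a1 x) (a3 x), fun x hx => hx.elim (a2 x) (a4 x)⟩
    · rintro ⟨a1, a2⟩
      exact ⟨⟨fun x hx => a1 x (Or.inl hx), fun x hx => a2 x (Or.inl hx)⟩,
        fun x hx => a1 x (Or.inr hx), fun x hx => a2 x (Or.inr hx)⟩
  rw [e2]
  exact h1

/-- **Mixing**: for all but finitely many `m` -/
theorem Law.finite_exc (h : Law S U G adm c) {R V : Finset (Finset ℕ)} (hR : ∀ w ∈ R, adm w)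
    (hV : V ⊆ R) {A : Set ℕ} {δ : ℝ} (hA : UD S A δ) {ε : ℝ} (hε : 0 < ε) :
    {m : Finset ℕ | adm m ∧ ¬ UD S (A ∩ Ev U G m R V) (pr c R V * δ - ε)}.Finite := by
  by_contra hinf
  set E := {m : Finset ℕ | adm m ∧ ¬ UD S (A ∩ Ev U G m R V) (pr c R V * δ - ε)} with hE
  have hinf : E.Infinite := hinf
  obtain ⟨f, hf1, hf2⟩ := exists_seq_of_forall_finset_exists (fun m => m ∈ E)
    (fun m m' : Finset ℕ => ∀ w ∈ R, ∀ w' ∈ R, m ∆ w ≠ m' ∆ w') (fun s _ => by
      obtain ⟨y, hy, hyF⟩ := hinf.exists_notMem_finset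
        (s.biUnion fun x => (R ×ˢ R).image fun q => (x ∆ q.1) ∆ q.2)
      refine ⟨y, hy, fun x hx w hw w' hw' he => hyF ?_⟩
      rw [mem_biUnion]
      refine ⟨x, hx, mem_image.2 ⟨(w, w'), mem_product.2 ⟨hw, hw'⟩, ?_⟩⟩
      show (x ∆ w) ∆ w' = y
      rw [he, symmDiff_symmDiff_cancel_right])
  have hsep : ∀ i j, i ≠ j → ∀ w ∈ R, ∀ w' ∈ R, f i ∆ w ≠ f j ∆ w' := by
    intro i j hij w hw w' hw'
    rcases lt_or_gt_of_ne hij with h1 | h1
    · exact hf2 i j h1 w hw w' hw'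
    · exact (hf2 j i h1 w' hw' w hw).symm
  obtain ⟨i, hi⟩ := mix h.ne (P := fun i => Ev U G (f i) R V) (h.pr_pos R V).le (h.pr_le R V)
    (fun i => h.ev (hf1 i).1 hR hV)
    (fun i j hij => h.ev2 (hf1 i).1 (hf1 j).1 hR hV (hsep i j hij)) hA hε
  exact (hf1 i).2 hi

/-- positive upper density -/
def Large (S : ℕ → Finset ℕ) (A : Set ℕ) : Prop := ∃ δ : ℝ, 0 < δ ∧ UD S A δ

theorem Large.mono {A B : Set ℕ} (h : Large S A) (hAB : A ⊆ B) : Large S B := by
  obtain ⟨δ, h1, h2⟩ := h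
  exact ⟨δ, h1, h2.mono hAB⟩

theorem Law.large_exc (h : Law S U G adm c) {R V : Finset (Finset ℕ)} (hR : ∀ w ∈ R, adm w)
    (hV : V ⊆ R) {A : Set ℕ} (hA : Large S A) :
    {m : Finset ℕ | adm m ∧ ¬ Large S (A ∩ Ev U G m R V)}.Finite := by
  obtain ⟨δ, h1, h2⟩ := hA
  have hp := h.pr_pos R V
  refine (h.finite_exc hR hV h2 (ε := pr c R V * δ / 2) (by positivity)).subset ?_
  rintro m ⟨h3, h4⟩
  refine ⟨h3, fun h5 => h4 ⟨_, ?_, h5⟩⟩
  have : 0 < pr c R V * δ := by positivity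
  linarith

theorem Law.large_inf (h : Law S U G adm c) {A : Set ℕ} (hA : Large S A) (F : Finset ℕ) :
    ∃ D ∈ A, (∃ X, D ∈ S X) ∧ D ∉ F := by
  obtain ⟨δ, h1, h2⟩ := hA
  have h3 := (h2 (δ / 2) (by positivity)).and_eventually
    (h.inf.eventually_gt_atTop ((F.card : ℝ) / (δ / 2)))
  obtain ⟨X, h4, h5⟩ := h3.exists
  rw [div_lt_iff₀ (by positivity)] at h5
  by_contra hcon
  push Not at hcon
  have h6 : cn (S X) A ≤ (F.card : ℝ) := by
    unfold cn
    exact_mod_cast card_le_card (fun D hD => by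
      rw [mem_filter] at hD
      exact hcon D hD.2 ⟨X, hD.1⟩)
  have h7 : (δ - δ / 2) * ((S X).card : ℝ) = ((S X).card : ℝ) * (δ / 2) := by ring
  linarith

theorem Law.adm_W (h : Law S U G adm c) {u : ℕ → Finset ℕ} (T : Finset ℕ)
    (hu : ∀ i ∈ T, adm (u i)) : adm (W u T) := by
  induction T using Finset.induction_on with
  | empty =>
    rw [W_empty]
    exact h.adm0
  | insert a T ha ih =>
    rw [W_insert ha]
    exact h.admS _ _ (hu a (mem_insert_self a T)) (ih fun i hi => hu i (mem_insert_of_mem hi))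

/-- the pattern of the first `n` masks -/
def Pt (U : ℕ → Finset ℕ) (G : Finset ℕ → Prop) (n : ℕ) (u : ℕ → Finset ℕ)
    (V : Finset (Finset ℕ)) : Set ℕ :=
  {D | ∀ T ⊆ range n, T.Nonempty → (G (U D ∆ W u T) ↔ T ∈ V)}

/-- the induction hypothesis -/
structure Inv (S : ℕ → Finset ℕ) (U : ℕ → Finset ℕ) (G : Finset ℕ → Prop)
    (adm : Finset ℕ → Prop) (A : Set ℕ) (n : ℕ) (u : ℕ → Finset ℕ) : Prop where
  ad : ∀ i < n, adm (u i)
  inj : ∀ T ⊆ range n, ∀ T' ⊆ range n, W u T = W u T' → T = T'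
  lg : ∀ V : Finset (Finset ℕ), Large S (A ∩ Pt U G n u V)

theorem Inv.congr {A : Set ℕ} {n : ℕ} {u v : ℕ → Finset ℕ} (h : Inv S U G adm A n u)
    (huv : ∀ i < n, u i = v i) : Inv S U G adm A n v := by
  have hW : ∀ T ⊆ range n, W u T = W v T := fun T hT =>
    W_congr fun i hi => huv i (mem_range.1 (hT hi))
  refine ⟨fun i hi => huv i hi ▸ h.ad i hi, fun T hT T' hT' he => ?_, fun V => ?_⟩
  · rw [← hW T hT, ← hW T' hT'] at he
    exact h.inj T hT T' hT' he
  · refine (h.lg V).mono (Set.inter_subset_inter_right A fun D hD T hT hne => ?_)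
    rw [← hW T hT]
    exact hD T hT hne

theorem Law.step (h : Law S U G adm c) {A : Set ℕ} {n : ℕ} {u : ℕ → Finset ℕ}
    (hI : Inv S U G adm A n u) (V₀ : Finset (Finset ℕ)) (B : ℕ) :
    ∃ D ∈ A, (∃ X, D ∈ S X) ∧ B < D ∧ D ∈ Pt U G n u V₀ ∧
      Inv S U G adm A (n + 1) (Function.update u n (U D)) := by
  set R : Finset (Finset ℕ) := (range n).powerset.image (W u) with hRd
  have hR : ∀ w ∈ R, adm w := by
    intro w hw
    obtain ⟨T, hT, rfl⟩ := mem_image.1 hw
    exact h.adm_W T fun i hi => hI.ad i (mem_range.1 (mem_powerset.1 hT hi))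
  set PP := (range n).powerset.powerset with hPP
  have hV : ∀ w ∈ PP, w.image (W u) ⊆ R := fun w hw =>
    image_subset_image (mem_powerset.1 hw)
  -- the exceptional masks
  have hfin : (⋃ v ∈ PP, ⋃ w ∈ PP, {m : Finset ℕ | adm m ∧
      ¬ Large S ((A ∩ Pt U G n u v) ∩ Ev U G m R (w.image (W u)))}).Finite := by
    refine Set.Finite.biUnion PP.finite_toSet fun v _ =>
      Set.Finite.biUnion PP.finite_toSet fun w hw => ?_
    exact h.large_exc hR (hV w hw) (hI.lg v)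
  set EX := ⋃ v ∈ PP, ⋃ w ∈ PP, {m : Finset ℕ | adm m ∧
      ¬ Large S ((A ∩ Pt U G n u v) ∩ Ev U G m R (w.image (W u)))} with hEX
  have hfin2 : (EX ∪ (((R ×ˢ R).image fun q => q.1 ∆ q.2 : Finset (Finset ℕ)) :
      Set (Finset ℕ))).Finite := hfin.union (finite_toSet _)
  have hfin3 : {D : ℕ | (∃ X, D ∈ S X) ∧ U D ∈ EX ∪ (((R ×ˢ R).image fun q => q.1 ∆ q.2 :
      Finset (Finset ℕ)) : Set (Finset ℕ))}.Finite := by
    refine Set.Finite.of_injOn (f := U) (fun D hD => hD.2) ?_ hfin2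
    rintro D ⟨⟨X, hX⟩, -⟩ D' ⟨⟨X', hX'⟩, -⟩ he
    exact h.inj X X' D D' hX hX' he
  obtain ⟨D, hD1, ⟨X, hX⟩, hD3⟩ := h.large_inf (hI.lg V₀) (hfin3.toFinset ∪ range (B + 1))
  rw [mem_union, not_or, Set.Finite.mem_toFinset, mem_range] at hD3
  have hDe : U D ∉ EX ∪ (((R ×ˢ R).image fun q => q.1 ∆ q.2 : Finset (Finset ℕ)) :
      Set (Finset ℕ)) := fun h1 => hD3.1 ⟨⟨X, hX⟩, h1⟩
  have hD4 : U D ∉ EX := fun h1 => hDe (Or.inl h1)
  have hD5 : ∀ x ∈ R, ∀ y ∈ R, x ∆ y ≠ U D := fun x hx y hy he => hDe (Or.inr (by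
    rw [mem_coe, mem_image]
    exact ⟨(x, y), mem_product.2 ⟨hx, hy⟩, he⟩))
  have hadm := h.admU X D hX
  refine ⟨D, hD1.1, ⟨X, hX⟩, by omega, hD1.2, ?_⟩
  have hnr : ∀ T ⊆ range n, n ∉ T := fun T hT h1 => lt_irrefl n (mem_range.1 (hT h1))
  have hW1 : ∀ T ⊆ range n, W (Function.update u n (U D)) T = W u T := fun T hT =>
    W_congr fun i hi => Function.update_of_ne (fun h1 : i = n => hnr T hT (h1 ▸ hi)) _ _
  have hW2 : ∀ T ⊆ range n, W (Function.update u n (U D)) (insert n T) = U D ∆ W u T := by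
    intro T hT
    rw [W_insert (hnr T hT), Function.update_self, hW1 T hT]
  have hsplit : ∀ T ⊆ range (n + 1), (T ⊆ range n) ∨ ∃ T' ⊆ range n, T = insert n T' := by
    intro T hT
    by_cases hn : n ∈ T
    · right
      refine ⟨T.erase n, fun i hi => ?_, (insert_erase hn).symm⟩
      rw [mem_erase] at hi
      have := mem_range.1 (hT hi.2)
      exact mem_range.2 (by omega)
    · left
      intro i hi
      have h1 := mem_range.1 (hT hi)
      have h2 : i ≠ n := fun h2 => hn (h2 ▸ hi)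
      exact mem_range.2 (by omega)
  have hRm : ∀ T ⊆ range n, W u T ∈ R := fun T hT => mem_image.2 ⟨T, mem_powerset.2 hT, rfl⟩
  refine ⟨fun i hi => ?_, fun T hT T' hT' he => ?_, fun V => ?_⟩
  · rcases Nat.lt_succ_iff_lt_or_eq.1 hi with h1 | h1
    · rw [Function.update_of_ne h1.ne]
      exact hI.ad i h1
    · rw [h1, Function.update_self]
      exact hadm
  · rcases hsplit T hT with h1 | ⟨T1, h1, rfl⟩
    · rcases hsplit T' hT' with h2 | ⟨T2, h2, rfl⟩
      · rw [hW1 T h1, hW1 T' h2] at he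
        exact hI.inj T h1 T' h2 he
      · rw [hW1 T h1, hW2 T2 h2] at he
        refine absurd ?_ (hD5 _ (hRm T h1) _ (hRm T2 h2))
        rw [he, symmDiff_symmDiff_cancel_right]
    · rcases hsplit T' hT' with h2 | ⟨T2, h2, rfl⟩
      · rw [hW2 T1 h1, hW1 T' h2] at he
        refine absurd ?_ (hD5 _ (hRm T' h2) _ (hRm T1 h1))
        rw [← he, symmDiff_symmDiff_cancel_right]
      · rw [hW2 T1 h1, hW2 T2 h2] at he
        rw [hI.inj T1 h1 T2 h2 (symm_cancel he)]
  · set v : Finset (Finset ℕ) := (range n).powerset.filter fun T => T ∈ V with hv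
    set w : Finset (Finset ℕ) := (range n).powerset.filter fun T => insert n T ∈ V with hw
    have hvP : v ∈ PP := mem_powerset.2 (filter_subset _ _)
    have hwP : w ∈ PP := mem_powerset.2 (filter_subset _ _)
    have hlarge : Large S ((A ∩ Pt U G n u v) ∩ Ev U G (U D) R (w.image (W u))) := by
      by_contra hcon
      apply hD4
      rw [hEX]
      simp only [Set.mem_iUnion]
      exact ⟨v, hvP, w, hwP, hadm, hcon⟩
    refine hlarge.mono ?_
    rintro D' ⟨⟨a1, a2⟩, a3⟩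
    refine ⟨a1, fun T hT hne => ?_⟩
    rcases hsplit T hT with h1 | ⟨T1, h1, rfl⟩
    · rw [hW1 T h1, a2 T h1 hne, hv, mem_filter, mem_powerset, and_iff_right h1]
    · rw [hW2 T1 h1, a3 _ (hRm T1 h1), mem_image]
      constructor
      · rintro ⟨T2, h2, he⟩
        rw [hw, mem_filter, mem_powerset] at h2
        rw [← hI.inj T2 h2.1 T1 h1 he]
        exact h2.2
      · intro h2
        exact ⟨T1, mem_filter.2 ⟨mem_powerset.2 h1, h2⟩, rfl⟩

/-- the conditions on the next number -/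
structure Next (S : ℕ → Finset ℕ) (U : ℕ → Finset ℕ) (G : Finset ℕ → Prop)
    (adm : Finset ℕ → Prop) (A : Set ℕ) (Φ : Set (Finset ℕ)) (n : ℕ) (d : ℕ → ℕ) (D : ℕ) :
    Prop where
  mem : D ∈ A
  cls : ∃ X, D ∈ S X
  lt : ∀ i < n, d i < D
  pat : ∀ T ⊆ range n, T.Nonempty → (G (U D ∆ W (fun i => U (d i)) T) ↔ insert n T ∈ Φ)
  inv : Inv S U G adm A (n + 1) (Function.update (fun i => U (d i)) n (U D))

theorem Next.congr {A : Set ℕ} {Φ : Set (Finset ℕ)} {n : ℕ} {d e : ℕ → ℕ} {D : ℕ}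
    (h : Next S U G adm A Φ n d D) (hde : ∀ i < n, d i = e i) : Next S U G adm A Φ n e D := by
  refine ⟨h.mem, h.cls, fun i hi => hde i hi ▸ h.lt i hi, fun T hT hne => ?_, ?_⟩
  · have : W (fun i => U (e i)) T = W (fun i => U (d i)) T := W_congr fun i hi => by
      simp only [hde i (mem_range.1 (hT hi))]
    rw [this]
    exact h.pat T hT hne
  · refine h.inv.congr fun i hi => ?_
    rcases Nat.lt_succ_iff_lt_or_eq.1 hi with h1 | h1
    · rw [Function.update_of_ne h1.ne, Function.update_of_ne h1.ne, hde i h1]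
    · rw [h1, Function.update_self, Function.update_self]

theorem Law.exists_next (h : Law S U G adm c) {A : Set ℕ} {n : ℕ} {d : ℕ → ℕ}
    (hI : Inv S U G adm A n fun i => U (d i)) (Φ : Set (Finset ℕ)) :
    ∃ D, Next S U G adm A Φ n d D := by
  obtain ⟨D, h1, h2, h3, h4, h5⟩ := h.step hI ((range n).powerset.filter fun T => insert n T ∈ Φ)
    (∑ i ∈ range n, d i)
  refine ⟨D, h1, h2, fun i hi => ?_, fun T hT hne => ?_, h5⟩
  · have := Finset.single_le_sum (f := d) (fun j _ => Nat.zero_le _) (mem_range.2 hi)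
    omega
  · rw [h4 T hT hne, mem_filter, mem_powerset, and_iff_right hT]

/-- extension of a finite sequence -/
def ext (n : ℕ) (f : Fin n → ℕ) : ℕ → ℕ := fun i => if h : i < n then f ⟨i, h⟩ else 0

/-- the sequence -/
noncomputable def dd (S : ℕ → Finset ℕ) (U : ℕ → Finset ℕ) (G : Finset ℕ → Prop)
    (adm : Finset ℕ → Prop) (A : Set ℕ) (Φ : Set (Finset ℕ)) (n : ℕ) : ℕ :=
  if h : ∃ D, Next S U G adm A Φ n (ext n fun i : Fin n => dd S U G adm A Φ i) D then h.choose else 0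
termination_by n
decreasing_by all_goals exact i.2

theorem Law.dd_inv (h : Law S U G adm c) {A : Set ℕ} (hA : Large S A) (Φ : Set (Finset ℕ))
    (n : ℕ) : Inv S U G adm A n (fun i => U (dd S U G adm A Φ i)) ∧
      Next S U G adm A Φ n (dd S U G adm A Φ) (dd S U G adm A Φ n) := by
  have key : ∀ n, Inv S U G adm A n (fun i => U (dd S U G adm A Φ i)) →
      Next S U G adm A Φ n (dd S U G adm A Φ) (dd S U G adm A Φ n) := by
    intro n hI
    have he : ∀ i < n, (ext n fun i : Fin n => dd S U G adm A Φ i) i = dd S U G adm A Φ i := by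
      intro i hi
      unfold ext
      rw [dif_pos hi]
    have h1 : ∃ D, Next S U G adm A Φ n (ext n fun i : Fin n => dd S U G adm A Φ i) D :=
      h.exists_next (hI.congr fun i hi => by rw [he i hi]) Φ
    have h2 : Next S U G adm A Φ n (ext n fun i : Fin n => dd S U G adm A Φ i)
        (dd S U G adm A Φ n) := by
      have h3 : dd S U G adm A Φ n = h1.choose := by
        rw [dd, dif_pos h1]
      rw [h3]
      exact h1.choose_spec
    exact h2.congr he
  suffices hs : ∀ n, Inv S U G adm A n (fun i => U (dd S U G adm A Φ i)) from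
    ⟨hs n, key n (hs n)⟩
  intro n
  induction n with
  | zero =>
    refine ⟨fun i hi => absurd hi (Nat.not_lt_zero i), fun T hT T' hT' _ => ?_, fun V => ?_⟩
    · rw [range_zero, subset_empty] at hT hT'
      rw [hT, hT']
    · refine hA.mono fun D hD => ⟨hD, fun T hT hne => ?_⟩
      rw [range_zero, subset_empty] at hT
      exact absurd hne (hT ▸ not_nonempty_empty)
  | succ n ih =>
    refine (key n ih).inv.congr fun i _ => ?_
    by_cases h1 : i = n
    · rw [h1, Function.update_self]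
    · rw [Function.update_of_ne h1]

/-- **Every set of positive upper density realises every pattern.** -/
theorem Law.universal (h : Law S U G adm c) {A : Set ℕ} (hA : Large S A) (Φ : Set (Finset ℕ)) :
    ∃ d : ℕ → ℕ, StrictMono d ∧ (∀ i, d i ∈ A ∧ ∃ X, d i ∈ S X) ∧
      ∀ T : Finset ℕ, 2 ≤ T.card → (G (W (fun i => U (d i)) T) ↔ T ∈ Φ) := by
  refine ⟨dd S U G adm A Φ, strictMono_nat_of_lt_succ fun n =>
    ((h.dd_inv hA Φ (n + 1)).2.lt n (Nat.lt_succ_self n)), fun i =>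
    ⟨(h.dd_inv hA Φ i).2.mem, (h.dd_inv hA Φ i).2.cls⟩, fun T hT => ?_⟩
  have hne : T.Nonempty := by
    rw [← card_pos]
    omega
  obtain ⟨n, hn⟩ : ∃ n, n = T.max' hne := ⟨_, rfl⟩
  have hnT : n ∈ T := by rw [hn]; exact max'_mem T hne
  have hsub : T.erase n ⊆ range n := by
    intro i hi
    rw [mem_erase] at hi
    have : i ≤ n := by rw [hn]; exact le_max' T i hi.2
    exact mem_range.2 (by omega)
  have hne' : (T.erase n).Nonempty := by
    rw [← card_pos, card_erase_of_mem hnT]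
    omega
  have h1 := (h.dd_inv hA Φ n).2.pat (T.erase n) hsub hne'
  rw [insert_erase hnT] at h1
  have h2 := W_insert (u := fun i => U (dd S U G adm A Φ i)) (notMem_erase n T)
  rw [insert_erase hnT] at h2
  rw [h2]
  exact h1

end Run7.h428.Uni
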