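import Mathlib

/-!
# Square roots in fields generated by square roots
-/

set_option autoImplicit false

open scoped Classical

namespace Run7.h428.Kum

/-- the field generated by the square roots of the elements of `S` -/
noncomputable def fld (S : Set ℕ) : IntermediateField ℚ ℂ :=
  IntermediateField.adjoin ℚ {z : ℂ | ∃ d ∈ S, z ^ 2 = (d : ℂ)}

/-- the extension of `K` by `w`, with `w ^ 2 ∈ K` -/
def qext (K : IntermediateField ℚ ℂ) (w : ℂ) (hw : w ^ 2 ∈ K) : IntermediateField ℚ ℂ where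
  carrier := {z | ∃ a ∈ K, ∃ b ∈ K, z = a + b * w}
  mul_mem' := by
    rintro x y ⟨a, ha, b, hb, rfl⟩ ⟨a', ha', b', hb', rfl⟩
    refine ⟨a * a' + b * b' * w ^ 2, ?_, a * b' + b * a', ?_, by ring⟩
    · exact K.add_mem (K.mul_mem ha ha') (K.mul_mem (K.mul_mem hb hb') hw)
    · exact K.add_mem (K.mul_mem ha hb') (K.mul_mem hb ha')
  add_mem' := by
    rintro x y ⟨a, ha, b, hb, rfl⟩ ⟨a', ha', b', hb', rfl⟩
    exact ⟨a + a', K.add_mem ha ha', b + b', K.add_mem hb hb', by ring⟩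
  algebraMap_mem' := fun r => ⟨algebraMap ℚ ℂ r, K.algebraMap_mem r, 0, K.zero_mem, by ring⟩
  inv_mem' := by
    rintro x ⟨a, ha, b, hb, rfl⟩
    by_cases h0 : a + b * w = 0
    · exact ⟨0, K.zero_mem, 0, K.zero_mem, by rw [h0]; simp⟩
    by_cases hN : a ^ 2 - b ^ 2 * w ^ 2 = 0
    · have h1 : (a - b * w) * (a + b * w) = 0 := by linear_combination hN
      rcases mul_eq_zero.1 h1 with h2 | h2
      · refine ⟨(2 * a)⁻¹, K.inv_mem (K.mul_mem (by exact_mod_cast K.natCast_mem 2) ha), 0,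
          K.zero_mem, ?_⟩
        have h3 : a + b * w = 2 * a := by linear_combination -h2
        rw [h3]
        ring
      · exact absurd h2 h0
    · have hNK : a ^ 2 - b ^ 2 * w ^ 2 ∈ K :=
        K.sub_mem (K.pow_mem ha 2) (K.mul_mem (K.pow_mem hb 2) hw)
      refine ⟨a * (a ^ 2 - b ^ 2 * w ^ 2)⁻¹, K.mul_mem ha (K.inv_mem hNK),
        -b * (a ^ 2 - b ^ 2 * w ^ 2)⁻¹, K.mul_mem (K.neg_mem hb) (K.inv_mem hNK), ?_⟩
      have h4 : a ^ 2 - b ^ 2 * w ^ 2 ≠ 0 := hN
      field_simp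
      ring

theorem fld_mono {S S' : Set ℕ} (h : S ⊆ S') : fld S ≤ fld S' := by
  unfold fld
  refine IntermediateField.adjoin.mono _ _ _ ?_
  rintro z ⟨d, hd, hz⟩
  exact ⟨d, h hd, hz⟩

theorem sqrt_in {S : Set ℕ} {d : ℕ} (hd : d ∈ S) {z : ℂ} (hz : z ^ 2 = (d : ℂ)) : z ∈ fld S :=
  IntermediateField.subset_adjoin ℚ _ ⟨d, hd, hz⟩

theorem insert_le (S : Set ℕ) (d : ℕ) (w : ℂ) (hw : w ^ 2 = (d : ℂ)) :
    fld (insert d S) ≤ qext (fld S) w (by rw [hw]; exact (fld S).natCast_mem d) := by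
  rw [fld, IntermediateField.adjoin_le_iff]
  rintro z ⟨e, he, hz⟩
  rcases he with rfl | he
  · have h1 : (z - w) * (z + w) = 0 := by linear_combination hz - hw
    rcases mul_eq_zero.1 h1 with h2 | h2
    · exact ⟨0, (fld S).zero_mem, 1, (fld S).one_mem, by linear_combination h2⟩
    · exact ⟨0, (fld S).zero_mem, -1, (fld S).neg_mem (fld S).one_mem, by linear_combination h2⟩
  · exact ⟨z, sqrt_in he hz, 0, (fld S).zero_mem, by ring⟩

theorem exists_sqrt (m : ℕ) : ∃ w : ℂ, w ^ 2 = (m : ℂ) :=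
  IsAlgClosed.exists_pow_nat_eq (m : ℂ) (n := 2) (by norm_num)

/-- **square roots of rational numbers in the field** -/
theorem sqrt_mem (S : Finset ℕ) : ∀ z ∈ fld (S : Set ℕ), ∀ q : ℚ, z ^ 2 = (q : ℂ) →
    ∃ T ⊆ S, ∃ r : ℚ, z ^ 2 * ∏ d ∈ T, (d : ℂ) = (r : ℂ) ^ 2 := by
  induction S using Finset.induction_on with
  | empty =>
    intro z hz q hq
    have h1 : fld ((∅ : Finset ℕ) : Set ℕ) = ⊥ := by
      unfold fld
      rw [IntermediateField.adjoin_eq_bot_iff]
      rintro z ⟨d, hd, -⟩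
      exact absurd hd (by simp)
    rw [h1, IntermediateField.mem_bot] at hz
    obtain ⟨r, rfl⟩ := hz
    exact ⟨∅, subset_rfl, r, by simp⟩
  | insert d S hd ih =>
    intro z hz q hq
    obtain ⟨w, hw⟩ := exists_sqrt d
    rw [Finset.coe_insert] at hz
    obtain ⟨a, ha, b, hb, hzab⟩ := insert_le (S : Set ℕ) d w hw hz
    have key : ∀ x ∈ fld (S : Set ℕ), x ^ 2 = (q : ℂ) → x = z ∨ x = -z →
        ∃ T ⊆ insert d S, ∃ r : ℚ, z ^ 2 * ∏ d ∈ T, (d : ℂ) = (r : ℂ) ^ 2 := by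
      intro x hx hxq _
      obtain ⟨T, hT, r, hr⟩ := ih x hx q hxq
      exact ⟨T, hT.trans (Finset.subset_insert d S), r, by rw [hq, ← hxq]; exact hr⟩
    have hc : z ^ 2 = a ^ 2 + b ^ 2 * d + 2 * a * b * w := by
      rw [hzab, ← hw]
      ring
    by_cases hab : a * b = 0
    · rcases mul_eq_zero.1 hab with h0 | h0
      · -- `z = b w`
        by_cases hd0 : (d : ℂ) = 0
        · have hw0 : w = 0 := by
            have : w ^ 2 = 0 := by rw [hw, hd0]
            exact pow_eq_zero_iff (by norm_num) |>.1 this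
          have : z = 0 := by rw [hzab, h0, hw0]; ring
          refine ⟨∅, Finset.empty_subset _, 0, ?_⟩
          rw [this]
          simp
        · have h1 : b ^ 2 = ((q / d : ℚ) : ℂ) := by
            push_cast
            rw [eq_div_iff hd0, ← hq, hc, h0]
            ring
          obtain ⟨T, hT, r, hr⟩ := ih b hb _ h1
          have hdT : d ∉ T := fun h => hd (hT h)
          refine ⟨insert d T, Finset.insert_subset_insert d hT, r * d, ?_⟩
          rw [Finset.prod_insert hdT, hc, h0]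
          push_cast
          linear_combination (d : ℂ) ^ 2 * hr
      · -- `z = a`
        have hza : z = a := by rw [hzab, h0]; ring
        exact key a ha (by rw [← hza]; exact hq) (Or.inl hza.symm)
    · -- `w ∈ K`
      have hwK : w ∈ fld (S : Set ℕ) := by
        have h1 : w = (q - a ^ 2 - b ^ 2 * d) / (2 * (a * b)) := by
          rw [eq_div_iff (mul_ne_zero two_ne_zero hab)]
          linear_combination hq - hc
        rw [h1]
        have h2 : (2 : ℂ) ∈ fld (S : Set ℕ) := by exact_mod_cast (fld (S : Set ℕ)).natCast_mem 2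
        have h3 : ((q : ℚ) : ℂ) ∈ fld (S : Set ℕ) := (fld (S : Set ℕ)).algebraMap_mem q
        exact (fld _).div_mem ((fld _).sub_mem ((fld _).sub_mem h3 ((fld _).pow_mem ha 2))
          ((fld _).mul_mem ((fld _).pow_mem hb 2) ((fld _).natCast_mem d)))
          ((fld _).mul_mem h2 ((fld _).mul_mem ha hb))
      have hzK : z ∈ fld (S : Set ℕ) := by
        rw [hzab]
        exact (fld _).add_mem ha ((fld _).mul_mem hb hwK)
      exact key z hzK hq (Or.inl rfl)

/-- a square root in the field generated by an infinite set -/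
theorem sqrt_mem_inf (S : Set ℕ) {z : ℂ} (hz : z ∈ fld S) {m : ℕ} (hm : z ^ 2 = (m : ℂ)) :
    ∃ T : Finset ℕ, (T : Set ℕ) ⊆ S ∧ IsSquare (m * ∏ d ∈ T, d) := by
  obtain ⟨G, hG1, hG2⟩ := IntermediateField.exists_finset_of_mem_adjoin hz
  have h1 : ∀ x ∈ G, ∃ d ∈ S, x ^ 2 = (d : ℂ) := fun x hx => hG1 hx
  choose! f hf1 hf2 using h1
  have h2 : z ∈ fld ((G.image f : Finset ℕ) : Set ℕ) := by
    refine (IntermediateField.adjoin_le_iff.2 ?_) hG2
    intro x hx
    exact sqrt_in (by exact_mod_cast Finset.mem_image_of_mem f hx) (hf2 x hx)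
  obtain ⟨T, hT, r, hr⟩ := sqrt_mem _ z h2 (m : ℚ) (by rw [hm]; norm_cast)
  refine ⟨T, fun d hd => ?_, ?_⟩
  · obtain ⟨x, hx, rfl⟩ := Finset.mem_image.1 (hT hd)
    exact hf1 x hx
  · rw [hm] at hr
    have h3 : ((m * ∏ d ∈ T, d : ℕ) : ℚ) = r ^ 2 := by
      have : (((m * ∏ d ∈ T, d : ℕ) : ℚ) : ℂ) = ((r ^ 2 : ℚ) : ℂ) := by
        push_cast
        exact hr
      exact_mod_cast this
    have h4 : IsSquare ((m * ∏ d ∈ T, d : ℕ) : ℚ) := ⟨r, by rw [h3]; ring⟩
    rwa [Rat.isSquare_natCast_iff] at h4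

end Run7.h428.Kum
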