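import Pool.Agent.Run7.h401.Kept.TwistsMultiquadraticX49
import Pool.Agent.Run7.h428.Kum

/-!
# Subfields of fields generated by square roots
-/

set_option autoImplicit false

open scoped Classical

namespace Run7.h428.Kum

open Pool.Agent.Results.MP_cd906c_nt.TwistsMultiquadraticX49 (field gen1 gen2 finDim numField)
open Run7.h401.Fl

theorem field_eq (S : Finset ℕ) : field S = fld (S : Set ℕ) := rfl

/-- the subfields of a field generated by square roots -/
theorem sub_fld {S₀ : Finset ℕ} (hS₀ : ∀ d ∈ S₀, Squarefree d ∧ ∀ p ∈ d.primeFactors, p % 4 = 1)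
    (F : IntermediateField ℚ ℂ) (hF : F ≤ fld (S₀ : Set ℕ)) :
    ∃ S : Finset ℕ, (∀ m ∈ S, Squarefree m ∧ ∀ p ∈ m.primeFactors, p % 4 = 1) ∧
      F = fld (S : Set ℕ) := by
  obtain ⟨r, h⟩ := exists_MQ (field S₀) S₀ hS₀ (gen1 S₀) (gen2 S₀)
  set H := HF (field S₀) S₀ with hH
  have hG : IsGalois ℚ (field S₀) := h.isGalois
  set F' : IntermediateField ℚ (field S₀) := F.comap (field S₀).val with hF'
  have memF' : ∀ x : field S₀, x ∈ F' ↔ (x : ℂ) ∈ F := fun x => Iff.rfl
  have hsqC : ∀ T ∈ H, ((r T : field S₀) : ℂ) ^ 2 = ((∏ l ∈ T, l : ℕ) : ℂ) := by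
    intro T hT
    have h1 := congrArg (fun x : field S₀ => (x : ℂ)) (h.sq T hT)
    simpa using h1
  set S : Finset ℕ := (H.filter fun T => ((r T : field S₀) : ℂ) ∈ F).image fun T => ∏ l ∈ T, l
    with hS
  have hli : LinearIndependent ℚ (fun T : H => r T) := by
    apply linearIndependent_of_top_le_span_of_card_eq_finrank
    · have e : Set.range (fun T : H => r T) = r '' (H : Set (Finset ℕ)) := by
        ext x
        simp
      rw [e, h.span_top]
    · rw [h.finrank_eq, Fintype.card_coe]
  refine ⟨S, ?_, le_antisymm ?_ ?_⟩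
  · intro m hm
    obtain ⟨T, hT, rfl⟩ := Finset.mem_image.1 hm
    have hT' := (Finset.mem_filter.1 hT).1
    have hpr := h.pr T hT'
    have hpf : (∏ l ∈ T, l).primeFactors = T := Nat.primeFactors_prod fun p hp => (hpr p hp).1
    refine ⟨Finset.squarefree_prod_of_pairwise_isCoprime (fun p hp q hq hpq => ?_)
      fun p hp => (hpr p hp).1.squarefree, fun p hp => ?_⟩
    · show IsRelPrime p q
      rw [← Nat.coprime_iff_isRelPrime]
      exact (Nat.coprime_primes (hpr p hp).1 (hpr q hq).1).mpr hpq
    · rw [hpf] at hp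
      exact (hpr p hp).2
  · intro x hx
    have hxL : x ∈ field S₀ := hF hx
    set x' : field S₀ := ⟨x, hxL⟩ with hx'
    have hx'F : x' ∈ F' := hx
    have h1 : x' ∈ Submodule.span ℚ (Set.range fun T : H => r T) := by
      have e : Set.range (fun T : H => r T) = r '' (H : Set (Finset ℕ)) := by
        ext x
        simp
      rw [e, h.span_top]
      trivial
    obtain ⟨a, ha⟩ := (Submodule.mem_span_range_iff_exists_fun ℚ).1 h1
    have key : ∀ T : H, a T ≠ 0 → r T ∈ F' := by
      intro T hT
      rw [← IsGalois.fixedField_fixingSubgroup F', IntermediateField.mem_fixedField_iff]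
      intro σ hσ
      have h2 : σ x' = x' := (IntermediateField.mem_fixingSubgroup_iff F' σ).1 hσ x' hx'F
      rw [← ha, map_sum, ha] at h2
      have h2b : ∑ T : H, a T • σ (r T) = ∑ T : H, a T • r T := by
        rw [← ha] at h2
        rw [← h2]
        refine Finset.sum_congr rfl fun T _ => ?_
        rw [Algebra.smul_def, Algebra.smul_def, map_mul, AlgEquiv.commutes]
      have h3 : ∑ T : H, (a T * (if σ (r T) = r T then 0 else 2)) • r T = 0 := by
        have h4 : ∀ T : H, (a T * (if σ (r T) = r T then (0 : ℚ) else 2)) • r T =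
            a T • r T - a T • σ (r T) := by
          intro T
          by_cases hs : σ (r T) = r T
          · rw [if_pos hs, hs]
            simp
          · have hs' : σ (r T) = -r T := (h.sgn σ T.2).resolve_left hs
            rw [if_neg hs, hs', mul_smul, two_smul, smul_add, smul_neg]
            abel
        rw [Finset.sum_congr rfl fun T _ => h4 T, Finset.sum_sub_distrib, h2b, sub_self]
      have h5 := (Fintype.linearIndependent_iff.1 hli) _ h3 T
      by_contra hs
      rw [if_neg hs] at h5
      exact hT (by linarith)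
    have hx2 : x = ∑ T : H, (a T : ℂ) * ((r T : field S₀) : ℂ) := by
      have h2 := congrArg (fun x : field S₀ => (x : ℂ)) ha
      simp only [hx'] at h2
      rw [← h2]
      push_cast
      refine Finset.sum_congr rfl fun T _ => ?_
      rw [Algebra.smul_def]
      rfl
    rw [hx2]
    refine sum_mem fun T _ => ?_
    by_cases hT : a T = 0
    · rw [hT]
      simp
    · have hr : ((r T : field S₀) : ℂ) ∈ F := key T hT
      refine mul_mem ((fld _).algebraMap_mem (a T)) (sqrt_in (d := ∏ l ∈ (T : Finset ℕ), l) ?_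
        (hsqC T T.2))
      rw [Finset.mem_coe, hS]
      exact Finset.mem_image.2 ⟨T, Finset.mem_filter.2 ⟨T.2, hr⟩, rfl⟩
  · unfold fld
    rw [IntermediateField.adjoin_le_iff]
    rintro z ⟨m, hm, hz⟩
    rw [Finset.mem_coe] at hm
    obtain ⟨T, hT, rfl⟩ := Finset.mem_image.1 hm
    obtain ⟨hT1, hT2⟩ := Finset.mem_filter.1 hT
    have h1 : (z - (r T : field S₀)) * (z + (r T : field S₀)) = 0 := by
      linear_combination hz - hsqC T hT1
    rcases mul_eq_zero.1 h1 with h2 | h2
    · have : z = ((r T : field S₀) : ℂ) := by linear_combination h2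
      rw [this]
      exact hT2
    · have : z = -((r T : field S₀) : ℂ) := by linear_combination h2
      rw [this]
      exact F.neg_mem hT2

end Run7.h428.Kum
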