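import Mathlib

/-!
# Mixing of asymptotically independent events against arbitrary sets of positive upper density

`S X` is a sequence of finite sets of natural numbers, the upper density of a set `A` is the upper limit of
`|A ∩ S X| / |S X|`. If infinitely many events have density `p` and are asymptotically independent in
pairs, then for every `A` one of them meets `A` in a set of upper density at least `p δ - ε`, `δ` the
upper density of `A` (second moment and Cauchy-Schwarz).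
-/

set_option autoImplicit false

open scoped Classical

namespace Run7.h428.Mix

open Finset Filter Topology

/-- the number of the elements of `T` in `A` -/
noncomputable def cn (T : Finset ℕ) (A : Set ℕ) : ℝ := ((T.filter fun D => D ∈ A).card : ℝ)

theorem cn_nonneg (T : Finset ℕ) (A : Set ℕ) : 0 ≤ cn T A := Nat.cast_nonneg _

theorem cn_mono (T : Finset ℕ) {A B : Set ℕ} (h : A ⊆ B) : cn T A ≤ cn T B := by
  unfold cn
  exact_mod_cast card_le_card (fun D hD => by
    rw [mem_filter] at hD ⊢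
    exact ⟨hD.1, h hD.2⟩)

theorem cn_sum (T : Finset ℕ) (A : Set ℕ) : cn T A = ∑ D ∈ T, if D ∈ A then (1 : ℝ) else 0 := by
  unfold cn
  rw [card_filter]
  push_cast
  rfl

theorem cn_eq (T : Finset ℕ) (A : Set ℕ) (q : ℕ → Prop) [DecidablePred q]
    (h : ∀ D ∈ T, D ∈ A ↔ q D) : cn T A = ((T.filter q).card : ℝ) := by
  unfold cn
  congr 2
  exact filter_congr h

/-- the upper density of `A` is at least `δ` -/
def UD (S : ℕ → Finset ℕ) (A : Set ℕ) (δ : ℝ) : Prop :=
  ∀ ε : ℝ, 0 < ε → ∃ᶠ X in atTop, (δ - ε) * ((S X).card : ℝ) ≤ cn (S X) A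

theorem UD.mono {S : ℕ → Finset ℕ} {A B : Set ℕ} {δ : ℝ} (h : UD S A δ) (hAB : A ⊆ B) :
    UD S B δ := by
  intro ε hε
  exact (h ε hε).mono fun X hX => hX.trans (cn_mono _ hAB)

theorem UD.le {S : ℕ → Finset ℕ} {A : Set ℕ} {δ δ' : ℝ} (h : UD S A δ) (hd : δ' ≤ δ) :
    UD S A δ' := by
  intro ε hε
  refine (h ε hε).mono fun X hX => le_trans ?_ hX
  exact mul_le_mul_of_nonneg_right (by linarith) (Nat.cast_nonneg _)

/-- the upper density is not at least `δ` -/
theorem not_UD {S : ℕ → Finset ℕ} {A : Set ℕ} {δ : ℝ} (h : ¬ UD S A δ) :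
    ∀ᶠ X in atTop, cn (S X) A ≤ δ * ((S X).card : ℝ) := by
  unfold UD at h
  push Not at h
  obtain ⟨ε, hε, h⟩ := h
  filter_upwards [h] with X hX
  have : (0 : ℝ) ≤ ((S X).card : ℝ) := Nat.cast_nonneg _
  nlinarith

section second

variable (T : Finset ℕ) (P : ℕ → Set ℕ) (N : ℕ) (p : ℝ)

/-- the number of the events -/
noncomputable def ff (D : ℕ) : ℝ := ∑ i ∈ range N, if D ∈ P i then (1 : ℝ) else 0

theorem sum_ff : ∑ D ∈ T, ff P N D = ∑ i ∈ range N, cn T (P i) := by
  unfold ff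
  rw [sum_comm]
  exact sum_congr rfl fun i _ => (cn_sum T (P i)).symm

theorem sum_ff_sq : ∑ D ∈ T, ff P N D ^ 2 =
    ∑ i ∈ range N, ∑ j ∈ range N, cn T (P i ∩ P j) := by
  have e : ∀ D, ff P N D ^ 2 = ∑ i ∈ range N, ∑ j ∈ range N,
      if D ∈ P i ∩ P j then (1 : ℝ) else 0 := by
    intro D
    unfold ff
    rw [pow_two, sum_mul_sum]
    refine sum_congr rfl fun i _ => sum_congr rfl fun j _ => ?_
    by_cases h1 : D ∈ P i <;> by_cases h2 : D ∈ P j <;> simp [h1, h2]
  rw [sum_congr rfl fun D _ => e D, sum_comm]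
  refine sum_congr rfl fun i _ => ?_
  rw [sum_comm]
  refine sum_congr rfl fun j _ => ?_
  rw [cn_sum]
  refine sum_congr rfl fun D _ => ?_
  congr

theorem second_moment : ∑ D ∈ T, (p * N - ff P N D) ^ 2 =
    p ^ 2 * N ^ 2 * (T.card : ℝ) - 2 * (p * N) * ∑ i ∈ range N, cn T (P i) +
      ∑ i ∈ range N, ∑ j ∈ range N, cn T (P i ∩ P j) := by
  rw [← sum_ff, ← sum_ff_sq, mul_sum]
  have e : ∀ D, (p * N - ff P N D) ^ 2 = p ^ 2 * N ^ 2 - 2 * (p * N) * ff P N D + ff P N D ^ 2 := by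
    intro D
    ring
  rw [sum_congr rfl fun D _ => e D, sum_add_distrib, sum_sub_distrib, sum_const, nsmul_eq_mul]
  ring

end second

theorem limit_val (N : ℕ) (hN0 : (0 : ℝ) < N) (p : ℝ) :
    p ^ 2 * N ^ 2 - 2 * (p * N) * ∑ _i ∈ range N, p +
        (∑ i ∈ range N, ∑ j ∈ range N, if i = j then p else p * p) < N := by
  have e1 : ∀ i ∈ range N, (∑ j ∈ range N, if i = j then p else p * p) =
      N * (p * p) + (p - p * p) := by
    intro i hi
    have e2 : ∀ j, (if i = j then p else p * p) = p * p + if i = j then p - p * p else 0 := by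
      intro j
      split_ifs <;> ring
    rw [sum_congr rfl fun j _ => e2 j, sum_add_distrib, sum_const, card_range, nsmul_eq_mul,
      sum_ite_eq, if_pos hi]
  rw [sum_congr rfl e1, sum_const, card_range, nsmul_eq_mul, sum_const, card_range, nsmul_eq_mul]
  have h : (N : ℝ) * (p - p * p) < N * 1 := by
    refine mul_lt_mul_of_pos_left ?_ hN0
    nlinarith [sq_nonneg (p - 1 / 2)]
  nlinarith

/-- **Mixing.** -/
theorem mix {S : ℕ → Finset ℕ} (hS : ∀ᶠ X in atTop, (S X).Nonempty) {P : ℕ → Set ℕ} {p : ℝ}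
    (hp0 : 0 ≤ p) (hp1 : p ≤ 1)
    (h1 : ∀ i, Tendsto (fun X => cn (S X) (P i) / ((S X).card : ℝ)) atTop (𝓝 p))
    (h2 : ∀ i j, i ≠ j → Tendsto (fun X => cn (S X) (P i ∩ P j) / ((S X).card : ℝ)) atTop
      (𝓝 (p * p)))
    {A : Set ℕ} {δ : ℝ} (hA : UD S A δ) {ε : ℝ} (hε : 0 < ε) : ∃ i, UD S (A ∩ P i) (p * δ - ε) := by
  by_contra hcon
  push Not at hcon
  obtain ⟨N, hN⟩ := exists_nat_gt (4 / ε ^ 2)
  have hN0 : (0 : ℝ) < N := lt_trans (by positivity) hN
  -- the second moment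
  have hlim : Tendsto (fun X => (∑ D ∈ S X, (p * N - ff P N D) ^ 2) / ((S X).card : ℝ)) atTop
      (𝓝 (p ^ 2 * N ^ 2 - 2 * (p * N) * ∑ i ∈ range N, p +
        ∑ i ∈ range N, ∑ j ∈ range N, if i = j then p else p * p)) := by
    have e : (fun X => p ^ 2 * N ^ 2 -
        2 * (p * N) * ∑ i ∈ range N, cn (S X) (P i) / ((S X).card : ℝ) +
        ∑ i ∈ range N, ∑ j ∈ range N, cn (S X) (P i ∩ P j) / ((S X).card : ℝ)) =ᶠ[atTop]
        fun X => (∑ D ∈ S X, (p * N - ff P N D) ^ 2) / ((S X).card : ℝ) := by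
      filter_upwards [hS] with X hX
      have hc : (0 : ℝ) < ((S X).card : ℝ) := by exact_mod_cast hX.card_pos
      rw [second_moment]
      simp only [← sum_div]
      field_simp
    refine Tendsto.congr' e ?_
    refine (tendsto_const_nhds.sub (tendsto_const_nhds.mul
      (tendsto_finsetSum _ fun i _ => h1 i))).add
      (tendsto_finsetSum _ fun i _ => tendsto_finsetSum _ fun j _ => ?_)
    by_cases hij : i = j
    · subst hij
      rw [if_pos rfl]
      refine (h1 i).congr fun X => ?_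
      rw [Set.inter_self]
    · rw [if_neg hij]
      exact h2 i j hij
  have hev := hlim.eventually (gt_mem_nhds (limit_val N hN0 p))
  have hsmall : ∀ᶠ X in atTop, ∀ i ∈ range N,
      cn (S X) (A ∩ P i) ≤ (p * δ - ε) * ((S X).card : ℝ) := by
    rw [eventually_all_finset]
    exact fun i _ => not_UD (hcon i)
  have h5 := (hA (ε / 2) (by positivity)).and_eventually (hev.and (hsmall.and hS))
  obtain ⟨X, hX1, hX2, hX3, hX4⟩ := h5.exists
  have hn : (0 : ℝ) < ((S X).card : ℝ) := by exact_mod_cast hX4.card_pos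
  rw [div_lt_iff₀ hn] at hX2
  obtain ⟨T, hT⟩ : ∃ T, T = (S X).filter fun D => D ∈ A := ⟨_, rfl⟩
  have hTS : T ⊆ S X := by
    rw [hT]
    exact filter_subset _ _
  have hTc : (T.card : ℝ) = cn (S X) A := by
    rw [hT]
    rfl
  -- the sum over `A`
  have k1 : ∑ D ∈ T, (p * N - ff P N D) = p * N * (T.card : ℝ) -
      ∑ i ∈ range N, cn T (P i) := by
    rw [sum_sub_distrib, sum_const, nsmul_eq_mul, sum_ff]
    ring
  have k2 : ∑ i ∈ range N, cn T (P i) ≤ N * ((p * δ - ε) * ((S X).card : ℝ)) := by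
    have : ∑ i ∈ range N, cn T (P i) ≤ ∑ i ∈ range N, (p * δ - ε) * ((S X).card : ℝ) := by
      refine sum_le_sum fun i hi => ?_
      have e : cn T (P i) = cn (S X) (A ∩ P i) := by
        unfold cn
        rw [hT, filter_filter]
        congr 2
        ext D
        simp only [mem_filter, Set.mem_inter_iff]
      rw [e]
      exact hX3 i hi
    rwa [sum_const, card_range, nsmul_eq_mul] at this
  have k3 : N * ε / 2 * ((S X).card : ℝ) ≤ ∑ D ∈ T, (p * N - ff P N D) := by
    rw [k1, hTc]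
    have h3 : p * N * ((δ - ε / 2) * ((S X).card : ℝ)) ≤ p * N * cn (S X) A :=
      mul_le_mul_of_nonneg_left hX1 (mul_nonneg hp0 hN0.le)
    have h4 : p * (N * ε * ((S X).card : ℝ)) ≤ 1 * (N * ε * ((S X).card : ℝ)) :=
      mul_le_mul_of_nonneg_right hp1 (by positivity)
    linarith
  have k4 : (∑ D ∈ T, (p * N - ff P N D)) ^ 2 ≤ ((S X).card : ℝ) * (N * ((S X).card : ℝ)) := by
    refine (sq_sum_le_card_mul_sum_sq).trans ?_
    have h5 : ∑ D ∈ T, (p * N - ff P N D) ^ 2 ≤ ∑ D ∈ S X, (p * N - ff P N D) ^ 2 :=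
      sum_le_sum_of_subset_of_nonneg hTS fun _ _ _ => sq_nonneg _
    have h6 : (T.card : ℝ) ≤ ((S X).card : ℝ) := by exact_mod_cast card_le_card hTS
    exact mul_le_mul h6 (h5.trans hX2.le) (sum_nonneg fun _ _ => sq_nonneg _) hn.le
  have k5 : (N * ε / 2 * ((S X).card : ℝ)) ^ 2 ≤ ((S X).card : ℝ) * (N * ((S X).card : ℝ)) :=
    (pow_le_pow_left₀ (by positivity) k3 2).trans k4
  have k6 : N * ε ^ 2 / 4 ≤ 1 := by
    have h7 : (N * ((S X).card : ℝ) ^ 2) * (N * ε ^ 2 / 4) ≤ (N * ((S X).card : ℝ) ^ 2) * 1 := by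
      have e1 : (N * ((S X).card : ℝ) ^ 2) * (N * ε ^ 2 / 4) = (N * ε / 2 * ((S X).card : ℝ)) ^ 2 := by
        ring
      have e2 : (N * ((S X).card : ℝ) ^ 2) * 1 = ((S X).card : ℝ) * (N * ((S X).card : ℝ)) := by
        ring
      rw [e1, e2]
      exact k5
    exact le_of_mul_le_mul_left h7 (by positivity)
  rw [div_lt_iff₀ (by positivity)] at hN
  linarith

end Run7.h428.Mix
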