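import Pool.Agent.Run7.h428.MixG
import Pool.Agent.Run7.h428.Uni

/-!
# Dense sets realise every pattern of labels: classes which are cosets

As `UniG`, with two changes. The masks `U D` of the elements of the class are in a coset of the group of
the admissible masks (only the products of an odd number of elements of the class are in the class
again), and the property of a mask is a label in any set `ι` (a relation `R` between masks and
labels), with the joint law: for different admissible masks `V` the labels of `U D ∆ V` are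
asymptotically independent, the label `i` has probability `p i`. Then for every set `A` of positive
upper density and every function `Φ` on the finite sets of indices, such that for each `T` the
`Φ (insert k T)` take only finitely many values, there are `e_0, e_1, ...` in `A` such that the products
over the finite sets `T` with an odd number `≥ 3` of elements have the label `Φ T`; there is an additional
first element `b`, any mask of the coset.
-/

set_option autoImplicit false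

open scoped Classical symmDiff

namespace Run7.h428.OddG

open Finset Filter Topology
open Run7.h428.MixG
open Run7.h428.Uni (W mem_W W_empty W_congr W_insert symm_cancel tr card_tr mem_tr)

variable {α ι : Type}

/-- positive upper density -/
def Large (S : ℕ → Finset α) (A : Set α) : Prop := ∃ δ : ℝ, 0 < δ ∧ UD S A δ

theorem Large.mono {S : ℕ → Finset α} {A B : Set α} (h : Large S A) (hAB : A ⊆ B) : Large S B := by
  obtain ⟨δ, h1, h2⟩ := h
  exact ⟨δ, h1, h2.mono hAB⟩

/-- the law -/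
structure Law (S : ℕ → Finset α) (U : α → Finset ℕ) (ht : α → ℕ) (R : Finset ℕ → ι → Prop)
    (adm : Finset ℕ → Prop) (p : ι → ℝ) : Prop where
  inf : Tendsto (fun X => ((S X).card : ℝ)) atTop atTop
  p0 : ∀ i, 0 < p i
  p1 : ∀ i, p i ≤ 1
  adm0 : adm ∅
  admS : ∀ V V', adm V → adm V' → adm (V ∆ V')
  admU : ∀ X X', ∀ D ∈ S X, ∀ D' ∈ S X', adm (U D ∆ U D')
  nadm : ∀ X, ∀ D ∈ S X, ¬ adm (U D)
  fib : ∀ V : Finset ℕ, Tendsto (fun X => cn (S X) {D | U D = V} / ((S X).card : ℝ)) atTop (𝓝 0)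
  fht : ∀ B : ℕ, {D | (∃ X, D ∈ S X) ∧ ht D ≤ B}.Finite
  law : ∀ (P : Finset (Finset ℕ)) (f : Finset ℕ → ι), (∀ V ∈ P, adm V) →
    Tendsto (fun X => cn (S X) {D | ∀ V ∈ P, R (U D ∆ V) (f V)} / ((S X).card : ℝ)) atTop
      (𝓝 (∏ V ∈ P, p (f V)))

/-- the masks of the coset -/
def Od (S : ℕ → Finset α) (U : α → Finset ℕ) (adm : Finset ℕ → Prop) (b : Finset ℕ) : Prop :=
  ∀ X, ∀ D ∈ S X, adm (b ∆ U D)

/-- the event with the labels `f` for the masks in `Q`, translated by `m` -/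
def Ev (U : α → Finset ℕ) (R : Finset ℕ → ι → Prop) (m : Finset ℕ) (Q : Finset (Finset ℕ))
    (f : Finset ℕ → ι) : Set α := {D | ∀ w ∈ Q, R (U D ∆ (m ∆ w)) (f w)}

/-- its probability -/
noncomputable def pr (p : ι → ℝ) (Q : Finset (Finset ℕ)) (f : Finset ℕ → ι) : ℝ := ∏ w ∈ Q, p (f w)

variable {S : ℕ → Finset α} {U : α → Finset ℕ} {ht : α → ℕ} {R : Finset ℕ → ι → Prop}
  {adm : Finset ℕ → Prop} {p : ι → ℝ}

theorem Law.ne (h : Law S U ht R adm p) : ∀ᶠ X in atTop, (S X).Nonempty := by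
  filter_upwards [h.inf.eventually_gt_atTop 0] with X hX
  rw [← card_pos]
  exact_mod_cast hX

theorem Law.ex (h : Law S U ht R adm p) : ∃ X, ∃ D, D ∈ S X := by
  obtain ⟨X, hX⟩ := h.ne.exists
  exact ⟨X, hX⟩

theorem Law.pr_pos (h : Law S U ht R adm p) (Q : Finset (Finset ℕ)) (f : Finset ℕ → ι) :
    0 < pr p Q f := prod_pos fun _ _ => h.p0 _

theorem Law.pr_le (h : Law S U ht R adm p) (Q : Finset (Finset ℕ)) (f : Finset ℕ → ι) :
    pr p Q f ≤ 1 := prod_le_one (fun _ _ => (h.p0 _).le) fun _ _ => h.p1 _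

theorem tr_inj (m : Finset ℕ) (Q : Finset (Finset ℕ)) :
    Set.InjOn (fun w => m ∆ w) (Q : Set (Finset ℕ)) := fun _ _ _ _ h => symm_cancel h

theorem Law.ev (h : Law S U ht R adm p) {m : Finset ℕ} {Q : Finset (Finset ℕ)} {f : Finset ℕ → ι}
    (hm : ∀ w ∈ Q, adm (m ∆ w)) :
    Tendsto (fun X => cn (S X) (Ev U R m Q f) / ((S X).card : ℝ)) atTop (𝓝 (pr p Q f)) := by
  have h1 := h.law (tr m Q) (fun V => f (m ∆ V)) (fun V hV => by
    obtain ⟨w, hw, rfl⟩ := mem_tr.1 hV
    exact hm w hw)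
  have e1 : ∏ V ∈ tr m Q, p (f (m ∆ V)) = pr p Q f := by
    unfold tr pr
    rw [prod_image (tr_inj m Q)]
    refine prod_congr rfl fun w _ => ?_
    rw [symmDiff_symmDiff_cancel_left]
  have e2 : {D | ∀ V ∈ tr m Q, R (U D ∆ V) (f (m ∆ V))} = Ev U R m Q f := by
    ext D
    constructor
    · intro h2 w hw
      have := h2 (m ∆ w) (mem_tr.2 ⟨w, hw, rfl⟩)
      rwa [symmDiff_symmDiff_cancel_left] at this
    · intro h2 V hV
      obtain ⟨w, hw, rfl⟩ := mem_tr.1 hV
      rw [symmDiff_symmDiff_cancel_left]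
      exact h2 w hw
  rw [e1, e2] at h1
  exact h1

theorem Law.ev2 (h : Law S U ht R adm p) {m m' : Finset ℕ} {Q : Finset (Finset ℕ)}
    {f : Finset ℕ → ι} (hm : ∀ w ∈ Q, adm (m ∆ w)) (hm' : ∀ w ∈ Q, adm (m' ∆ w))
    (hmm : ∀ w ∈ Q, ∀ w' ∈ Q, m ∆ w ≠ m' ∆ w') :
    Tendsto (fun X => cn (S X) (Ev U R m Q f ∩ Ev U R m' Q f) / ((S X).card : ℝ)) atTop
      (𝓝 (pr p Q f * pr p Q f)) := by
  have hd : Disjoint (tr m Q) (tr m' Q) := by
    rw [disjoint_left]
    intro x hx hx'
    obtain ⟨w, hw, rfl⟩ := mem_tr.1 hx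
    obtain ⟨w', hw', he⟩ := mem_tr.1 hx'
    exact hmm w hw w' hw' he.symm
  set g : Finset ℕ → ι := fun V => if V ∈ tr m Q then f (m ∆ V) else f (m' ∆ V) with hg
  have g1 : ∀ w ∈ Q, g (m ∆ w) = f w := by
    intro w hw
    simp only [hg]
    rw [if_pos (mem_tr.2 ⟨w, hw, rfl⟩), symmDiff_symmDiff_cancel_left]
  have g2 : ∀ w ∈ Q, g (m' ∆ w) = f w := by
    intro w hw
    simp only [hg]
    rw [if_neg, symmDiff_symmDiff_cancel_left]
    exact disjoint_right.1 hd (mem_tr.2 ⟨w, hw, rfl⟩)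
  have h1 := h.law (tr m Q ∪ tr m' Q) g (fun V hV => by
    rcases mem_union.1 hV with hV | hV
    · obtain ⟨w, hw, rfl⟩ := mem_tr.1 hV
      exact hm w hw
    · obtain ⟨w, hw, rfl⟩ := mem_tr.1 hV
      exact hm' w hw)
  have e1 : ∏ V ∈ tr m Q ∪ tr m' Q, p (g V) = pr p Q f * pr p Q f := by
    rw [prod_union hd]
    unfold tr pr
    have a1 : ∏ w ∈ Q, p (g (m ∆ w)) = ∏ w ∈ Q, p (f w) :=
      prod_congr rfl fun w hw => by rw [g1 w hw]
    have a2 : ∏ w ∈ Q, p (g (m' ∆ w)) = ∏ w ∈ Q, p (f w) :=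
      prod_congr rfl fun w hw => by rw [g2 w hw]
    rw [prod_image (tr_inj m Q), prod_image (tr_inj m' Q), a1, a2]
  have e2 : {D | ∀ V ∈ tr m Q ∪ tr m' Q, R (U D ∆ V) (g V)} = Ev U R m Q f ∩ Ev U R m' Q f := by
    ext D
    constructor
    · intro h2
      refine ⟨fun w hw => ?_, fun w hw => ?_⟩
      · have := h2 (m ∆ w) (mem_union_left _ (mem_tr.2 ⟨w, hw, rfl⟩))
        rwa [g1 w hw] at this
      · have := h2 (m' ∆ w) (mem_union_right _ (mem_tr.2 ⟨w, hw, rfl⟩))
        rwa [g2 w hw] at this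
    · rintro ⟨h2, h3⟩ V hV
      rcases mem_union.1 hV with hV | hV
      · obtain ⟨w, hw, rfl⟩ := mem_tr.1 hV
        rw [g1 w hw]
        exact h2 w hw
      · obtain ⟨w, hw, rfl⟩ := mem_tr.1 hV
        rw [g2 w hw]
        exact h3 w hw
  rw [e1, e2] at h1
  exact h1

/-- **Mixing**: for all but finitely many `m` -/
theorem Law.finite_exc (h : Law S U ht R adm p) {Q : Finset (Finset ℕ)} {f : Finset ℕ → ι}
    {A : Set α} {δ : ℝ} (hA : UD S A δ) {ε : ℝ} (hε : 0 < ε) :
    {m : Finset ℕ | (∀ w ∈ Q, adm (m ∆ w)) ∧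
      ¬ UD S (A ∩ Ev U R m Q f) (pr p Q f * δ - ε)}.Finite := by
  by_contra hinf
  set E := {m : Finset ℕ | (∀ w ∈ Q, adm (m ∆ w)) ∧
    ¬ UD S (A ∩ Ev U R m Q f) (pr p Q f * δ - ε)} with hE
  have hinf : E.Infinite := hinf
  obtain ⟨g, hf1, hf2⟩ := exists_seq_of_forall_finset_exists (fun m => m ∈ E)
    (fun m m' : Finset ℕ => ∀ w ∈ Q, ∀ w' ∈ Q, m ∆ w ≠ m' ∆ w') (fun s _ => by
      obtain ⟨y, hy, hyF⟩ := hinf.exists_notMem_finset
        (s.biUnion fun x => (Q ×ˢ Q).image fun q => (x ∆ q.1) ∆ q.2)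
      refine ⟨y, hy, fun x hx w hw w' hw' he => hyF ?_⟩
      rw [mem_biUnion]
      refine ⟨x, hx, mem_image.2 ⟨(w, w'), mem_product.2 ⟨hw, hw'⟩, ?_⟩⟩
      show (x ∆ w) ∆ w' = y
      rw [he, symmDiff_symmDiff_cancel_right])
  have hsep : ∀ i j, i ≠ j → ∀ w ∈ Q, ∀ w' ∈ Q, g i ∆ w ≠ g j ∆ w' := by
    intro i j hij w hw w' hw'
    rcases lt_or_gt_of_ne hij with h1 | h1
    · exact hf2 i j h1 w hw w' hw'
    · exact (hf2 j i h1 w' hw' w hw).symm
  obtain ⟨i, hi⟩ := mix h.ne (P := fun i => Ev U R (g i) Q f) (h.pr_pos Q f).le (h.pr_le Q f)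
    (fun i => h.ev (hf1 i).1)
    (fun i j hij => h.ev2 (hf1 i).1 (hf1 j).1 (hsep i j hij)) hA hε
  exact (hf1 i).2 hi

theorem Law.large_exc (h : Law S U ht R adm p) {Q : Finset (Finset ℕ)} {f : Finset ℕ → ι}
    {A : Set α} (hA : Large S A) :
    {m : Finset ℕ | (∀ w ∈ Q, adm (m ∆ w)) ∧ ¬ Large S (A ∩ Ev U R m Q f)}.Finite := by
  obtain ⟨δ, h1, h2⟩ := hA
  have hp := h.pr_pos Q f
  refine (h.finite_exc (Q := Q) (f := f) h2 (ε := pr p Q f * δ / 2) (by positivity)).subset ?_
  rintro m ⟨h3, h4⟩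
  refine ⟨h3, fun h5 => h4 ⟨_, ?_, h5⟩⟩
  have : 0 < pr p Q f * δ := by positivity
  linarith

/-- a set of positive upper density has elements outside of finitely many masks and of a finite set -/
theorem Law.large_avoid (h : Law S U ht R adm p) {A : Set α} (hA : Large S A)
    {Z : Set (Finset ℕ)} (hZ : Z.Finite) (B : ℕ) :
    ∃ D ∈ A, (∃ X, D ∈ S X) ∧ U D ∉ Z ∧ B < ht D := by
  obtain ⟨δ, h1, h2⟩ := hA
  obtain ⟨Z', hZ'⟩ : ∃ Z' : Finset (Finset ℕ), ∀ V, V ∈ Z' ↔ V ∈ Z :=
    ⟨hZ.toFinset, fun V => hZ.mem_toFinset⟩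
  have h3 : Tendsto (fun X => ∑ V ∈ Z', cn (S X) {D | U D = V} / ((S X).card : ℝ)) atTop (𝓝 0) := by
    have h4 := tendsto_finsetSum Z' fun V _ => h.fib V
    simpa using h4
  have h4 := (h2 (δ / 4) (by positivity)).and_eventually
    ((h3.eventually (gt_mem_nhds (show (0 : ℝ) < δ / 4 by positivity))).and
      ((h.inf.eventually_gt_atTop (((h.fht B).toFinset.card : ℝ) / (δ / 4))).and h.ne))
  obtain ⟨X, h5, h6, h7, h8⟩ := h4.exists
  have hn : (0 : ℝ) < ((S X).card : ℝ) := by exact_mod_cast h8.card_pos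
  rw [← sum_div, div_lt_iff₀ hn] at h6
  rw [div_lt_iff₀ (by positivity)] at h7
  by_contra hcon
  push Not at hcon
  have h9 : cn (S X) A ≤ ∑ V ∈ Z', cn (S X) {D | U D = V} + ((h.fht B).toFinset.card : ℝ) := by
    have h10 : (S X).filter (fun D => D ∈ A) ⊆
        (Z'.biUnion fun V => (S X).filter fun D => U D = V) ∪ (h.fht B).toFinset := by
      intro D hD
      rw [mem_filter] at hD
      rw [mem_union, mem_biUnion, Set.Finite.mem_toFinset]
      by_cases hZD : U D ∈ Z
      · exact Or.inl ⟨U D, (hZ' _).2 hZD, mem_filter.2 ⟨hD.1, rfl⟩⟩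
      · exact Or.inr ⟨⟨X, hD.1⟩, hcon D hD.2 ⟨X, hD.1⟩ hZD⟩
    have h11 : (((S X).filter fun D => D ∈ A).card : ℝ) ≤
        ((∑ V ∈ Z', ((S X).filter fun D => U D = V).card +
          (h.fht B).toFinset.card : ℕ) : ℝ) :=
      Nat.cast_le.2 ((card_le_card h10).trans ((card_union_le _ _).trans
        (Nat.add_le_add_right card_biUnion_le _)))
    rw [Nat.cast_add, Nat.cast_sum] at h11
    refine h11.trans (le_of_eq ?_)
    congr 1
    refine sum_congr rfl fun V _ => ?_
    unfold cn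
    congr 2
    ext D
    simp
  have h12 : (δ - δ / 4) * ((S X).card : ℝ) ≤ cn (S X) A := h5
  have h13 : (δ - δ / 4) * ((S X).card : ℝ) = δ / 4 * ((S X).card : ℝ) +
      ((S X).card : ℝ) * (δ / 4) + δ / 4 * ((S X).card : ℝ) := by ring
  have h14 : 0 < δ / 4 * ((S X).card : ℝ) := by positivity
  linarith

/-- products of an even number and of an odd number of masks of the coset -/
theorem Law.adm_W (h : Law S U ht R adm p) {u : ℕ → Finset ℕ} (T : Finset ℕ)
    (hu : ∀ i ∈ T, Od S U adm (u i)) :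
    (Even T.card → adm (W u T)) ∧ (Odd T.card → Od S U adm (W u T)) := by
  obtain ⟨X₀, D₀, hD₀⟩ := h.ex
  induction T using Finset.induction_on with
  | empty =>
    rw [W_empty]
    exact ⟨fun _ => h.adm0, fun ho => by simp at ho⟩
  | insert a T ha ih =>
    obtain ⟨h1, h2⟩ := ih fun i hi => hu i (mem_insert_of_mem hi)
    rw [W_insert ha, card_insert_of_notMem ha]
    have hua := hu a (mem_insert_self a T)
    constructor
    · intro he
      have ho : Odd T.card := by
        rw [Nat.even_add_one] at he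
        exact Nat.not_even_iff_odd.1 he
      have h3 := h.admS _ _ (hua X₀ D₀ hD₀) (h2 ho X₀ D₀ hD₀)
      have e : (u a ∆ U D₀) ∆ (W u T ∆ U D₀) = u a ∆ W u T := by
        rw [symmDiff_comm (W u T), symmDiff_assoc, symmDiff_symmDiff_cancel_left]
      rwa [e] at h3
    · intro ho X D hD
      have he : Even T.card := by
        rw [Nat.odd_add_one] at ho
        exact Nat.not_odd_iff_even.1 ho
      have h3 := h.admS _ _ (h1 he) (hua X D hD)
      have e : W u T ∆ (u a ∆ U D) = (u a ∆ W u T) ∆ U D := by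
        rw [← symmDiff_assoc, symmDiff_comm (W u T)]
      rwa [e] at h3

theorem Law.od_U (h : Law S U ht R adm p) {X : ℕ} {D : α} (hD : D ∈ S X) : Od S U adm (U D) :=
  fun X' D' hD' => h.admU X X' D hD D' hD'

theorem Law.od_ne (h : Law S U ht R adm p) {b : Finset ℕ} (hb : Od S U adm b) : b ≠ ∅ := by
  rintro rfl
  obtain ⟨X, D, hD⟩ := h.ex
  have h1 := hb X D hD
  have e : (∅ : Finset ℕ) ∆ U D = U D := bot_symmDiff _
  rw [e] at h1
  exact h.nadm X D hD h1

/-- the masks of the sequence, with the first mask `b` -/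
def msk (b : Finset ℕ) (U : α → Finset ℕ) (e : ℕ → α) : ℕ → Finset ℕ
  | 0 => b
  | j + 1 => U (e j)

theorem msk_congr {b : Finset ℕ} {e e' : ℕ → α} {n : ℕ} (h : ∀ i < n, e i = e' i) :
    ∀ i ≤ n, msk b U e i = msk b U e' i := by
  intro i hi
  cases i with
  | zero => rfl
  | succ j =>
    show U (e j) = U (e' j)
    rw [h j hi]

/-- the pattern for the index `k` -/
def Pt (U : α → Finset ℕ) (R : Finset ℕ → ι → Prop) (Φ : Finset ℕ → ι) (n k : ℕ)
    (u : ℕ → Finset ℕ) : Set α :=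
  {D | ∀ T ⊆ range (n + 1), Even T.card → T.Nonempty → R (U D ∆ W u T) (Φ (insert k T))}

/-- the induction hypothesis -/
structure Inv (S : ℕ → Finset α) (U : α → Finset ℕ) (R : Finset ℕ → ι → Prop)
    (adm : Finset ℕ → Prop) (A : Set α) (Φ : Finset ℕ → ι) (n : ℕ) (u : ℕ → Finset ℕ) : Prop where
  od : ∀ i ≤ n, Od S U adm (u i)
  inj : ∀ T ⊆ range (n + 1), ∀ T' ⊆ range (n + 1), W u T = W u T' → T = T'
  lg : ∀ k, n + 1 ≤ k → Large S (A ∩ Pt U R Φ n k u)

theorem Inv.congr {A : Set α} {Φ : Finset ℕ → ι} {n : ℕ} {u v : ℕ → Finset ℕ}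
    (h : Inv S U R adm A Φ n u) (huv : ∀ i ≤ n, u i = v i) : Inv S U R adm A Φ n v := by
  have hW : ∀ T ⊆ range (n + 1), W u T = W v T := fun T hT =>
    W_congr fun i hi => huv i (Nat.lt_succ_iff.1 (mem_range.1 (hT hi)))
  refine ⟨fun i hi => huv i hi ▸ h.od i hi, fun T hT T' hT' he => ?_, fun k hk => ?_⟩
  · rw [← hW T hT, ← hW T' hT'] at he
    exact h.inj T hT T' hT' he
  · refine (h.lg k hk).mono (Set.inter_subset_inter_right A fun D hD T hT he hne => ?_)
    rw [← hW T hT]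
    exact hD T hT he hne

/-- the values of the labels -/
def LB (Φ : Finset ℕ → ι) : Prop := ∀ T : Finset ℕ, (Set.range fun k : ℕ => Φ (insert k T)).Finite

theorem Law.step (h : Law S U ht R adm p) {A : Set α} {Φ : Finset ℕ → ι} (hΦ : LB Φ) {n : ℕ}
    {u : ℕ → Finset ℕ} (hI : Inv S U R adm A Φ n u) (B : ℕ) :
    ∃ D ∈ A, (∃ X, D ∈ S X) ∧ B < ht D ∧ D ∈ Pt U R Φ n (n + 1) u ∧
      Inv S U R adm A Φ (n + 1) (Function.update u (n + 1) (U D)) := by
  -- the inverse of `W u`
  obtain ⟨iv, hiv⟩ : ∃ iv : Finset ℕ → Finset ℕ, ∀ T ⊆ range (n + 1), iv (W u T) = T := by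
    refine ⟨fun w => if hw : ∃ T ⊆ range (n + 1), W u T = w then hw.choose else ∅, ?_⟩
    intro T hT
    have hw : ∃ T' ⊆ range (n + 1), W u T' = W u T := ⟨T, hT, rfl⟩
    show (if hw : ∃ T' ⊆ range (n + 1), W u T' = W u T then hw.choose else ∅) = T
    rw [dif_pos hw]
    exact hI.inj _ hw.choose_spec.1 T hT hw.choose_spec.2
  set Q : Finset (Finset ℕ) := ((range (n + 1)).powerset.filter fun T => Odd T.card).image (W u)
    with hQd
  have hQm : ∀ T ⊆ range (n + 1), Odd T.card → W u T ∈ Q := fun T hT ho =>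
    mem_image.2 ⟨T, mem_filter.2 ⟨mem_powerset.2 hT, ho⟩, rfl⟩
  set fk : ℕ → Finset ℕ → ι := fun k w => Φ (insert k (insert (n + 1) (iv w))) with hfk
  -- finitely many patterns
  set κ : ℕ → ({T // T ∈ (range (n + 2)).powerset} → ι) := fun k T => Φ (insert k T.1) with hκ
  have hK : (κ '' {k | n + 2 ≤ k}).Finite := by
    have hfi : Finite {T // T ∈ (range (n + 2)).powerset} := Finite.of_fintype _
    refine (Set.Finite.pi' (t := fun T : {T // T ∈ (range (n + 2)).powerset} =>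
      Set.range fun k : ℕ => Φ (insert k T.1)) fun T => hΦ T.1).subset ?_
    rintro _ ⟨k, -, rfl⟩ T
    exact ⟨k, rfl⟩
  have hκP : ∀ k k', κ k = κ k' → Pt U R Φ n k u = Pt U R Φ n k' u := by
    intro k k' hkk
    have h1 : ∀ T ⊆ range (n + 2), Φ (insert k T) = Φ (insert k' T) := fun T hT =>
      congrFun hkk ⟨T, mem_powerset.2 hT⟩
    ext D
    refine forall_congr' fun T => forall_congr' fun hT => ?_
    rw [h1 T (hT.trans (range_subset_range.2 (by omega)))]
  have hκf : ∀ k k', κ k = κ k' → ∀ w ∈ Q, fk k w = fk k' w := by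
    intro k k' hkk w hw
    obtain ⟨T, hT, rfl⟩ := mem_image.1 hw
    rw [mem_filter, mem_powerset] at hT
    simp only [hfk]
    rw [hiv T hT.1]
    refine congrFun hkk ⟨insert (n + 1) T, mem_powerset.2 ?_⟩
    intro i hi
    rcases mem_insert.1 hi with rfl | hi
    · exact mem_range.2 (by omega)
    · have := mem_range.1 (hT.1 hi)
      exact mem_range.2 (by omega)
  set EX : Set (Finset ℕ) := ⋃ g ∈ (κ '' {k | n + 2 ≤ k}), {m : Finset ℕ |
    (∀ w ∈ Q, adm (m ∆ w)) ∧ ∃ k, n + 2 ≤ k ∧ κ k = g ∧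
      ¬ Large S ((A ∩ Pt U R Φ n k u) ∩ Ev U R m Q (fk k))} with hEX
  have hEXf : EX.Finite := by
    refine Set.Finite.biUnion hK fun g hg => ?_
    obtain ⟨k₀, hk₀, hg₀⟩ := hg
    have hk₀' : n + 2 ≤ k₀ := hk₀
    refine (h.large_exc (Q := Q) (f := fk k₀) (hI.lg k₀ (by omega))).subset ?_
    rintro m ⟨h1, k, hk, hkg, h2⟩
    refine ⟨h1, fun h3 => h2 ?_⟩
    have e1 := hκP k₀ k (hg₀.trans hkg.symm)
    have e2 := hκf k₀ k (hg₀.trans hkg.symm)
    rw [e1] at h3
    refine h3.mono (Set.inter_subset_inter_right _ fun D hD w hw => ?_)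
    rw [← e2 w hw]
    exact hD w hw
  set PW : Finset (Finset ℕ) := (range (n + 1)).powerset.image (W u) with hPW
  have hfin2 : (EX ∪ (((PW ×ˢ PW).image fun q => q.1 ∆ q.2 : Finset (Finset ℕ)) :
      Set (Finset ℕ))).Finite := hEXf.union (finite_toSet _)
  obtain ⟨D, hD1, ⟨X, hX⟩, hDe, hDB⟩ := h.large_avoid (hI.lg (n + 1) le_rfl) hfin2 B
  have hD4 : U D ∉ EX := fun h1 => hDe (Or.inl h1)
  have hD5 : ∀ x ∈ PW, ∀ y ∈ PW, x ∆ y ≠ U D := fun x hx y hy he => hDe (Or.inr (by
    rw [mem_coe, mem_image]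
    exact ⟨(x, y), mem_product.2 ⟨hx, hy⟩, he⟩))
  refine ⟨D, hD1.1, ⟨X, hX⟩, hDB, hD1.2, ?_⟩
  have hnr : ∀ T ⊆ range (n + 1), n + 1 ∉ T := fun T hT h1 => lt_irrefl _ (mem_range.1 (hT h1))
  have hW1 : ∀ T ⊆ range (n + 1), W (Function.update u (n + 1) (U D)) T = W u T := fun T hT =>
    W_congr fun i hi => Function.update_of_ne (fun h1 : i = n + 1 => hnr T hT (h1 ▸ hi)) _ _
  have hW2 : ∀ T ⊆ range (n + 1),
      W (Function.update u (n + 1) (U D)) (insert (n + 1) T) = U D ∆ W u T := by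
    intro T hT
    rw [W_insert (hnr T hT), Function.update_self, hW1 T hT]
  have hsplit : ∀ T ⊆ range (n + 1 + 1), (T ⊆ range (n + 1)) ∨
      ∃ T' ⊆ range (n + 1), T = insert (n + 1) T' := by
    intro T hT
    by_cases hn : n + 1 ∈ T
    · right
      refine ⟨T.erase (n + 1), fun i hi => ?_, (insert_erase hn).symm⟩
      rw [mem_erase] at hi
      have := mem_range.1 (hT hi.2)
      exact mem_range.2 (by omega)
    · left
      intro i hi
      have h1 := mem_range.1 (hT hi)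
      have h2 : i ≠ n + 1 := fun h2 => hn (h2 ▸ hi)
      exact mem_range.2 (by omega)
  have hRm : ∀ T ⊆ range (n + 1), W u T ∈ PW := fun T hT =>
    mem_image.2 ⟨T, mem_powerset.2 hT, rfl⟩
  refine ⟨fun i hi => ?_, fun T hT T' hT' he => ?_, fun k hk => ?_⟩
  · rcases Nat.lt_or_ge i (n + 1) with h1 | h1
    · rw [Function.update_of_ne h1.ne]
      exact hI.od i (by omega)
    · have h2 : i = n + 1 := by omega
      rw [h2, Function.update_self]
      exact h.od_U hX
  · rcases hsplit T hT with h1 | ⟨T1, h1, rfl⟩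
    · rcases hsplit T' hT' with h2 | ⟨T2, h2, rfl⟩
      · rw [hW1 T h1, hW1 T' h2] at he
        exact hI.inj T h1 T' h2 he
      · rw [hW1 T h1, hW2 T2 h2] at he
        refine absurd ?_ (hD5 _ (hRm T h1) _ (hRm T2 h2))
        rw [he, symmDiff_symmDiff_cancel_right]
    · rcases hsplit T' hT' with h2 | ⟨T2, h2, rfl⟩
      · rw [hW2 T1 h1, hW1 T' h2] at he
        refine absurd ?_ (hD5 _ (hRm T' h2) _ (hRm T1 h1))
        rw [← he, symmDiff_symmDiff_cancel_right]
      · rw [hW2 T1 h1, hW2 T2 h2] at he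
        rw [hI.inj T1 h1 T2 h2 (symm_cancel he)]
  · have hadm : ∀ w ∈ Q, adm (U D ∆ w) := by
      intro w hw
      obtain ⟨T, hT, rfl⟩ := mem_image.1 hw
      rw [mem_filter, mem_powerset] at hT
      have h1 := (h.adm_W T fun i hi =>
        hI.od i (Nat.lt_succ_iff.1 (mem_range.1 (hT.1 hi)))).2 hT.2 X D hX
      rwa [symmDiff_comm] at h1
    have hlarge : Large S ((A ∩ Pt U R Φ n k u) ∩ Ev U R (U D) Q (fk k)) := by
      by_contra hcon
      apply hD4
      rw [hEX]
      simp only [Set.mem_iUnion]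
      have hk' : n + 2 ≤ k := hk
      exact ⟨κ k, ⟨k, hk', rfl⟩, hadm, k, hk', rfl, hcon⟩
    refine hlarge.mono ?_
    rintro D' ⟨⟨a1, a2⟩, a3⟩
    refine ⟨a1, fun T hT he hne => ?_⟩
    rcases hsplit T hT with h1 | ⟨T1, h1, rfl⟩
    · rw [hW1 T h1]
      exact a2 T h1 he hne
    · have ho : Odd T1.card := by
        rw [card_insert_of_notMem (hnr T1 h1), Nat.even_add_one] at he
        exact Nat.not_even_iff_odd.1 he
      rw [hW2 T1 h1]
      have h2 := a3 _ (hQm T1 h1 ho)
      simp only [hfk] at h2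
      rw [hiv T1 h1] at h2
      exact h2

/-- recursive choice -/
theorem build {β : Type} (I : ℕ → (ℕ → β) → Prop) (Q : ℕ → (ℕ → β) → β → Prop)
    (hI : ∀ n d e, (∀ i < n, d i = e i) → I n d → I n e)
    (hQ : ∀ n d e x, (∀ i < n, d i = e i) → Q n d x → Q n e x) (d0 : ℕ → β) (h0 : I 0 d0)
    (hs : ∀ n d, I n d → ∃ x, Q n d x ∧ I (n + 1) (Function.update d n x)) :
    ∃ d : ℕ → β, ∀ n, I n d ∧ Q n d (d n) := by
  let x : (n : ℕ) → (d : ℕ → β) → I n d → β := fun n d h => (hs n d h).choose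
  have hx1 : ∀ n d (h : I n d), Q n d (x n d h) := fun n d h => (hs n d h).choose_spec.1
  have hx2 : ∀ n d (h : I n d), I (n + 1) (Function.update d n (x n d h)) :=
    fun n d h => (hs n d h).choose_spec.2
  let F : (n : ℕ) → {d : ℕ → β // I n d} := fun n =>
    Nat.rec (motive := fun n => {d : ℕ → β // I n d}) ⟨d0, h0⟩
      (fun n f => ⟨Function.update f.1 n (x n f.1 f.2), hx2 n f.1 f.2⟩) n
  have hF : ∀ n, (F (n + 1)).1 = Function.update (F n).1 n (x n (F n).1 (F n).2) := fun n => rfl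
  refine ⟨fun n => (F (n + 1)).1 n, fun n => ?_⟩
  have hd : ∀ n, (F (n + 1)).1 n = x n (F n).1 (F n).2 := by
    intro n
    rw [hF, Function.update_self]
  have hag : ∀ n, ∀ i < n, (F n).1 i = (F (i + 1)).1 i := by
    intro n
    induction n with
    | zero => intro i hi; exact absurd hi (Nat.not_lt_zero i)
    | succ n ih =>
      intro i hi
      rcases Nat.lt_succ_iff_lt_or_eq.1 hi with h1 | h1
      · rw [hF, Function.update_of_ne h1.ne]
        exact ih i h1
      · rw [h1]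
  refine ⟨hI n (F n).1 _ (hag n) (F n).2, ?_⟩
  show Q n (fun n => (F (n + 1)).1 n) ((F (n + 1)).1 n)
  rw [hd n]
  exact hQ n (F n).1 _ _ (hag n) (hx1 n (F n).1 (F n).2)

/-- **Every set of positive upper density realises every pattern of labels.** -/
theorem Law.universal [Inhabited α] (h : Law S U ht R adm p) {A : Set α} (hA : Large S A)
    {Φ : Finset ℕ → ι} (hΦ : LB Φ) {b : Finset ℕ} (hb : Od S U adm b) :
    ∃ e : ℕ → α, (∀ i, ht (e i) < ht (e (i + 1))) ∧ (∀ i, e i ∈ A ∧ ∃ X, e i ∈ S X) ∧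
      (∀ T T' : Finset ℕ, W (msk b U e) T = W (msk b U e) T' → T = T') ∧
      (∀ i, Od S U adm (msk b U e i)) ∧
      ∀ T : Finset ℕ, Odd T.card → 3 ≤ T.card → R (W (msk b U e) T) (Φ T) := by
  have hupd : ∀ (n : ℕ) (e : ℕ → α) (D : α), ∀ i ≤ n + 1,
      Function.update (msk b U e) (n + 1) (U D) i = msk b U (Function.update e n D) i := by
    intro n e D i hi
    cases i with
    | zero =>
      rw [Function.update_of_ne (by omega)]
      rfl
    | succ j =>
      by_cases hj : j = n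
      · subst hj
        rw [Function.update_self]
        show U D = U (Function.update e j D j)
        rw [Function.update_self]
      · rw [Function.update_of_ne (by omega)]
        show U (e j) = U (Function.update e n D j)
        rw [Function.update_of_ne hj]
  obtain ⟨e, he⟩ := build (β := α) (fun n e => Inv S U R adm A Φ n (msk b U e))
    (fun n e D => D ∈ A ∧ (∃ X, D ∈ S X) ∧ (∀ i < n, ht (e i) < ht D) ∧
      D ∈ Pt U R Φ n (n + 1) (msk b U e))
    (fun n d e hde hI => hI.congr (msk_congr hde))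
    (fun n d e D hde hQ => by
      refine ⟨hQ.1, hQ.2.1, fun i hi => hde i hi ▸ hQ.2.2.1 i hi, fun T hT hev hne => ?_⟩
      have : W (msk b U e) T = W (msk b U d) T := W_congr fun i hi =>
        (msk_congr hde i (Nat.lt_succ_iff.1 (mem_range.1 (hT hi)))).symm
      rw [this]
      exact hQ.2.2.2 T hT hev hne)
    (fun _ => default)
    (by
      have hW : ∀ T ⊆ range (0 + 1), T = ∅ ∨ T = {0} := by
        intro T hT
        rw [zero_add, range_one] at hT
        exact subset_singleton_iff.1 hT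
      have hb0 : W (msk b U fun _ => default) {0} = b := by
        have := W_insert (u := msk b U fun _ => default) (notMem_empty 0)
        rw [W_empty, insert_empty_eq] at this
        rw [this]
        exact symmDiff_bot _
      have hbne := h.od_ne hb
      refine ⟨fun i hi => ?_, fun T hT T' hT' he => ?_, fun k _ => ?_⟩
      · have : i = 0 := by omega
        rw [this]
        exact hb
      · rcases hW T hT with rfl | rfl <;> rcases hW T' hT' with rfl | rfl
        · rfl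
        · rw [W_empty, hb0] at he
          exact absurd he.symm hbne
        · rw [W_empty, hb0] at he
          exact absurd he hbne
        · rfl
      · refine hA.mono fun D hD => ⟨hD, fun T hT hev hne => ?_⟩
        rcases hW T hT with rfl | rfl
        · exact absurd hne not_nonempty_empty
        · simp at hev)
    (fun n e hI => by
      obtain ⟨D, h1, h2, h3, h4, h5⟩ := h.step hΦ hI (∑ i ∈ range n, ht (e i))
      refine ⟨D, ⟨h1, h2, fun i hi => ?_, h4⟩, h5.congr (hupd n e D)⟩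
      have := Finset.single_le_sum (f := fun i => ht (e i)) (fun j _ => Nat.zero_le _)
        (mem_range.2 hi)
      omega)
  refine ⟨e, fun n => (he (n + 1)).2.2.2.1 n (Nat.lt_succ_self n), fun i =>
    ⟨(he i).2.1, (he i).2.2.1⟩, fun T T' hTT => ?_, fun i => (he i).1.od i le_rfl, fun T ho h3 => ?_⟩
  · obtain ⟨n, hn⟩ : ∃ n, T ∪ T' ⊆ range (n + 1) := by
      refine ⟨(T ∪ T').sup id, fun i hi => ?_⟩
      have := Finset.le_sup (f := id) hi
      exact mem_range.2 (Nat.lt_succ_of_le this)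
    exact (he n).1.inj T (subset_union_left.trans hn) T' (subset_union_right.trans hn) hTT
  have hne : T.Nonempty := by
    rw [← card_pos]
    omega
  obtain ⟨m, hm⟩ : ∃ m, m = T.max' hne := ⟨_, rfl⟩
  have hmT : m ∈ T := by rw [hm]; exact max'_mem T hne
  have hm0 : m ≠ 0 := by
    intro h0
    have h4 : T ⊆ {0} := by
      intro i hi
      have : i ≤ m := by rw [hm]; exact le_max' T i hi
      rw [mem_singleton]
      omega
    have := card_le_card h4
    rw [card_singleton] at this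
    omega
  obtain ⟨n, rfl⟩ : ∃ n, m = n + 1 := ⟨m - 1, by omega⟩
  have hsub : T.erase (n + 1) ⊆ range (n + 1) := by
    intro i hi
    rw [mem_erase] at hi
    have : i ≤ n + 1 := by rw [hm]; exact le_max' T i hi.2
    exact mem_range.2 (by omega)
  have hcard : (T.erase (n + 1)).card + 1 = T.card := card_erase_add_one hmT
  have hev : Even (T.erase (n + 1)).card := by
    rw [← hcard, Nat.odd_add_one] at ho
    exact Nat.not_odd_iff_even.1 ho
  have hne' : (T.erase (n + 1)).Nonempty := by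
    rw [← card_pos]
    omega
  have h1 := (he n).2.2.2.2 (T.erase (n + 1)) hsub hev hne'
  rw [insert_erase hmT] at h1
  have h2 := W_insert (u := msk b U e) (notMem_erase (n + 1) T)
  rw [insert_erase hmT] at h2
  rw [h2]
  exact h1

end Run7.h428.OddG
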