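import Pool.Agent.Run7.h428.OddG

/-!
# One sequence in a dense set for all base points

The law of `OddG`, one label `l`. `bb j` is any sequence of masks of the coset. Every set `A` of positive
upper density contains `e_0, e_1, ...` such that
* for all `j` and all sets `T ≠ ∅` of an even number of indices `≥ j`, the mask `bb j ∆ W T` has the
  label `l` (`W T` is the product of the `e_i`, `i ∈ T`);
* for all sets `T` of an odd number `≥ 3` of indices, the mask `W T` has the label `l`.
-/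

set_option autoImplicit false

open scoped Classical symmDiff

namespace Run7.h428.OddM

open Finset Filter Topology
open Run7.h428.MixG Run7.h428.OddG
open Run7.h428.Uni (W mem_W W_empty W_congr W_insert symm_cancel)

variable {α ι : Type}
variable {S : ℕ → Finset α} {U : α → Finset ℕ} {ht : α → ℕ} {R : Finset ℕ → ι → Prop}
  {adm : Finset ℕ → Prop} {p : ι → ℝ}

/-- the masks of the step `n` -/
noncomputable def VV (U : α → Finset ℕ) (bb : ℕ → Finset ℕ) (e : ℕ → α) (n : ℕ) :
    Finset (Finset ℕ) :=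
  (((range (n + 1)) ×ˢ ((range n).powerset.filter fun T => Even T.card)).image
    fun q => bb q.1 ∆ W (fun i => U (e i)) q.2) ∪
  ((range n).powerset.filter fun T => Odd T.card).image (W fun i => U (e i))

theorem mem_VV {bb : ℕ → Finset ℕ} {e : ℕ → α} {n : ℕ} {w : Finset ℕ} :
    w ∈ VV U bb e n ↔ (∃ j ≤ n, ∃ T ⊆ range n, Even T.card ∧ w = bb j ∆ W (fun i => U (e i)) T) ∨
      ∃ T ⊆ range n, Odd T.card ∧ w = W (fun i => U (e i)) T := by
  unfold VV
  rw [mem_union, mem_image, mem_image]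
  refine or_congr ?_ ?_
  · constructor
    · rintro ⟨⟨j, T⟩, h1, rfl⟩
      rw [mem_product, mem_filter, mem_powerset, mem_range] at h1
      exact ⟨j, Nat.lt_succ_iff.1 h1.1, T, h1.2.1, h1.2.2, rfl⟩
    · rintro ⟨j, hj, T, hT, he, rfl⟩
      refine ⟨(j, T), ?_, rfl⟩
      rw [mem_product, mem_filter, mem_powerset, mem_range]
      exact ⟨Nat.lt_succ_iff.2 hj, hT, he⟩
  · constructor
    · rintro ⟨T, h1, rfl⟩
      rw [mem_filter, mem_powerset] at h1
      exact ⟨T, h1.1, h1.2, rfl⟩
    · rintro ⟨T, hT, ho, rfl⟩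
      exact ⟨T, mem_filter.2 ⟨mem_powerset.2 hT, ho⟩, rfl⟩

theorem VV_congr {bb : ℕ → Finset ℕ} {e e' : ℕ → α} {n : ℕ} (h : ∀ i < n, e i = e' i) :
    VV U bb e n = VV U bb e' n := by
  have hW : ∀ T ⊆ range n, W (fun i => U (e i)) T = W (fun i => U (e' i)) T := fun T hT =>
    W_congr fun i hi => by
      show U (e i) = U (e' i)
      rw [h i (mem_range.1 (hT hi))]
  ext w
  rw [mem_VV, mem_VV]
  refine or_congr ?_ ?_
  · refine exists_congr fun j => and_congr_right fun _ => exists_congr fun T =>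
      and_congr_right fun hT => and_congr_right fun _ => ?_
    rw [hW T hT]
  · refine exists_congr fun T => and_congr_right fun hT => and_congr_right fun _ => ?_
    rw [hW T hT]

/-- the event for the later elements -/
def GG (U : α → Finset ℕ) (R : Finset ℕ → ι → Prop) (l : ι) (bb : ℕ → Finset ℕ) (e : ℕ → α)
    (n : ℕ) : Set α :=
  {D | ∀ i < n, ∀ w ∈ VV U bb e i, R (U D ∆ (U (e i) ∆ w)) l}

theorem GG_congr {l : ι} {bb : ℕ → Finset ℕ} {e e' : ℕ → α} {n : ℕ} (h : ∀ i < n, e i = e' i) :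
    GG U R l bb e n = GG U R l bb e' n := by
  ext D
  refine forall_congr' fun i => forall_congr' fun hi => ?_
  rw [VV_congr (U := U) (bb := bb) (fun j hj => h j (hj.trans hi)), h i hi]

/-- the induction hypothesis -/
structure Inv (S : ℕ → Finset α) (U : α → Finset ℕ) (R : Finset ℕ → ι → Prop)
    (adm : Finset ℕ → Prop) (A : Set α) (l : ι) (bb : ℕ → Finset ℕ) (n : ℕ) (e : ℕ → α) :
    Prop where
  od : ∀ i < n, Od S U adm (U (e i))
  inj : ∀ T ⊆ range n, ∀ T' ⊆ range n, W (fun i => U (e i)) T = W (fun i => U (e i)) T' → T = T'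
  lg : Large S (A ∩ GG U R l bb e n)

theorem Inv.congr {A : Set α} {l : ι} {bb : ℕ → Finset ℕ} {n : ℕ} {e e' : ℕ → α}
    (h : Inv S U R adm A l bb n e) (he : ∀ i < n, e i = e' i) : Inv S U R adm A l bb n e' := by
  have hW : ∀ T ⊆ range n, W (fun i => U (e i)) T = W (fun i => U (e' i)) T := fun T hT =>
    W_congr fun i hi => by
      show U (e i) = U (e' i)
      rw [he i (mem_range.1 (hT hi))]
  refine ⟨fun i hi => he i hi ▸ h.od i hi, fun T hT T' hT' hh => ?_, ?_⟩
  · rw [← hW T hT, ← hW T' hT'] at hh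
    exact h.inj T hT T' hT' hh
  · rw [← GG_congr (U := U) (R := R) (l := l) (bb := bb) he]
    exact h.lg

theorem step (h : Law S U ht R adm p) {A : Set α} {l : ι} {bb : ℕ → Finset ℕ}
    (hb : ∀ j, Od S U adm (bb j)) {n : ℕ} {e : ℕ → α} (hI : Inv S U R adm A l bb n e) (B : ℕ) :
    ∃ D ∈ A, (∃ X, D ∈ S X) ∧ B < ht D ∧ D ∈ GG U R l bb e n ∧
      Inv S U R adm A l bb (n + 1) (Function.update e n D) := by
  set EX : Set (Finset ℕ) := {m : Finset ℕ | (∀ w ∈ VV U bb e n, adm (m ∆ w)) ∧
    ¬ Large S ((A ∩ GG U R l bb e n) ∩ Ev U R m (VV U bb e n) fun _ => l)} with hEX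
  have hEXf : EX.Finite := h.large_exc (Q := VV U bb e n) (f := fun _ => l) hI.lg
  set PW : Finset (Finset ℕ) := (range n).powerset.image (W fun i => U (e i)) with hPW
  have hfin2 : (EX ∪ (((PW ×ˢ PW).image fun q => q.1 ∆ q.2 : Finset (Finset ℕ)) :
      Set (Finset ℕ))).Finite := hEXf.union (finite_toSet _)
  obtain ⟨D, hD1, ⟨X, hX⟩, hDe, hDB⟩ := h.large_avoid hI.lg hfin2 B
  have hD4 : U D ∉ EX := fun h1 => hDe (Or.inl h1)
  have hD5 : ∀ x ∈ PW, ∀ y ∈ PW, x ∆ y ≠ U D := fun x hx y hy he => hDe (Or.inr (by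
    rw [mem_coe, mem_image]
    exact ⟨(x, y), mem_product.2 ⟨hx, hy⟩, he⟩))
  refine ⟨D, hD1.1, ⟨X, hX⟩, hDB, hD1.2, ?_⟩
  have hlow : ∀ i < n, e i = Function.update e n D i := fun i hi =>
    (Function.update_of_ne hi.ne _ _).symm
  have hnr : ∀ T ⊆ range n, n ∉ T := fun T hT h1 => lt_irrefl _ (mem_range.1 (hT h1))
  have hW1 : ∀ T ⊆ range n, W (fun i => U (Function.update e n D i)) T =
      W (fun i => U (e i)) T := fun T hT => W_congr fun i hi => by
    show U (Function.update e n D i) = U (e i)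
    rw [hlow i (mem_range.1 (hT hi))]
  have hW2 : ∀ T ⊆ range n, W (fun i => U (Function.update e n D i)) (insert n T) =
      U D ∆ W (fun i => U (e i)) T := by
    intro T hT
    rw [W_insert (hnr T hT), Function.update_self, hW1 T hT]
  have hsplit : ∀ T ⊆ range (n + 1), (T ⊆ range n) ∨ ∃ T' ⊆ range n, T = insert n T' := by
    intro T hT
    by_cases hn : n ∈ T
    · right
      refine ⟨T.erase n, fun i hi => ?_, (insert_erase hn).symm⟩
      rw [mem_erase] at hi
      have := mem_range.1 (hT hi.2)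
      exact mem_range.2 (by omega)
    · left
      intro i hi
      have h1 := mem_range.1 (hT hi)
      have h2 : i ≠ n := fun h2 => hn (h2 ▸ hi)
      exact mem_range.2 (by omega)
  have hRm : ∀ T ⊆ range n, W (fun i => U (e i)) T ∈ PW := fun T hT =>
    mem_image.2 ⟨T, mem_powerset.2 hT, rfl⟩
  have hodD : Od S U adm (U D) := h.od_U hX
  refine ⟨fun i hi => ?_, fun T hT T' hT' he => ?_, ?_⟩
  · rcases Nat.lt_or_ge i n with h1 | h1
    · rw [← hlow i h1]
      exact hI.od i h1
    · have h2 : i = n := by omega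
      rw [h2, Function.update_self]
      exact hodD
  · rcases hsplit T hT with h1 | ⟨T1, h1, rfl⟩
    · rcases hsplit T' hT' with h2 | ⟨T2, h2, rfl⟩
      · rw [hW1 T h1, hW1 T' h2] at he
        exact hI.inj T h1 T' h2 he
      · rw [hW1 T h1, hW2 T2 h2] at he
        refine absurd ?_ (hD5 _ (hRm T h1) _ (hRm T2 h2))
        rw [he, symmDiff_symmDiff_cancel_right]
    · rcases hsplit T' hT' with h2 | ⟨T2, h2, rfl⟩
      · rw [hW2 T1 h1, hW1 T' h2] at he
        refine absurd ?_ (hD5 _ (hRm T' h2) _ (hRm T1 h1))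
        rw [← he, symmDiff_symmDiff_cancel_right]
      · rw [hW2 T1 h1, hW2 T2 h2] at he
        rw [hI.inj T1 h1 T2 h2 (symm_cancel he)]
  · have hadm : ∀ w ∈ VV U bb e n, adm (U D ∆ w) := by
      intro w hw
      have hodw : Od S U adm w := by
        rcases mem_VV.1 hw with ⟨j, hj, T, hT, he, rfl⟩ | ⟨T, hT, ho, rfl⟩
        · intro X' D' hD'
          have h1 := (h.adm_W (u := fun i => U (e i)) T
            fun i hi => hI.od i (mem_range.1 (hT hi))).1 he
          have h2 := h.admS _ _ h1 (hb j X' D' hD')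
          have e1 : W (fun i => U (e i)) T ∆ (bb j ∆ U D') =
              (bb j ∆ W (fun i => U (e i)) T) ∆ U D' := by
            rw [← symmDiff_assoc, symmDiff_comm (W (fun i => U (e i)) T)]
          rwa [e1] at h2
        · exact (h.adm_W (u := fun i => U (e i)) T
            fun i hi => hI.od i (mem_range.1 (hT hi))).2 ho
      have h3 := hodw X D hX
      rwa [symmDiff_comm] at h3
    have hlarge : Large S ((A ∩ GG U R l bb e n) ∩ Ev U R (U D) (VV U bb e n) fun _ => l) := by
      by_contra hcon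
      exact hD4 ⟨hadm, hcon⟩
    refine hlarge.mono ?_
    rintro D' ⟨⟨a1, a2⟩, a3⟩
    refine ⟨a1, fun i hi w hw => ?_⟩
    rcases Nat.lt_or_ge i n with h1 | h1
    · rw [← hlow i h1]
      refine a2 i h1 w ?_
      rw [VV_congr (U := U) (bb := bb) fun j hj => hlow j (hj.trans h1)]
      exact hw
    · have h2 : i = n := by omega
      rw [h2] at hw ⊢
      rw [Function.update_self]
      refine a3 w ?_
      rw [VV_congr (U := U) (bb := bb) hlow]
      exact hw

/-- **One sequence for all base points.** -/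
theorem multi [Inhabited α] (h : Law S U ht R adm p) {A : Set α} (hA : Large S A) (l : ι)
    {bb : ℕ → Finset ℕ} (hb : ∀ j, Od S U adm (bb j)) :
    ∃ e : ℕ → α, (∀ i, ht (e i) < ht (e (i + 1))) ∧ (∀ i, e i ∈ A ∧ ∃ X, e i ∈ S X) ∧
      (∀ T T' : Finset ℕ, W (fun i => U (e i)) T = W (fun i => U (e i)) T' → T = T') ∧
      (∀ (j : ℕ) (T : Finset ℕ), T.Nonempty → Even T.card → (∀ i ∈ T, j ≤ i) →
        R (bb j ∆ W (fun i => U (e i)) T) l) ∧
      ∀ T : Finset ℕ, Odd T.card → 3 ≤ T.card → R (W (fun i => U (e i)) T) l := by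
  obtain ⟨e, he⟩ := build (β := α) (fun n e => Inv S U R adm A l bb n e)
    (fun n e D => D ∈ A ∧ (∃ X, D ∈ S X) ∧ (∀ i < n, ht (e i) < ht D) ∧ D ∈ GG U R l bb e n)
    (fun n d e hde hI => hI.congr hde)
    (fun n d e D hde hQ => by
      refine ⟨hQ.1, hQ.2.1, fun i hi => hde i hi ▸ hQ.2.2.1 i hi, ?_⟩
      rw [← GG_congr (U := U) (R := R) (l := l) (bb := bb) hde]
      exact hQ.2.2.2)
    (fun _ => default)
    (by
      refine ⟨fun i hi => absurd hi (Nat.not_lt_zero i), fun T hT T' hT' _ => ?_, ?_⟩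
      · rw [range_zero, subset_empty] at hT hT'
        rw [hT, hT']
      · exact hA.mono fun D hD => ⟨hD, fun i hi => absurd hi (Nat.not_lt_zero i)⟩)
    (fun n e hI => by
      obtain ⟨D, h1, h2, h3, h4, h5⟩ := step h hb hI (∑ i ∈ range n, ht (e i))
      refine ⟨D, ⟨h1, h2, fun i hi => ?_, h4⟩, h5⟩
      have := Finset.single_le_sum (f := fun i => ht (e i)) (fun j _ => Nat.zero_le _)
        (mem_range.2 hi)
      omega)
  have hgood : ∀ k n, n < k → ∀ w ∈ VV U bb e n, R (U (e k) ∆ (U (e n) ∆ w)) l := fun k n hnk w hw =>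
    (he k).2.2.2.2 n hnk w hw
  -- the two largest elements
  have key : ∀ T : Finset ℕ, 2 ≤ T.card → ∃ k n, n < k ∧ ∃ T0 ⊆ range n, T = insert k (insert n T0) ∧
      T0.card + 2 = T.card := by
    intro T h2
    have hne : T.Nonempty := card_pos.1 (by omega)
    have hkT := max'_mem T hne
    set k := T.max' hne with hk
    have hc1 : (T.erase k).card + 1 = T.card := card_erase_add_one hkT
    have hne1 : (T.erase k).Nonempty := card_pos.1 (by omega)
    have hnT := max'_mem (T.erase k) hne1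
    set n := (T.erase k).max' hne1 with hn
    have hc2 : ((T.erase k).erase n).card + 1 = (T.erase k).card := card_erase_add_one hnT
    have hnk : n < k := by
      have h3 : n ≤ k := le_max' T n (mem_of_mem_erase hnT)
      exact lt_of_le_of_ne h3 (ne_of_mem_erase hnT)
    refine ⟨k, n, hnk, (T.erase k).erase n, fun i hi => ?_, ?_, by omega⟩
    · have h4 : i ≤ n := le_max' (T.erase k) i (mem_of_mem_erase hi)
      exact mem_range.2 (lt_of_le_of_ne h4 (ne_of_mem_erase hi))
    · rw [insert_erase hnT, insert_erase hkT]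
  have hWs : ∀ (k n : ℕ) (T0 : Finset ℕ), n < k → T0 ⊆ range n →
      W (fun i => U (e i)) (insert k (insert n T0)) =
        U (e k) ∆ (U (e n) ∆ W (fun i => U (e i)) T0) := by
    intro k n T0 hnk hT0
    have hn0 : n ∉ T0 := fun h1 => lt_irrefl _ (mem_range.1 (hT0 h1))
    have hk0 : k ∉ insert n T0 := by
      intro h1
      rcases mem_insert.1 h1 with h1 | h1
      · omega
      · have := mem_range.1 (hT0 h1)
        omega
    rw [W_insert hk0, W_insert hn0]
  refine ⟨e, fun n => (he (n + 1)).2.2.2.1 n (Nat.lt_succ_self n), fun i =>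
    ⟨(he i).2.1, (he i).2.2.1⟩, fun T T' hTT => ?_, fun j T hne hev hj => ?_, fun T ho h3 => ?_⟩
  · obtain ⟨n, hn⟩ : ∃ n, T ∪ T' ⊆ range n := by
      refine ⟨(T ∪ T').sup id + 1, fun i hi => ?_⟩
      have := Finset.le_sup (f := id) hi
      exact mem_range.2 (Nat.lt_succ_of_le this)
    exact (he n).1.inj T (subset_union_left.trans hn) T' (subset_union_right.trans hn) hTT
  · have h2 : 2 ≤ T.card := by
      have := card_pos.2 hne
      rcases hev with ⟨a, ha⟩
      omega
    obtain ⟨k, n, hnk, T0, hT0, rfl, hc⟩ := key T h2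
    have hev0 : Even T0.card := by
      rw [← hc] at hev
      exact (Nat.even_add.1 hev).2 even_two
    have hjn : j ≤ n := hj n (mem_insert_of_mem (mem_insert_self _ _))
    have h4 := hgood k n hnk (bb j ∆ W (fun i => U (e i)) T0)
      (mem_VV.2 (Or.inl ⟨j, hjn, T0, hT0, hev0, rfl⟩))
    rw [hWs k n T0 hnk hT0]
    have e1 : bb j ∆ (U (e k) ∆ (U (e n) ∆ W (fun i => U (e i)) T0)) =
        U (e k) ∆ (U (e n) ∆ (bb j ∆ W (fun i => U (e i)) T0)) := by
      rw [symmDiff_left_comm, symmDiff_left_comm (bb j)]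
    rw [e1]
    exact h4
  · obtain ⟨k, n, hnk, T0, hT0, rfl, hc⟩ := key T (by omega)
    have ho0 : Odd T0.card := by
      rw [← hc] at ho
      rw [← Nat.not_even_iff_odd] at ho ⊢
      intro h4
      exact ho (h4.add even_two)
    have h4 := hgood k n hnk (W (fun i => U (e i)) T0) (mem_VV.2 (Or.inr ⟨T0, hT0, ho0, rfl⟩))
    rw [hWs k n T0 hnk hT0]
    exact h4

end Run7.h428.OddM
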