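import Pool.Agent.R413.SM.L8

/-!
# Families of sets of primes with the weight `2 ^ |S|`

The sieve bound `S_SIE` of the starting files for the number of the elements of a family of sets of
primes closed under subsets implies a bound for the number of these sets with the weights `2 ^ |S|`
(the number of the divisors of the product): `wsie`. The rest is elementary.
-/

set_option autoImplicit false

open scoped Classical

namespace Run7.h428.W

open Finset Filter
open Pool.Agent.Y703.CX (sm la jj XX eL zz kk S_SIE)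
open Pool.Agent.Y495.CX.Few (PN euler prod_pos' le_of_mem_prod mert eL_tendsto log_small zz_ge
  loglog_zz rpow_eq)

/-- the weighted number of the sets of a family -/
noncomputable def wt (F : Finset (Finset ℕ)) : ℝ := ∑ S ∈ F, (2 : ℝ) ^ S.card

theorem wt_nonneg (F : Finset (Finset ℕ)) : 0 ≤ wt F := sum_nonneg fun _ _ => by positivity

theorem wt_mono {F G : Finset (Finset ℕ)} (h : F ⊆ G) : wt F ≤ wt G :=
  sum_le_sum_of_subset_of_nonneg h fun _ _ _ => by positivity

theorem wt_union (F G : Finset (Finset ℕ)) : wt (F ∪ G) ≤ wt F + wt G := by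
  unfold wt
  have h := sum_union_inter (s₁ := F) (s₂ := G) (f := fun S => (2 : ℝ) ^ S.card)
  have h2 : 0 ≤ ∑ S ∈ F ∩ G, (2 : ℝ) ^ S.card := sum_nonneg fun _ _ => by positivity
  linarith

theorem wt_biUnion {α : Type} (s : Finset α) (t : α → Finset (Finset ℕ)) :
    wt (s.biUnion t) ≤ ∑ a ∈ s, wt (t a) := by
  induction s using Finset.induction_on with
  | empty =>
    rw [biUnion_empty, sum_empty]
    unfold wt
    rw [sum_empty]
  | insert a s ha ih =>
    rw [biUnion_insert, sum_insert ha]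
    exact (wt_union _ _).trans (add_le_add le_rfl ih)

theorem wt_card_le {F : Finset (Finset ℕ)} {k : ℕ} (h : ∀ S ∈ F, S.card ≤ k) :
    wt F ≤ 2 ^ k * (F.card : ℝ) := by
  unfold wt
  calc ∑ S ∈ F, (2 : ℝ) ^ S.card ≤ ∑ _S ∈ F, (2 : ℝ) ^ k :=
        sum_le_sum fun S hS => pow_le_pow_right₀ (by norm_num) (h S hS)
    _ = 2 ^ k * (F.card : ℝ) := by rw [sum_const, nsmul_eq_mul, mul_comm]

theorem wt_filter_add (F : Finset (Finset ℕ)) (P : Finset ℕ → Prop) :
    wt (F.filter P) + wt (F.filter fun S => ¬ P S) = wt F :=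
  sum_filter_add_sum_filter_not F P _

/-- at least one half of the divisors are small -/
theorem half {S : Finset ℕ} {Y : ℕ} (hY : ∏ p ∈ S, p ≤ Y) :
    (2 : ℝ) ^ S.card ≤ 2 * ((S.powerset.filter fun A => (∏ p ∈ A, p) ^ 2 ≤ Y).card : ℝ) := by
  have h1 : (S.powerset.filter fun A => ¬ (∏ p ∈ A, p) ^ 2 ≤ Y).card ≤
      (S.powerset.filter fun A => (∏ p ∈ A, p) ^ 2 ≤ Y).card := by
    refine card_le_card_of_injOn (fun A => S \ A) ?_ ?_
    · intro A hA
      rw [mem_coe, mem_filter, mem_powerset] at hA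
      rw [mem_coe, mem_filter, mem_powerset]
      refine ⟨sdiff_subset, ?_⟩
      have h2 : (∏ p ∈ S \ A, p) * ∏ p ∈ A, p = ∏ p ∈ S, p := prod_sdiff hA.1
      have h3 := not_le.1 hA.2
      set a := ∏ p ∈ A, p
      set b := ∏ p ∈ S \ A, p
      have h4 : b < a := by
        by_contra hc
        have h5 : a * a ≤ b * a := Nat.mul_le_mul_right a (not_lt.1 hc)
        nlinarith
      nlinarith
    · intro A hA B hB h
      rw [mem_coe, mem_filter, mem_powerset] at hA hB
      have h' : S \ A = S \ B := h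
      rw [← Finset.sdiff_sdiff_eq_self hA.1, h', Finset.sdiff_sdiff_eq_self hB.1]
  have h2 := Finset.card_filter_add_card_filter_not (s := S.powerset)
    (fun A => (∏ p ∈ A, p) ^ 2 ≤ Y)
  rw [card_powerset] at h2
  have h3 : 2 ^ S.card ≤ 2 * (S.powerset.filter fun A => (∏ p ∈ A, p) ^ 2 ≤ Y).card := by
    omega
  exact_mod_cast h3

/-- **the weighted sieve bound** -/
theorem wsie (hs : S_SIE) : ∃ C : ℝ, 1 ≤ C ∧ ∀ (Y : ℕ) (L : Finset (Finset ℕ)), 4 ≤ Y →
    (∀ S ∈ L, (∀ p ∈ S, p.Prime) ∧ ∏ p ∈ S, p ≤ Y) → (∀ S ∈ L, ∀ T, T ⊆ S → T ∈ L) →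
    wt L * Real.log Y ≤ C * Y * (∑ S ∈ L, (1 : ℝ) / ((∏ p ∈ S, p : ℕ) : ℝ)) ^ 2 := by
  obtain ⟨C, hC1, hC⟩ := hs
  refine ⟨8 * C, by linarith, fun Y L hY hL hcl => ?_⟩
  set D : ℝ := ∑ S ∈ L, (1 : ℝ) / ((∏ p ∈ S, p : ℕ) : ℝ) with hD
  have hD0 : 0 ≤ D := sum_nonneg fun _ _ => by positivity
  set G := L.filter fun A => (∏ p ∈ A, p) ^ 2 ≤ Y with hG
  have hpos : ∀ S ∈ L, 0 < ∏ p ∈ S, p := fun S hS => prod_pos' (hL S hS).1
  have hY0 : (0 : ℝ) < Y := by exact_mod_cast (by omega : 0 < Y)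
  have hlY : 0 < Real.log Y := Real.log_pos (by exact_mod_cast (by omega : 1 < Y))
  -- the sum over the small divisors
  have h1 : wt L ≤ 2 * ∑ A ∈ G, ((L.filter fun S => A ⊆ S).card : ℝ) := by
    have e1 : ∀ S ∈ L, (2 : ℝ) ^ S.card ≤ 2 * ∑ A ∈ G, if A ⊆ S then (1 : ℝ) else 0 := by
      intro S hS
      refine (half (hL S hS).2).trans ?_
      have e2 : S.powerset.filter (fun A => (∏ p ∈ A, p) ^ 2 ≤ Y) ⊆
          G.filter fun A => A ⊆ S := by
        intro A hA
        rw [mem_filter, mem_powerset] at hA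
        rw [mem_filter, hG, mem_filter]
        exact ⟨⟨hcl S hS A hA.1, hA.2⟩, hA.1⟩
      have e3 : ∑ A ∈ G, (if A ⊆ S then (1 : ℝ) else 0) = ((G.filter fun A => A ⊆ S).card : ℝ) := by
        rw [sum_boole]
      rw [e3]
      have e4 : ((S.powerset.filter fun A => (∏ p ∈ A, p) ^ 2 ≤ Y).card : ℝ) ≤
          ((G.filter fun A => A ⊆ S).card : ℝ) := by exact_mod_cast card_le_card e2
      linarith
    unfold wt
    refine (sum_le_sum e1).trans (le_of_eq ?_)
    rw [← mul_sum, sum_comm]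
    congr 1
    refine sum_congr rfl fun A _ => ?_
    rw [sum_boole]
  -- one small divisor
  have h2 : ∀ A ∈ G, ((L.filter fun S => A ⊆ S).card : ℝ) * Real.log Y ≤
      4 * (C * Y * D) * ((1 : ℝ) / ((∏ p ∈ A, p : ℕ) : ℝ)) := by
    intro A hA
    rw [hG, mem_filter] at hA
    obtain ⟨hAL, hA2⟩ := hA
    set a := ∏ p ∈ A, p with ha
    have ha0 : 0 < a := hpos A hAL
    have ha0' : (0 : ℝ) < a := by exact_mod_cast ha0
    set LA := (L.filter fun S => A ⊆ S).image fun S => S \ A with hLA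
    have hcard : LA.card = (L.filter fun S => A ⊆ S).card := by
      refine card_image_of_injOn fun S hS T hT h => ?_
      rw [mem_coe, mem_filter] at hS hT
      have h' : S \ A = T \ A := h
      rw [← sdiff_union_of_subset hS.2, h', sdiff_union_of_subset hT.2]
    set m := Nat.sqrt Y with hm
    have hm2 : 2 ≤ m := by
      rw [hm, Nat.le_sqrt]
      omega
    have ham : a ≤ m := by
      rw [hm, Nat.le_sqrt]
      nlinarith
    have hmm : m * m ≤ Y := Nat.sqrt_le Y
    have hdiv : m ≤ Y / a := by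
      rw [Nat.le_div_iff_mul_le ha0]
      exact (Nat.mul_le_mul_left m ham).trans hmm
    have h3 := hC (Y / a) LA (by omega) (by
      intro T hT
      rw [hLA, mem_image] at hT
      obtain ⟨S, hS, rfl⟩ := hT
      rw [mem_filter] at hS
      refine ⟨fun p hp => (hL S hS.1).1 p (Finset.mem_sdiff.1 hp).1, ?_⟩
      rw [Nat.le_div_iff_mul_le ha0, ha, prod_sdiff hS.2]
      exact (hL S hS.1).2) (by
      intro T hT T' hT'
      rw [hLA, mem_image] at hT ⊢
      obtain ⟨S, hS, rfl⟩ := hT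
      rw [mem_filter] at hS
      refine ⟨T' ∪ A, ?_, ?_⟩
      · rw [mem_filter]
        refine ⟨hcl S hS.1 _ (union_subset (hT'.trans sdiff_subset) hS.2), subset_union_right⟩
      · ext p
        simp only [Finset.mem_sdiff, Finset.mem_union]
        constructor
        · rintro ⟨h | h, h'⟩
          · exact h
          · exact absurd h h'
        · intro h
          exact ⟨Or.inl h, (Finset.mem_sdiff.1 (hT' h)).2⟩)
    rw [hcard] at h3
    have h4 : ∑ S ∈ LA, (1 : ℝ) / ((∏ p ∈ S, p : ℕ) : ℝ) ≤ D := by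
      refine sum_le_sum_of_subset_of_nonneg ?_ fun _ _ _ => by positivity
      intro T hT
      rw [hLA, mem_image] at hT
      obtain ⟨S, hS, rfl⟩ := hT
      exact hcl S (mem_filter.1 hS).1 _ sdiff_subset
    have h5 : ((Y / a : ℕ) : ℝ) ≤ Y / a := Nat.cast_div_le
    have h6 : Real.log Y ≤ 4 * Real.log ((Y / a : ℕ) : ℝ) := by
      have h7 : Y ≤ m ^ 4 := by
        have h8 : Y < (m + 1) * (m + 1) := Nat.lt_succ_sqrt Y
        have h9 : m + 1 ≤ m * m := by nlinarith
        have h10 : (m + 1) * (m + 1) ≤ (m * m) * (m * m) := Nat.mul_le_mul h9 h9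
        have h11 : (m * m) * (m * m) = m ^ 4 := by ring
        omega
      have hm0 : (0 : ℝ) < m := by exact_mod_cast (by omega : 0 < m)
      calc Real.log Y ≤ Real.log ((m : ℝ) ^ 4) := by
            refine Real.log_le_log hY0 ?_
            exact_mod_cast h7
        _ = 4 * Real.log m := by rw [Real.log_pow]; norm_num
        _ ≤ 4 * Real.log ((Y / a : ℕ) : ℝ) := by
            refine mul_le_mul_of_nonneg_left ?_ (by norm_num)
            refine Real.log_le_log hm0 ?_
            exact_mod_cast hdiv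
    set n : ℝ := ((L.filter fun S => A ⊆ S).card : ℝ) with hn
    have hn0 : 0 ≤ n := Nat.cast_nonneg _
    have h7 : C * ((Y / a : ℕ) : ℝ) * ∑ S ∈ LA, (1 : ℝ) / ((∏ p ∈ S, p : ℕ) : ℝ) ≤
        C * (Y / a) * D := by
      have hs0 : 0 ≤ ∑ S ∈ LA, (1 : ℝ) / ((∏ p ∈ S, p : ℕ) : ℝ) := sum_nonneg fun _ _ => by positivity
      have hC0 : 0 ≤ C := by linarith
      gcongr
    calc n * Real.log Y ≤ n * (4 * Real.log ((Y / a : ℕ) : ℝ)) :=
          mul_le_mul_of_nonneg_left h6 hn0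
      _ = 4 * (n * Real.log ((Y / a : ℕ) : ℝ)) := by ring
      _ ≤ 4 * (C * (Y / a) * D) := mul_le_mul_of_nonneg_left (h3.trans h7) (by norm_num)
      _ = 4 * (C * Y * D) * (1 / a) := by ring
  have h3 : (∑ A ∈ G, ((L.filter fun S => A ⊆ S).card : ℝ)) * Real.log Y ≤
      4 * (C * Y * D) * D := by
    rw [sum_mul]
    refine (sum_le_sum h2).trans ?_
    rw [← mul_sum]
    refine mul_le_mul_of_nonneg_left ?_ (by positivity)
    exact sum_le_sum_of_subset_of_nonneg (filter_subset _ _) fun _ _ _ => by positivity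
  calc wt L * Real.log Y ≤ (2 * ∑ A ∈ G, ((L.filter fun S => A ⊆ S).card : ℝ)) * Real.log Y :=
        mul_le_mul_of_nonneg_right h1 hlY.le
    _ = 2 * ((∑ A ∈ G, ((L.filter fun S => A ⊆ S).card : ℝ)) * Real.log Y) := by ring
    _ ≤ 2 * (4 * (C * Y * D) * D) := mul_le_mul_of_nonneg_left h3 (by norm_num)
    _ = 8 * C * Y * D ^ 2 := by ring

/-- moments -/
theorem wmom {X : ℕ} {F : Finset (Finset ℕ)}
    (hF : ∀ S ∈ F, (∀ p ∈ S, p.Prime) ∧ ∏ p ∈ S, p ≤ X) (g : ℕ → ℝ) (hg : ∀ p, 0 ≤ g p) :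
    ∑ S ∈ F, ∏ p ∈ S, g p ≤ X * Real.exp (∑ p ∈ PN X, g p * (1 / p)) := by
  have h1 : ∀ S ∈ F, ∏ p ∈ S, g p ≤ X * ∏ p ∈ S, (g p * (1 / (p : ℝ))) := by
    intro S hS
    obtain ⟨h2, h3⟩ := hF S hS
    have h4 : ∏ p ∈ S, g p = ((∏ p ∈ S, p : ℕ) : ℝ) * ∏ p ∈ S, (g p * (1 / (p : ℝ))) := by
      push_cast
      rw [← prod_mul_distrib]
      refine prod_congr rfl fun p hp => ?_
      have : (p : ℝ) ≠ 0 := by exact_mod_cast (h2 p hp).ne_zero
      field_simp
    rw [h4]
    refine mul_le_mul_of_nonneg_right (by exact_mod_cast h3) ?_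
    exact prod_nonneg fun p _ => mul_nonneg (hg p) (by positivity)
  refine (sum_le_sum h1).trans ?_
  rw [← mul_sum]
  refine mul_le_mul_of_nonneg_left ?_ (Nat.cast_nonneg _)
  refine le_trans ?_ (euler (PN X) (fun p => g p * (1 / (p : ℝ)))
    fun p _ => mul_nonneg (hg p) (by positivity))
  refine sum_le_sum_of_subset_of_nonneg ?_ fun S _ _ =>
    prod_nonneg fun p _ => mul_nonneg (hg p) (by positivity)
  intro S hS
  obtain ⟨h2, h3⟩ := hF S hS
  rw [mem_powerset]
  intro p hp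
  rw [mem_filter, mem_Icc]
  exact ⟨⟨(h2 p hp).one_lt.le, le_of_mem_prod h2 h3 hp⟩, h2 p hp⟩

end Run7.h428.W
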