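import Pool.Agent.Run7.h428.WB

/-!
# The weighted number of the sets with degenerate labels

After `R413/SM/Bad` of the starting tree (helper697, helper949), with the weights `2 ^ |S|`.
-/

set_option autoImplicit false

open scoped Classical

namespace Run7.h428.W

open Finset Filter
open Pool.Agent.Y703.CX (sm la jj XX eL zz kk S_SIE logX_eq ev_eL kk_le)
open Pool.Agent.Y703.CQ (nr S_MER)
open Pool.Agent.Y495.CX.Few (eL_tendsto log_small)
open Pool.Agent.R413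
open Pool.Agent.R413.SQ
open Pool.Agent.Y37.CX (Pm Pm_nonneg Pm_mono Pm_le)
open Pool.Agent.R413.SQ.BAD (fam NI prod_pos_of prod_sub_le sub_range mer fam_sum notNd sum_NI)

/-- the size of the family of the possible large parts -/
theorem w_fam {I : Finset ℕ} {C₁ C₂ : ℝ} (h11 : 1 ≤ C₁)
    (hSIE : ∀ (Y : ℕ) (L : Finset (Finset ℕ)), 4 ≤ Y →
      (∀ S ∈ L, (∀ p ∈ S, p.Prime) ∧ ∏ p ∈ S, p ≤ Y) → (∀ S ∈ L, ∀ T, T ⊆ S → T ∈ L) →
      wt L * Real.log Y ≤ C₁ * Y * (∑ S ∈ L, (1 : ℝ) / ((∏ p ∈ S, p : ℕ) : ℝ)) ^ 2)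
    (hHAL : ∀ (W : Finset ℕ) (T : ℕ), W.Nonempty → (∀ u ∈ W, u.Prime ∧ u % 4 = 1) → 2 ≤ T →
      ∑ S ∈ HD W T, (1 : ℝ) / ((∏ p ∈ S, p : ℕ) : ℝ) ≤
        C₂ * (Real.log ((∏ u ∈ W, u : ℕ) : ℝ)) ^ (1 / 2 : ℝ) * (Real.log T) ^ (1 / 8 : ℝ))
    {W : Finset ℕ} (hW : W.Nonempty) (hW1 : ∀ u ∈ W, u.Prime ∧ u % 4 = 1) {Y : ℕ} (hY : 4 ≤ Y) :
    wt (fam I W Y) * Real.log Y ≤ C₁ * Y *
      ((C₂ * (Real.log ((∏ u ∈ W, u : ℕ) : ℝ)) ^ (1 / 2 : ℝ) * (Real.log Y) ^ (1 / 8 : ℝ)) *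
        Real.exp (∑ r ∈ NI I Y, (1 : ℝ) / r)) ^ 2 := by
  have h1 := hSIE Y (fam I W Y) hY (by
    intro S hS
    rw [fam, mem_filter] at hS
    refine ⟨fun p hp => ?_, hS.2.2⟩
    rcases hS.2.1 p hp with h | h
    · exact h.1.1
    · exact h.1) (by
    intro S hS T hTS
    rw [fam, mem_filter, mem_powerset] at hS ⊢
    obtain ⟨h1, h2, h3⟩ := hS
    refine ⟨hTS.trans h1, fun p hp => h2 p (hTS hp), ?_⟩
    refine (prod_sub_le hTS fun p hp => ?_).trans h3
    rcases h2 p hp with h | h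
    · exact h.1.1
    · exact h.1)
  refine h1.trans (mul_le_mul_of_nonneg_left (pow_le_pow_left₀
    (sum_nonneg fun _ _ => by positivity)
    ((fam_sum (K := ∅) (show Ok I ∅ from trivial) W Y).trans ?_) 2) (by positivity))
  have h2 := hHAL W Y hW hW1 (by omega)
  have h3 := sum_NI I Y
  have h4 : 0 ≤ ∑ T ∈ (NI I Y).powerset, (1 : ℝ) / ((∏ p ∈ T, p : ℕ) : ℝ) :=
    sum_nonneg fun _ _ => by positivity
  have h5 : 0 ≤ ∑ S ∈ HD W Y, (1 : ℝ) / ((∏ p ∈ S, p : ℕ) : ℝ) :=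
    sum_nonneg fun _ _ => by positivity
  exact mul_le_mul h2 h3 h4 (h5.trans h2)

/-- the number of sets with given small part -/
theorem w_fiber (I K : Finset ℕ) (X z : ℕ) {S₀ E : Finset ℕ} (hS₀ : ∀ u ∈ S₀, u.Prime)
    (hE : ∀ u ∈ E, u.Prime ∧ u % 4 = 1) (hEz : ∀ u ∈ E, u ≤ z) :
    ∑ S ∈ (SS I K X).filter (fun S => ¬ Nd (sm z S ∪ E) (la z S) ∧ sm z S = S₀),
      (2 : ℝ) ^ (la z S).card ≤
      ∑ W ∈ (S₀ ∪ E).powerset, if W.Nonempty ∧ (∀ u ∈ W, u.Prime ∧ u % 4 = 1) then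
        wt (fam I W (X / ∏ p ∈ S₀, p)) else 0 := by
  have hSE : ∀ u ∈ S₀ ∪ E, u.Prime := by
    intro u hu
    rcases mem_union.1 hu with h | h
    · exact hS₀ u h
    · exact (hE u h).1
  rw [← sum_filter]
  refine le_trans ?_ (wt_biUnion _ _)
  have hinj : Set.InjOn (fun S => la z S) ((SS I K X).filter (fun S =>
      ¬ Nd (sm z S ∪ E) (la z S) ∧ sm z S = S₀) : Set (Finset ℕ)) := by
    intro S hS T hT h
    rw [mem_coe, mem_filter] at hS hT
    have h' : la z S = la z T := h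
    have key : ∀ S : Finset ℕ, sm z S ∪ la z S = S := fun S => filter_union_filter_not_eq _ _
    rw [← key S, ← key T, hS.2.2, hT.2.2, h']
  rw [← sum_image (f := fun T => (2 : ℝ) ^ T.card) hinj]
  refine sum_le_sum_of_subset_of_nonneg ?_ fun _ _ _ => by positivity
  intro T hT
  rw [mem_image] at hT
  obtain ⟨S, hS, rfl⟩ := hT
  rw [mem_filter, SS, mem_filter, mem_powerset] at hS
  obtain ⟨⟨h1, h2, h4⟩, h5, h6⟩ := hS
  have hpr : ∀ p ∈ S, p.Prime := fun p hp => (pr1 (h2 p hp)).1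
  obtain ⟨W, hWS, hWn, hW1, h7⟩ := notNd h5
  rw [h6] at hWS
  rw [mem_biUnion]
  refine ⟨W, ?_, ?_⟩
  · rw [mem_filter, mem_powerset]
    refine ⟨hWS, hWn, fun u hu => ⟨hSE u (hWS hu), ?_⟩⟩
    rcases mem_union.1 (hWS hu) with h8 | h8
    · rw [← h6, sm, mem_filter] at h8
      exact (pr1 (h2 u h8.1)).2
    · exact (hE u h8).2
  · rw [fam, mem_filter, mem_powerset]
    have hN : 0 < ∏ p ∈ S₀, p := prod_pos_of fun p hp => hS₀ p hp
    have hprod : ∏ p ∈ la z S, p ≤ X / ∏ p ∈ S₀, p := by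
      rw [Nat.le_div_iff_mul_le hN, mul_comm, ← h6]
      have : (∏ p ∈ sm z S, p) * ∏ p ∈ la z S, p = ∏ p ∈ S, p :=
        prod_filter_mul_prod_filter_not _ _ _
      rw [this]
      exact h4
    refine ⟨sub_range (fun p hp => hpr p (mem_filter.1 hp).1) hprod, ?_, hprod⟩
    intro p hp
    rcases h2 p (mem_filter.1 hp).1 with h | h
    · left
      refine ⟨h, fun hpW => ?_, h7 p hp h.2.1⟩
      rcases mem_union.1 (hWS hpW) with h8 | h8
      · rw [← h6, sm, mem_filter] at h8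
        exact (mem_filter.1 hp).2 h8.2
      · exact (mem_filter.1 hp).2 (hEz p h8)
    · exact Or.inr h

/-- **few sets have degenerate labels** -/
theorem w_bad (hs : S_SIE) (hH : S_HAL) (hm : S_MER) (I K E : Finset ℕ)
    (hE : ∀ u ∈ E, u.Prime ∧ u % 4 = 1) : Sml 0 fun X => wt ((SS I K X).filter fun S =>
      S.card ≤ kk X ∧ ¬ Nd (sm (zz X) S ∪ E) (la (zz X) S)) := by
  obtain ⟨C₁, h11, h1⟩ := wsie hs
  obtain ⟨C₂, h21, h2⟩ := hH
  obtain ⟨C₃, h30, h3⟩ := Pm_le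
  obtain ⟨C₄, h4⟩ := mer I hm
  set cE : ℝ := Real.log ((∏ u ∈ E, u : ℕ) : ℝ) with hcE
  have hcE0 : 0 ≤ cE := Real.log_natCast_nonneg _
  have hC2 : 0 ≤ C₂ := by linarith
  have hC1 : 0 ≤ C₁ := by linarith
  set A : ℝ := C₂ * (11 + cE) * Real.exp C₄ with hA
  have hA0 : 0 ≤ A := by positivity
  apply sml_of (C := 2 ^ E.card * (3 * C₁ * A ^ 2) * Real.exp (4 * C₃)) (a := 1 / 8) (by norm_num)
  filter_upwards [eL_tendsto.eventually (log_small 20 (1 / 8) (by norm_num)),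
    eL_tendsto.eventually (log_small 4 (1 / 8) (by norm_num)),
    ev_eL (max 100 (((E.sup id : ℕ) : ℝ) + 1)), eventually_ge_atTop 4] with X hlg hlg4 hX hX4
  set ℓ : ℝ := eL X with hℓ
  have hl100 : (100 : ℝ) ≤ ℓ := (le_max_left _ _).trans hX
  have hlE : ((E.sup id : ℕ) : ℝ) + 1 ≤ ℓ := (le_max_right _ _).trans hX
  have hl0 : 0 < ℓ := by linarith
  have hlogX : Real.log X = Real.exp ℓ := logX_eq hl0
  set z : ℕ := zz X with hz
  set k : ℕ := kk X with hk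
  have hk11 : (k : ℝ) ≤ 11 * ℓ := kk_le (by linarith)
  have hl3 : (8 : ℝ) ≤ ℓ ^ 3 := by nlinarith [sq_nonneg ℓ]
  have hz3 : 3 ≤ z := by
    rw [hz]
    unfold zz
    apply Nat.le_floor
    have h := Real.add_one_le_exp ((eL X) ^ 3)
    rw [← hℓ] at h ⊢
    push_cast
    linarith
  have hEz : ∀ u ∈ E, u ≤ z := by
    intro u hu
    rw [hz]
    unfold zz
    apply Nat.le_floor
    have h := Real.add_one_le_exp ((eL X) ^ 3)
    rw [← hℓ] at h ⊢
    have h5 : (u : ℝ) ≤ ((E.sup id : ℕ) : ℝ) := by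
      have := Finset.le_sup (f := id) hu
      exact_mod_cast this
    have h6 : ℓ ≤ ℓ ^ 3 := by
      have : ℓ ^ 1 ≤ ℓ ^ 3 := pow_le_pow_right₀ (by linarith) (by norm_num)
      linarith
    linarith
  have hz1 : 1 ≤ z := by omega
  have hz0 : (0 : ℝ) < z := by exact_mod_cast hz1
  have hzlog : Real.log z ≤ ℓ ^ 3 := by
    rw [Real.log_le_iff_le_exp hz0]
    exact Nat.floor_le (Real.exp_pos _).le
  have hzlog0 : 0 < Real.log z := Real.log_pos (by exact_mod_cast (by omega : 1 < z))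
  have hl4 : (1 : ℝ) ≤ ℓ ^ 4 := one_le_pow₀ (by linarith)
  -- `ℓ ^ 4` is small
  have hpow : ∀ n : ℕ, 0 < n → ℓ ^ n = Real.exp (n * Real.log ℓ) := fun n _ => by
    rw [Real.exp_nat_mul, Real.exp_log hl0]
  have h33 : 33 * ℓ ^ 4 + 3 ≤ Real.exp ℓ := by
    have e1 : ℓ ^ 4 ≤ Real.exp (ℓ / 8) := by
      rw [hpow 4 (by norm_num)]
      apply Real.exp_le_exp.2
      push_cast
      linarith
    have e2 : (36 : ℝ) ≤ Real.exp (7 / 8 * ℓ) := by
      have := Real.add_one_le_exp (7 / 8 * ℓ)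
      linarith
    have e3 : Real.exp ℓ = Real.exp (ℓ / 8) * Real.exp (7 / 8 * ℓ) := by
      rw [← Real.exp_add]
      congr 1
      ring
    have e4 : (1 : ℝ) ≤ Real.exp (ℓ / 8) := Real.one_le_exp (by positivity)
    rw [e3]
    nlinarith
  -- the size of the families
  set R : ℝ := 3 * C₁ * (A * ℓ ^ 4 * Real.exp (3 / 8 * ℓ)) ^ 2 / Real.exp ℓ with hR
  have hR0 : 0 ≤ R := by
    rw [hR]
    positivity
  have key : ∀ S₀ : Finset ℕ, (∀ u ∈ S₀, u.Prime) → (∀ u ∈ S₀, u ≤ z) → S₀.card ≤ k →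
      ∀ W ⊆ S₀ ∪ E, W.Nonempty → (∀ u ∈ W, u.Prime ∧ u % 4 = 1) →
      wt (fam I W (X / ∏ p ∈ S₀, p)) ≤ (X : ℝ) / ((∏ p ∈ S₀, p : ℕ) : ℝ) * R := by
    intro S₀ hS₀ hSz hSk W hWS hWn hW1
    set N : ℕ := ∏ p ∈ S₀, p with hN
    have hN0 : 0 < N := prod_pos_of fun p hp => hS₀ p hp
    have hN0' : (0 : ℝ) < N := by exact_mod_cast hN0
    have hlN : Real.log N ≤ 11 * ℓ ^ 4 := by
      have e1 : Real.log N = ∑ p ∈ S₀, Real.log p := by
        rw [hN]
        push_cast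
        rw [Real.log_prod]
        intro p hp
        have := (hS₀ p hp).ne_zero
        exact_mod_cast this
      rw [e1]
      calc ∑ p ∈ S₀, Real.log p ≤ ∑ _p ∈ S₀, Real.log z := by
            refine sum_le_sum fun p hp => ?_
            exact Real.log_le_log (by exact_mod_cast (hS₀ p hp).pos) (by exact_mod_cast hSz p hp)
        _ = S₀.card * Real.log z := by rw [sum_const, nsmul_eq_mul]
        _ ≤ (11 * ℓ) * ℓ ^ 3 := by
            refine mul_le_mul (le_trans (by exact_mod_cast hSk) hk11) hzlog hzlog0.le (by positivity)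
        _ = 11 * ℓ ^ 4 := by ring
    set Y : ℕ := X / N with hY
    have hX0 : (0 : ℝ) < X := by exact_mod_cast (by omega : 0 < X)
    have hYle : (Y : ℝ) ≤ (X : ℝ) / N := Nat.cast_div_le
    have hYge : Real.exp (Real.log X / 3) ≤ Y := by
      have e1 : (X : ℝ) / N < Y + 1 := by
        rw [div_lt_iff₀ hN0']
        have := Nat.lt_mul_div_succ X hN0
        rw [← hY] at this
        have h' : ((X : ℕ) : ℝ) < ((N * (Y + 1) : ℕ) : ℝ) := by exact_mod_cast this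
        push_cast at h'
        linarith
      have e2 : Real.exp (Real.log X - Real.log N) = (X : ℝ) / N := by
        rw [Real.exp_sub, Real.exp_log hX0, Real.exp_log hN0']
      have e3 : Real.exp (Real.log X / 3 + 1) ≤ (X : ℝ) / N := by
        rw [← e2]
        apply Real.exp_le_exp.2
        rw [hlogX]
        linarith
      rw [Real.exp_add] at e3
      have e4 : (2 : ℝ) ≤ Real.exp 1 := by have := Real.exp_one_gt_d9; linarith
      have e5 : (1 : ℝ) ≤ Real.exp (Real.log X / 3) := Real.one_le_exp (by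
        rw [hlogX]
        positivity)
      nlinarith
    have hX16 : (9 : ℝ) ≤ Real.log X / 3 := by
      rw [hlogX]
      linarith
    have hY4 : 4 ≤ Y := by
      have e1 := Real.add_one_le_exp (Real.log X / 3)
      have e2 : (4 : ℝ) ≤ Y := by linarith
      exact_mod_cast e2
    have hY3 : 3 ≤ Y := by omega
    have hY0 : (0 : ℝ) < Y := by exact_mod_cast (by omega : 0 < Y)
    have hlY : Real.log X / 3 ≤ Real.log Y := by
      rw [Real.le_log_iff_exp_le hY0]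
      exact hYge
    have hYX : Y ≤ X := Nat.div_le_self _ _
    have hlYX : Real.log Y ≤ Real.log X := Real.log_le_log hY0 (by exact_mod_cast hYX)
    have hlY0 : 0 < Real.log Y := by linarith
    -- the small factor
    have hlW : (Real.log ((∏ u ∈ W, u : ℕ) : ℝ)) ^ (1 / 2 : ℝ) ≤ (11 + cE) * ℓ ^ 4 := by
      have hWp : ∀ u ∈ W, u.Prime := fun u hu => (hW1 u hu).1
      have e0 : (0 : ℝ) < ((∏ u ∈ W, u : ℕ) : ℝ) := by exact_mod_cast prod_pos_of hWp
      have hEp : 0 < ∏ u ∈ E, u := prod_pos_of fun u hu => (hE u hu).1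
      have hEp' : (0 : ℝ) < ((∏ u ∈ E, u : ℕ) : ℝ) := by exact_mod_cast hEp
      have e1 : Real.log ((∏ u ∈ W, u : ℕ) : ℝ) ≤ (11 + cE) * ℓ ^ 4 := by
        have e7 : ∏ u ∈ W, u ≤ N * ∏ u ∈ E, u := by
          refine (prod_sub_le hWS ?_).trans ?_
          · intro u hu
            rcases mem_union.1 hu with h | h
            · exact hS₀ u h
            · exact (hE u h).1
          · have e8 : (∏ u ∈ S₀ ∪ E, u) * ∏ u ∈ S₀ ∩ E, u = (∏ u ∈ S₀, u) * ∏ u ∈ E, u :=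
              Finset.prod_union_inter
            have e9 : 0 < ∏ u ∈ S₀ ∩ E, u :=
              prod_pos_of fun u hu => hS₀ u (mem_inter.1 hu).1
            rw [hN, ← e8]
            exact Nat.le_mul_of_pos_right _ e9
        have e10 : Real.log ((∏ u ∈ W, u : ℕ) : ℝ) ≤ Real.log N + cE := by
          rw [hcE, ← Real.log_mul hN0'.ne' hEp'.ne']
          refine Real.log_le_log e0 ?_
          exact_mod_cast e7
        nlinarith
      have e2 : 0 ≤ Real.log ((∏ u ∈ W, u : ℕ) : ℝ) := Real.log_natCast_nonneg _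
      have e3 : (1 : ℝ) ≤ (11 + cE) * ℓ ^ 4 := by nlinarith
      refine (Real.rpow_le_rpow e2 e1 (by norm_num)).trans ?_
      have := Real.rpow_le_rpow_of_exponent_le e3 (show (1 / 2 : ℝ) ≤ 1 by norm_num)
      rwa [Real.rpow_one] at this
    have hmain := w_fam (I := I) h11 h1 h2 hWn hW1 hY4
    have hrY : (Real.log Y) ^ (1 / 8 : ℝ) ≤ Real.exp (1 / 8 * ℓ) := by
      refine (Real.rpow_le_rpow hlY0.le hlYX (by norm_num)).trans (le_of_eq ?_)
      rw [hlogX, ← Real.exp_mul]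
      congr 1
      ring
    have hexpI : Real.exp (∑ r ∈ NI I Y, (1 : ℝ) / r) ≤ Real.exp C₄ * Real.exp (1 / 4 * ℓ) := by
      refine (Real.exp_le_exp.2 (h4 Y hY3)).trans ?_
      rw [Real.exp_add, mul_comm (Real.exp C₄)]
      refine mul_le_mul_of_nonneg_right ?_ (Real.exp_pos _).le
      apply Real.exp_le_exp.2
      refine mul_le_mul_of_nonneg_left ?_ (by norm_num)
      exact Real.log_le_log hlY0 hlYX
    have hrY0 : 0 ≤ (Real.log Y) ^ (1 / 8 : ℝ) := Real.rpow_nonneg hlY0.le _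
    have hlW0 : 0 ≤ (Real.log ((∏ u ∈ W, u : ℕ) : ℝ)) ^ (1 / 2 : ℝ) :=
      Real.rpow_nonneg (Real.log_natCast_nonneg _) _
    have hin : (C₂ * (Real.log ((∏ u ∈ W, u : ℕ) : ℝ)) ^ (1 / 2 : ℝ) *
        (Real.log Y) ^ (1 / 8 : ℝ)) * Real.exp (∑ r ∈ NI I Y, (1 : ℝ) / r) ≤
        A * ℓ ^ 4 * Real.exp (3 / 8 * ℓ) := by
      have e1 : (C₂ * (Real.log ((∏ u ∈ W, u : ℕ) : ℝ)) ^ (1 / 2 : ℝ) *
          (Real.log Y) ^ (1 / 8 : ℝ)) * Real.exp (∑ r ∈ NI I Y, (1 : ℝ) / r) ≤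
          (C₂ * ((11 + cE) * ℓ ^ 4) * Real.exp (1 / 8 * ℓ)) *
            (Real.exp C₄ * Real.exp (1 / 4 * ℓ)) := by
        gcongr
      refine e1.trans (le_of_eq ?_)
      have e2 : Real.exp (3 / 8 * ℓ) = Real.exp (1 / 8 * ℓ) * Real.exp (1 / 4 * ℓ) := by
        rw [← Real.exp_add]
        congr 1
        ring
      rw [e2, hA]
      ring
    have hin0 : 0 ≤ (C₂ * (Real.log ((∏ u ∈ W, u : ℕ) : ℝ)) ^ (1 / 2 : ℝ) *
        (Real.log Y) ^ (1 / 8 : ℝ)) * Real.exp (∑ r ∈ NI I Y, (1 : ℝ) / r) := by positivity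
    have hb : C₁ * Y * ((C₂ * (Real.log ((∏ u ∈ W, u : ℕ) : ℝ)) ^ (1 / 2 : ℝ) *
        (Real.log Y) ^ (1 / 8 : ℝ)) * Real.exp (∑ r ∈ NI I Y, (1 : ℝ) / r)) ^ 2 ≤
        C₁ * ((X : ℝ) / N) * (A * ℓ ^ 4 * Real.exp (3 / 8 * ℓ)) ^ 2 := by
      have h6 := pow_le_pow_left₀ hin0 hin 2
      gcongr
    have hc : wt (fam I W Y) * (Real.log X / 3) ≤
        C₁ * ((X : ℝ) / N) * (A * ℓ ^ 4 * Real.exp (3 / 8 * ℓ)) ^ 2 := by
      refine le_trans ?_ (hmain.trans hb)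
      exact mul_le_mul_of_nonneg_left hlY (wt_nonneg _)
    have hd : (X : ℝ) / N * R = (C₁ * ((X : ℝ) / N) *
        (A * ℓ ^ 4 * Real.exp (3 / 8 * ℓ)) ^ 2) / (Real.log X / 3) := by
      rw [hR, hlogX]
      field_simp
    rw [hd, le_div_iff₀ (by rw [hlogX]; positivity)]
    exact hc
  -- the sum over the small parts
  set B := (SS I K X).filter fun S => S.card ≤ k ∧ ¬ Nd (sm z S ∪ E) (la z S) with hB
  set D := (range (z + 1)).filter fun p => p.Prime with hD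
  set W := D.powerset.filter fun S => S.card ≤ k with hW
  have hmaps : ∀ S ∈ B, sm z S ∈ W := by
    intro S hS
    rw [hB, mem_filter, SS, mem_filter, mem_powerset] at hS
    obtain ⟨⟨k1, k2, k3⟩, k4, k5⟩ := hS
    rw [hW, mem_filter, mem_powerset]
    refine ⟨fun p hp => ?_, (card_le_card (filter_subset _ _)).trans k4⟩
    obtain ⟨l1, l2⟩ := mem_filter.1 hp
    rw [hD, mem_filter, mem_range]
    refine ⟨by omega, ?_⟩
    rcases k2 p l1 with h | h
    · exact h.1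
    · exact h.1
  have hcard : wt B ≤ ∑ S₀ ∈ W,
      4 ^ S₀.card * ((X : ℝ) / ((∏ p ∈ S₀, p : ℕ) : ℝ) * (2 ^ E.card * R)) := by
    unfold wt
    rw [← sum_fiberwise_of_maps_to hmaps]
    refine sum_le_sum fun S₀ hS₀ => ?_
    rw [hW, mem_filter, mem_powerset] at hS₀
    have hpr : ∀ u ∈ S₀, u.Prime := fun u hu => (mem_filter.1 (hS₀.1 hu)).2
    have hle : ∀ u ∈ S₀, u ≤ z := fun u hu => by
      have := mem_range.1 (mem_filter.1 (hS₀.1 hu)).1
      omega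
    have e0 : ∑ S ∈ B.filter (fun S => sm z S = S₀), (2 : ℝ) ^ S.card =
        2 ^ S₀.card * ∑ S ∈ B.filter (fun S => sm z S = S₀), (2 : ℝ) ^ (la z S).card := by
      rw [mul_sum]
      refine sum_congr rfl fun S hS => ?_
      have h5 := (mem_filter.1 hS).2
      have h6 : (sm z S).card + (la z S).card = S.card :=
        Finset.card_filter_add_card_filter_not _
      rw [← h6, h5, pow_add]
    have e1 : ∑ S ∈ B.filter (fun S => sm z S = S₀), (2 : ℝ) ^ (la z S).card ≤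
        ∑ S ∈ (SS I K X).filter (fun S => ¬ Nd (sm z S ∪ E) (la z S) ∧ sm z S = S₀),
          (2 : ℝ) ^ (la z S).card := by
      refine sum_le_sum_of_subset_of_nonneg ?_ fun _ _ _ => by positivity
      intro S hS
      rw [mem_filter, hB, mem_filter] at hS
      rw [mem_filter]
      exact ⟨hS.1.1, hS.1.2.2, hS.2⟩
    have e2 := e1.trans (w_fiber I K X z hpr hE hEz)
    have e3 : ∑ S ∈ B.filter (fun S => sm z S = S₀), (2 : ℝ) ^ (la z S).card ≤
        ∑ t ∈ (S₀ ∪ E).powerset, (X : ℝ) / ((∏ p ∈ S₀, p : ℕ) : ℝ) * R := by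
      refine e2.trans ?_
      refine sum_le_sum fun t htS => ?_
      split_ifs with ht
      · exact key S₀ hpr hle hS₀.2 t (mem_powerset.1 htS) ht.1 ht.2
      · exact mul_nonneg (div_nonneg (Nat.cast_nonneg _) (by positivity)) hR0
    rw [e0]
    refine (mul_le_mul_of_nonneg_left e3 (by positivity)).trans ?_
    rw [sum_const, card_powerset, nsmul_eq_mul]
    push_cast
    have e4 : (2 : ℝ) ^ (S₀ ∪ E).card ≤ 2 ^ S₀.card * 2 ^ E.card := by
      rw [← pow_add]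
      exact pow_le_pow_right₀ (by norm_num) (card_union_le _ _)
    have e5 : 0 ≤ (X : ℝ) / (∏ p ∈ S₀, (p : ℝ)) * R :=
      mul_nonneg (div_nonneg (Nat.cast_nonneg _) (prod_nonneg fun _ _ => Nat.cast_nonneg _)) hR0
    have e6 : (4 : ℝ) ^ S₀.card = 2 ^ S₀.card * 2 ^ S₀.card := by
      rw [← mul_pow]
      norm_num
    calc (2 : ℝ) ^ S₀.card * ((2 : ℝ) ^ (S₀ ∪ E).card * ((X : ℝ) / (∏ p ∈ S₀, (p : ℝ)) * R)) ≤
        (2 : ℝ) ^ S₀.card * ((2 ^ S₀.card * 2 ^ E.card) * ((X : ℝ) / (∏ p ∈ S₀, (p : ℝ)) * R)) := by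
          refine mul_le_mul_of_nonneg_left ?_ (by positivity)
          exact mul_le_mul_of_nonneg_right e4 e5
      _ = _ := by
          rw [e6]
          ring
  have hsum : ∑ S₀ ∈ W, 4 ^ S₀.card * ((X : ℝ) / ((∏ p ∈ S₀, p : ℕ) : ℝ) * (2 ^ E.card * R)) ≤
      X * (2 ^ E.card * R) * Real.exp (4 * Pm z) := by
    have e1 : ∀ S₀ ∈ W, 4 ^ S₀.card * ((X : ℝ) / ((∏ p ∈ S₀, p : ℕ) : ℝ) * (2 ^ E.card * R)) =
        X * (2 ^ E.card * R) * ∏ p ∈ S₀, (4 / (p : ℝ)) := by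
      intro S₀ _
      rw [prod_div_distrib, prod_const]
      push_cast
      ring
    rw [sum_congr rfl e1, ← mul_sum]
    have h2XR : 0 ≤ (X : ℝ) * (2 ^ E.card * R) := by positivity
    refine mul_le_mul_of_nonneg_left ?_ h2XR
    calc ∑ S₀ ∈ W, ∏ p ∈ S₀, (4 / (p : ℝ)) ≤ ∑ S₀ ∈ D.powerset, ∏ p ∈ S₀, (4 / (p : ℝ)) := by
          refine sum_le_sum_of_subset_of_nonneg (filter_subset _ _) fun S _ _ => ?_
          exact prod_nonneg fun _ _ => by positivity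
      _ = ∏ p ∈ D, (1 + 4 / (p : ℝ)) := by rw [prod_one_add]
      _ ≤ ∏ p ∈ D, Real.exp (4 / (p : ℝ)) := by
          refine prod_le_prod (fun _ _ => by positivity) fun p _ => ?_
          rw [add_comm]
          exact Real.add_one_le_exp _
      _ = Real.exp (∑ p ∈ D, 4 / (p : ℝ)) := by rw [Real.exp_sum]
      _ ≤ Real.exp (4 * Pm z) := by
          apply Real.exp_le_exp.2
          unfold Pm
          rw [mul_sum]
          have e2 : ∀ p : ℕ, 4 / (p : ℝ) = 4 * (1 / p) := fun p => by ring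
          simp_rw [e2]
          refine sum_le_sum_of_subset_of_nonneg ?_ fun _ _ _ => by positivity
          intro p hp
          rw [hD, mem_filter, mem_range] at hp
          rw [mem_filter, mem_Icc]
          exact ⟨⟨hp.2.pos, by omega⟩, hp.2⟩
  have hexp : Real.exp (4 * Pm z) ≤ Real.exp (4 * C₃) * ℓ ^ 12 := by
    have e1 := h3 z hz3
    have e2 : Real.exp (4 * Pm z) ≤ Real.exp (4 * (Real.log (Real.log z) + C₃)) :=
      Real.exp_le_exp.2 (by linarith)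
    refine e2.trans ?_
    have e3 : Real.exp (4 * (Real.log (Real.log z) + C₃)) = Real.exp (4 * C₃) * (Real.log z) ^ 4 := by
      rw [mul_add, Real.exp_add, mul_comm]
      congr 1
      rw [show (4 : ℝ) * Real.log (Real.log z) = Real.log ((Real.log z) ^ 4) by
        rw [Real.log_pow]; push_cast; ring]
      exact Real.exp_log (by positivity)
    rw [e3]
    refine mul_le_mul_of_nonneg_left ?_ (Real.exp_pos _).le
    calc (Real.log z) ^ 4 ≤ (ℓ ^ 3) ^ 4 := pow_le_pow_left₀ hzlog0.le hzlog 4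
      _ = ℓ ^ 12 := by ring
  have hXR : 0 ≤ (X : ℝ) * (2 ^ E.card * R) := by positivity
  have hX0' : (0 : ℝ) ≤ X := Nat.cast_nonneg _
  have hRe : R = 3 * C₁ * A ^ 2 * (ℓ ^ 8 * Real.exp (-(1 / 4) * ℓ)) := by
    rw [hR, mul_pow, mul_pow, ← Real.exp_nat_mul, div_eq_mul_inv, ← Real.exp_neg]
    have e1 : Real.exp (-(1 / 4) * ℓ) = Real.exp (((2 : ℕ) : ℝ) * (3 / 8 * ℓ)) * Real.exp (-ℓ) := by
      rw [← Real.exp_add]
      congr 1
      push_cast
      ring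
    rw [e1]
    ring
  have h20 : ℓ ^ 20 * Real.exp (-(1 / 4) * ℓ) ≤ Real.exp (-(1 / 8) * ℓ) := by
    rw [hpow 20 (by norm_num), ← Real.exp_add]
    apply Real.exp_le_exp.2
    push_cast
    linarith
  calc wt B ≤ X * (2 ^ E.card * R) * Real.exp (4 * Pm z) := hcard.trans hsum
    _ ≤ X * (2 ^ E.card * R) * (Real.exp (4 * C₃) * ℓ ^ 12) :=
        mul_le_mul_of_nonneg_left hexp hXR
    _ = 2 ^ E.card * (3 * C₁ * A ^ 2) * Real.exp (4 * C₃) *
        (X * (ℓ ^ 20 * Real.exp (-(1 / 4) * ℓ))) := by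
        rw [hRe]
        ring
    _ ≤ 2 ^ E.card * (3 * C₁ * A ^ 2) * Real.exp (4 * C₃) * (X * Real.exp (-(1 / 8) * ℓ)) := by
        gcongr

end Run7.h428.W
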