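import Pool.Agent.Run7.h428.WP
import Pool.Agent.Run7.h428.UniG
import Pool.Agent.Run7.h428.Inst

/-!
# The law of the masks for the lattice points

The elements are the pairs `z = (a, b)` of integers such that the squarefree part of `a² + b²` is odd
(two thirds of all pairs), the mask of `z` is the set of the prime factors of the squarefree part, and the
property of the mask is the criterion for the twist of `X_0(49)` by `a² + b²`.
-/

set_option autoImplicit false

open scoped Classical symmDiff

namespace Run7.h428.WI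

open Finset Filter Topology
open Run7.h428.MixG Run7.h428.UniG Run7.h428.W Run7.h428.WP
open Run7.h238.Pairs
open Run7.h428.Inst (am am_pf am_symm Iy faM c2_pos)
open Pool.Agent.R413.SQ
open Pool.Agent.Y703.CQ (c2)
open Pool.Agent.Y698.SG (n4)

theorem cn_le {α : Type} {T : Finset α} {A B : Set α} (h : ∀ D ∈ T, D ∈ A → D ∈ B) :
    cn T A ≤ cn T B := by
  unfold cn
  exact_mod_cast card_le_card (fun D hD => by
    rw [mem_filter] at hD ⊢
    exact ⟨hD.1, h D hD.1 hD.2⟩)

/-- the mask of a lattice point -/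
def U (z : ℤ × ℤ) : Finset ℕ := oddP (nm z)

theorem ex_CX {z : ℤ × ℤ} : (∃ X, z ∈ CX X) ↔ nm z ≠ 0 ∧ 2 ∉ oddP (nm z) := by
  constructor
  · rintro ⟨X, hX⟩
    exact (mem_CX.1 hX).2
  · intro h
    exact ⟨nm z, mem_CX.2 ⟨le_rfl, h⟩⟩

theorem am_U {z : ℤ × ℤ} (h : nm z ≠ 0 ∧ 2 ∉ oddP (nm z)) : am (U z) := by
  obtain ⟨w, -, -, -, -, -, h8⟩ := data h.1 h.2
  exact h8

theorem ar_pos : 0 < 2 / 3 * Run7.h238.Disc.ar := by
  have := Run7.h238.Disc.ar_pos
  positivity

theorem inf_CX : Tendsto (fun X => ((CX X).card : ℝ)) atTop atTop := by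
  have h1 := Run7.h238.Half.CX_tendsto.eventually (lt_mem_nhds
    (show Run7.h238.Disc.ar / 3 < 2 / 3 * Run7.h238.Disc.ar by
      have := Run7.h238.Disc.ar_pos
      linarith))
  refine tendsto_atTop_mono' atTop ?_
    (Tendsto.const_mul_atTop (show 0 < Run7.h238.Disc.ar / 3 by
      have := Run7.h238.Disc.ar_pos
      positivity) tendsto_natCast_atTop_atTop)
  filter_upwards [h1, eventually_ge_atTop 1] with X hX h2
  have h3 : (0 : ℝ) < X := by exact_mod_cast h2
  exact ((lt_div_iff₀ h3).1 hX).le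

/-- passage from `X` to the number of the points -/
theorem ratio {u : ℕ → ℝ} {l : ℝ} (hu : Tendsto (fun X : ℕ => u X / X) atTop
    (𝓝 (l * (2 / 3 * Run7.h238.Disc.ar)))) :
    Tendsto (fun X : ℕ => u X / ((CX X).card : ℝ)) atTop (𝓝 l) := by
  have h := hu.div Run7.h238.Half.CX_tendsto ar_pos.ne'
  rw [mul_div_assoc, div_self ar_pos.ne', mul_one] at h
  refine h.congr' ?_
  filter_upwards [eventually_ge_atTop 1] with X hX
  have hX0 : (X : ℝ) ≠ 0 := by
    have : (0 : ℝ) < X := by exact_mod_cast hX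
    exact this.ne'
  simp only [Pi.div_apply]
  exact div_div_div_cancel_right₀ hX0 _ _

/-- **the law** -/
theorem isLaw : Law CX U nm (Gd n4) am c2 := by
  refine ⟨inf_CX, c2_pos.1, c2_pos.2, fun p hp => absurd hp (notMem_empty p), fun V V' => am_symm,
    fun X D hD => am_U (mem_CX.1 hD).2, fun V => ?_, fun B => ?_, fun P Q hP hQ hPQ => ?_⟩
  · have h1 := fib0 V
    have h2 := ratio (u := fun X => (((CX X).filter fun v => oddP (nm v) = V).card : ℝ)) (l := 0)
      (by rw [zero_mul]; exact h1)
    refine h2.congr fun X => ?_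
    congr 1
    unfold cn
    congr 2
    ext D
    simp [U]
  · refine (CX B).finite_toSet.subset ?_
    rintro z ⟨⟨X, hX⟩, hz⟩
    exact mem_CX.2 ⟨hz, (mem_CX.1 hX).2⟩
  · set P' : Finset Iy := P.subtype am with hP'
    set Q' : Finset Iy := Q.subtype am with hQ'
    have hd : Disjoint P' Q' := by
      rw [disjoint_left]
      intro z hz hz'
      rw [hP', mem_subtype] at hz
      rw [hQ', mem_subtype] at hz'
      exact disjoint_left.1 hPQ hz hz'
    have cP : P'.card = P.card := by
      rw [hP', card_subtype, filter_true_of_mem hP]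
    have cQ : Q'.card = Q.card := by
      rw [hQ', card_subtype, filter_true_of_mem hQ]
    have h := p_law faM P' Q' hd
    rw [cP, cQ] at h
    refine (ratio h).congr fun X => ?_
    congr 1
    unfold cn
    congr 2
    ext D
    rw [mem_filter]
    simp only [mem_filter, Set.mem_ofPred_eq]
    refine and_congr_right fun _ => ?_
    constructor
    · rintro ⟨h1, h2⟩
      exact ⟨fun V hV => h1 ⟨V, hP V hV⟩ (mem_subtype.2 hV),
        fun V hV => h2 ⟨V, hQ V hV⟩ (mem_subtype.2 hV)⟩
    · rintro ⟨h1, h2⟩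
      exact ⟨fun i hi => h1 _ (mem_subtype.1 hi), fun i hi => h2 _ (mem_subtype.1 hi)⟩

end Run7.h428.WI
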